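/-
MP_eb7570_an, Bessel part, basic file (helper61).

`F n s = ∑ (-s)^k / (k! (k+n)!)` (Bessel-Clifford function), so that
`J_n(x) = (x/2)^n F n (x^2/4)`.  `F n' = - F (n+1)`, `F n = (n+1) F (n+1) - s F (n+2)`.
-/
import Mathlib

set_option autoImplicit false

namespace Pool.Agent.PPW.Bes

open scoped Nat

/-- general term of the Bessel-Clifford series -/
noncomputable def trm (n : ℕ) (s : ℝ) (k : ℕ) : ℝ := (-s) ^ k / ((k ! : ℝ) * ((k + n)! : ℝ))

/-- Bessel-Clifford function `F n s = ∑ (-s)^k/(k! (k+n)!)`. -/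
noncomputable def F (n : ℕ) (s : ℝ) : ℝ := ∑' k : ℕ, trm n s k

theorem trm_abs_le (n : ℕ) (s : ℝ) (k : ℕ) : |trm n s k| ≤ |s| ^ k / (k ! : ℝ) := by
  unfold trm
  rw [abs_div, abs_pow, abs_neg]
  have h1 : (0:ℝ) < (k ! : ℝ) := by exact_mod_cast Nat.factorial_pos k
  have h2 : (1:ℝ) ≤ ((k + n)! : ℝ) := by exact_mod_cast Nat.one_le_iff_ne_zero.2 (Nat.factorial_ne_zero _)
  rw [abs_of_pos (by positivity : (0:ℝ) < (k ! : ℝ) * ((k + n)! : ℝ))]
  apply div_le_div_of_nonneg_left (by positivity) h1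
  nlinarith

theorem summable_trm (n : ℕ) (s : ℝ) : Summable (trm n s) :=
  Summable.of_norm_bounded (Real.summable_pow_div_factorial |s|)
    (fun k => by rw [Real.norm_eq_abs]; exact trm_abs_le n s k)

theorem hasSum_F (n : ℕ) (s : ℝ) : HasSum (trm n s) (F n s) := (summable_trm n s).hasSum

theorem F_at_zero (n : ℕ) : F n 0 = 1 / (n ! : ℝ) := by
  unfold F
  rw [tsum_eq_single 0]
  · simp [trm]
  · intro k hk
    simp [trm, hk]

theorem trm_succ_deriv (n : ℕ) (s : ℝ) (k : ℕ) :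
    HasDerivAt (fun x => trm n x (k + 1)) (-(trm (n + 1) s k)) s := by
  unfold trm
  have h1 : HasDerivAt (fun x : ℝ => (-x) ^ (k + 1)) (((k + 1 : ℕ) : ℝ) * (-s) ^ k * (-1)) s := by
    have h0 : HasDerivAt (fun x : ℝ => -x) (-1) s := hasDerivAt_neg s
    have := h0.fun_pow (k + 1)
    simpa only [Nat.add_sub_cancel] using this
  have h2 := h1.div_const (((k + 1)! : ℝ) * ((k + 1 + n)! : ℝ))
  refine h2.congr_deriv ?_
  have e1 : ((k + 1)! : ℝ) = ((k + 1 : ℕ) : ℝ) * (k ! : ℝ) := by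
    rw [Nat.factorial_succ]; push_cast; ring
  have e2 : k + (n + 1) = k + 1 + n := by ring
  rw [e2, e1]
  have hk : ((k + 1 : ℕ) : ℝ) ≠ 0 := by positivity
  have hk' : (k ! : ℝ) ≠ 0 := by exact_mod_cast Nat.factorial_ne_zero k
  have hk'' : ((k + 1 + n)! : ℝ) ≠ 0 := by exact_mod_cast Nat.factorial_ne_zero _
  field_simp

theorem F_eq_zero_add (n : ℕ) (s : ℝ) : F n s = 1 / (n ! : ℝ) + ∑' k : ℕ, trm n s (k + 1) := by
  unfold F
  rw [(summable_trm n s).tsum_eq_zero_add]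
  simp [trm]

theorem hasDerivAt_F (n : ℕ) (s : ℝ) : HasDerivAt (F n) (-(F (n + 1) s)) s := by
  have hF : F n = fun x => 1 / (n ! : ℝ) + ∑' k : ℕ, trm n x (k + 1) := by
    funext x; exact F_eq_zero_add n x
  rw [hF]
  have key : HasDerivAt (fun x => ∑' k : ℕ, trm n x (k + 1)) (∑' k : ℕ, -(trm (n + 1) s k)) s := by
    set R : ℝ := |s| + 1 with hR
    have hRpos : 0 < R := by positivity
    refine hasDerivAt_tsum_of_isPreconnected (u := fun k => R ^ k / (k ! : ℝ))
      (Real.summable_pow_div_factorial R) (t := Metric.ball (0:ℝ) R) Metric.isOpen_ball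
      ((convex_ball (0:ℝ) R).isPreconnected) (g := fun k x => trm n x (k + 1))
      (g' := fun k x => -(trm (n + 1) x k)) ?_ ?_ (y₀ := 0) ?_ ?_ ?_
    · intro k y _
      exact trm_succ_deriv n y k
    · intro k y hy
      rw [norm_neg, Real.norm_eq_abs]
      refine (trm_abs_le (n + 1) y k).trans ?_
      have : |y| ≤ R := by
        rw [Metric.mem_ball, dist_zero_right, Real.norm_eq_abs] at hy
        exact hy.le
      gcongr
    · simp [hRpos]
    · exact (summable_nat_add_iff 1).2 (summable_trm n 0)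
    · rw [Metric.mem_ball, dist_zero_right, Real.norm_eq_abs]; linarith
  have := key.const_add (1 / (n ! : ℝ))
  rw [tsum_neg] at this
  exact this

theorem differentiable_F (n : ℕ) : Differentiable ℝ (F n) :=
  fun s => (hasDerivAt_F n s).differentiableAt

theorem deriv_F (n : ℕ) : deriv (F n) = fun s => -(F (n + 1) s) := by
  funext s; exact (hasDerivAt_F n s).deriv

theorem continuous_F (n : ℕ) : Continuous (F n) := (differentiable_F n).continuous

theorem contDiff_F_nat (j n : ℕ) : ContDiff ℝ j (F n) := by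
  induction j generalizing n with
  | zero => exact contDiff_zero.2 (continuous_F n)
  | succ j ih =>
    have e : ((j + 1 : ℕ) : WithTop ℕ∞) = (j : WithTop ℕ∞) + 1 := by push_cast; rfl
    rw [e, contDiff_succ_iff_deriv]
    refine ⟨differentiable_F n, fun h => ?_, ?_⟩
    · exact absurd h (by simp)
    · rw [deriv_F]
      exact (ih (n + 1)).neg

theorem contDiff_F (n : ℕ) : ContDiff ℝ ((⊤ : ℕ∞) : WithTop ℕ∞) (F n) := by
  rw [contDiff_infty]
  exact fun j => contDiff_F_nat j n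

theorem trm_rec (n : ℕ) (s : ℝ) (k : ℕ) :
    trm n s (k + 1) = (n + 1) * trm (n + 1) s (k + 1) - s * trm (n + 2) s k := by
  unfold trm
  have e1 : ((k + 1)! : ℝ) = ((k + 1 : ℕ) : ℝ) * (k ! : ℝ) := by
    rw [Nat.factorial_succ]; push_cast; ring
  have e2 : ((k + 1 + (n + 1))! : ℝ) = ((k + 1 + (n + 1) : ℕ) : ℝ) * ((k + 1 + n)! : ℝ) := by
    rw [show k + 1 + (n + 1) = (k + 1 + n) + 1 by ring, Nat.factorial_succ]; push_cast; ring
  have e3 : ((k + (n + 2))! : ℝ) = ((k + 1 + (n + 1) : ℕ) : ℝ) * ((k + 1 + n)! : ℝ) := by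
    rw [show k + (n + 2) = (k + 1 + n) + 1 by ring, Nat.factorial_succ]; push_cast; ring
  rw [e1, e2, e3]
  have hk : ((k + 1 : ℕ) : ℝ) ≠ 0 := by positivity
  have hk' : (k ! : ℝ) ≠ 0 := by exact_mod_cast Nat.factorial_ne_zero k
  have hk'' : ((k + 1 + n)! : ℝ) ≠ 0 := by exact_mod_cast Nat.factorial_ne_zero _
  have hk3 : ((k + 1 + (n + 1) : ℕ) : ℝ) ≠ 0 := by positivity
  push_cast at *
  field_simp
  ring

/-- Three term recurrence. -/
theorem F_rec (n : ℕ) (s : ℝ) : F n s = (n + 1) * F (n + 1) s - s * F (n + 2) s := by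
  have h1 : ∑' k : ℕ, trm n s (k + 1)
      = (n + 1) * ∑' k : ℕ, trm (n + 1) s (k + 1) - s * F (n + 2) s := by
    unfold F
    rw [← tsum_mul_left, ← tsum_mul_left, ← Summable.tsum_sub]
    · exact tsum_congr (fun k => trm_rec n s k)
    · exact ((summable_nat_add_iff 1).2 (summable_trm (n + 1) s)).mul_left _
    · exact (summable_trm (n + 2) s).mul_left _
  rw [F_eq_zero_add n s, F_eq_zero_add (n + 1) s, h1, Nat.factorial_succ]
  have h2 : (n ! : ℝ) ≠ 0 := by exact_mod_cast Nat.factorial_ne_zero n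
  have h3 : ((n : ℝ) + 1) ≠ 0 := by positivity
  push_cast
  field_simp
  ring

/-- Partial sums. -/
noncomputable def part (n K : ℕ) (s : ℝ) : ℝ := ∑ k ∈ Finset.range K, trm n s k

/-- Ratio of consecutive terms. -/
theorem trm_ratio (n : ℕ) (s : ℝ) (k : ℕ) :
    trm n s (k + 1) = trm n s k * ((-s) / (((k : ℝ) + 1) * (k + 1 + n))) := by
  unfold trm
  have e1 : ((k + 1)! : ℝ) = ((k : ℝ) + 1) * (k ! : ℝ) := by
    rw [Nat.factorial_succ]; push_cast; ring
  have e2 : ((k + 1 + n)! : ℝ) = ((k : ℝ) + 1 + n) * ((k + n)! : ℝ) := by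
    rw [show k + 1 + n = (k + n) + 1 by ring, Nat.factorial_succ]; push_cast; ring
  rw [e1, e2]
  have hk' : (k ! : ℝ) ≠ 0 := by exact_mod_cast Nat.factorial_ne_zero k
  have hk'' : ((k + n)! : ℝ) ≠ 0 := by exact_mod_cast Nat.factorial_ne_zero _
  have h3 : ((k : ℝ) + 1) ≠ 0 := by positivity
  have h4 : ((k : ℝ) + 1 + n) ≠ 0 := by positivity
  field_simp
  ring

/-- Tail bound: `|F n s - part n K s| ≤ 2 |s|^K/(K! (K+n)!)` if `2|s| ≤ (K+1)(K+1+n)`. -/
theorem abs_F_sub_part_le (n K : ℕ) (s : ℝ) (h : 2 * |s| ≤ ((K : ℝ) + 1) * (K + 1 + n)) :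
    |F n s - part n K s| ≤ 2 * (|s| ^ K / ((K ! : ℝ) * ((K + n)! : ℝ))) := by
  have h1 : F n s - part n K s = ∑' j : ℕ, trm n s (j + K) := by
    unfold F part
    rw [← (summable_trm n s).sum_add_tsum_nat_add K]
    ring
  rw [h1]
  set c : ℝ := |s| ^ K / ((K ! : ℝ) * ((K + n)! : ℝ)) with hc
  have hcnn : 0 ≤ c := by positivity
  have hb : ∀ j : ℕ, ‖trm n s (j + K)‖ ≤ c * (1 / 2) ^ j := by
    intro j
    induction j with
    | zero =>
      rw [Real.norm_eq_abs]
      simp only [Nat.zero_add, pow_zero, mul_one]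
      unfold trm
      rw [abs_div, abs_pow, abs_neg, abs_of_pos (by positivity : (0:ℝ) < (K ! : ℝ) * ((K + n)! : ℝ))]
    | succ j ih =>
      rw [show j + 1 + K = (j + K) + 1 by ring, trm_ratio, norm_mul, pow_succ]
      rw [← mul_assoc]
      refine mul_le_mul ih ?_ (norm_nonneg _) (by positivity)
      rw [Real.norm_eq_abs, abs_div, abs_neg,
        abs_of_pos (by positivity : (0:ℝ) < (((j + K : ℕ) : ℝ) + 1) * (((j + K : ℕ) : ℝ) + 1 + n))]
      rw [div_le_iff₀ (by positivity)]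
      have hj : (0:ℝ) ≤ (j : ℝ) := by positivity
      have hK : (0:ℝ) ≤ (K : ℝ) := by positivity
      have hn : (0:ℝ) ≤ (n : ℝ) := by positivity
      push_cast
      nlinarith [mul_nonneg hj hj, mul_nonneg hj hK, mul_nonneg hj hn]
  have hs : Summable (fun j : ℕ => c * (1 / 2 : ℝ) ^ j) :=
    (summable_geometric_of_lt_one (by norm_num) (by norm_num)).mul_left c
  have h2 := tsum_of_norm_bounded (hs.hasSum) hb
  rw [Real.norm_eq_abs] at h2
  refine h2.trans ?_
  rw [tsum_mul_left, tsum_geometric_of_lt_one (by norm_num) (by norm_num)]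
  norm_num
  linarith

end Pool.Agent.PPW.Bes
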