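/-
MP_eb7570_an (helper61): product identities of the radial functions.
`Fs 0 1 * sb = Fs 1 kap2`, `Fs 0 1 * sa1 = sN1`, `Fs 0 1 * sa2 = sN2`,
`Fs 0 1 ^ 2 * sh0 = C (s0 b(s0)^2) - X * sb^2`, `Fs 0 1 ^ 2 * sh1 = sV - 2 F0 F2 h0`.
-/
import Pool.Agent.Lib.MP_eb7570_an.Bes.Data

set_option autoImplicit false
set_option linter.dupNamespace false

namespace Pool.Agent.PPW.TM

open PowerSeries
open Pool.Agent.PPW.Bes (F s0 s1 kap2 s0_pos s1_pos kap2_pos)

/-- series with radius larger than `s0` -/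
class Go (a : PowerSeries ℝ) : Prop where
  out : ∃ ρ : ℝ, s0 < ρ ∧ Gd ρ a

theorem Go.of_gd {ρ : ℝ} {a : PowerSeries ℝ} (h : s0 < ρ) (ha : Gd ρ a) : Go a := ⟨ρ, h, ha⟩

theorem Go.pair {a b : PowerSeries ℝ} (ha : Go a) (hb : Go b) :
    ∃ ρ : ℝ, s0 < ρ ∧ 0 ≤ ρ ∧ Gd ρ a ∧ Gd ρ b := by
  obtain ⟨ρ1, h1, g1⟩ := ha.out
  obtain ⟨ρ2, h2, g2⟩ := hb.out
  have h0 := s0_pos
  have hm : 0 ≤ min ρ1 ρ2 := le_min (by linarith) (by linarith)
  exact ⟨min ρ1 ρ2, lt_min h1 h2, hm, g1.radius hm (min_le_left _ _), g2.radius hm (min_le_right _ _)⟩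

instance Go.instAdd {a b : PowerSeries ℝ} [ha : Go a] [hb : Go b] : Go (a + b) := by
  obtain ⟨ρ, h, h0, g1, g2⟩ := Go.pair ha hb
  exact Go.of_gd h (g1.add h0 g2)

instance Go.instSub {a b : PowerSeries ℝ} [ha : Go a] [hb : Go b] : Go (a - b) := by
  obtain ⟨ρ, h, h0, g1, g2⟩ := Go.pair ha hb
  exact Go.of_gd h (g1.sub h0 g2)

instance Go.instMul {a b : PowerSeries ℝ} [ha : Go a] [hb : Go b] : Go (a * b) := by
  obtain ⟨ρ, h, h0, g1, g2⟩ := Go.pair ha hb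
  exact Go.of_gd h (g1.mul h0 g2)

instance Go.instNeg {a : PowerSeries ℝ} [ha : Go a] : Go (-a) := by
  obtain ⟨ρ, h, g⟩ := ha.out
  exact Go.of_gd h g.neg

instance Go.instC (t : ℝ) : Go (C t) := Go.of_gd (ρ := 2) s0_lt_two (Gd.C t)

instance Go.instOne : Go (1 : PowerSeries ℝ) := Go.of_gd (ρ := 2) s0_lt_two Gd.one

instance Go.instZero : Go (0 : PowerSeries ℝ) := Go.of_gd (ρ := 2) s0_lt_two ⟨0, Bd.zero⟩

instance Go.instX : Go (X : PowerSeries ℝ) := Go.of_gd (ρ := 2) s0_lt_two (Gd.X (by norm_num))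

instance Go.instFs (n : ℕ) (lam : ℝ) : Go (Fs n lam) :=
  Go.of_gd (ρ := 2) s0_lt_two (Gd.Fs (by norm_num) n lam)

instance Go.instDd {a : PowerSeries ℝ} [ha : Go a] : Go (dd s0 a) := by
  obtain ⟨ρ, h, g⟩ := ha.out
  exact Go.of_gd h (g.dd (by rwa [abs_s0]))

instance Go.instDer {a : PowerSeries ℝ} [ha : Go a] : Go (der a) := by
  obtain ⟨ρ, h, g⟩ := ha.out
  obtain ⟨ρ', h1, h2⟩ := exists_between h
  exact Go.of_gd h1 (g.der (s0_pos.le.trans h1.le) h2)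

instance Go.instAi : Go sAi := by
  refine Go.of_gd (ρ := ((5 / 2 : ℚ) : ℝ)) ?_ (tm_Ai.gd (by norm_num))
  have := s0_lt_two
  push_cast; linarith

instance Go.instA : Go sA := by unfold sA; infer_instance
instance Go.instB : Go sB := by unfold sB; infer_instance
instance Go.instb : Go sb := by unfold sb; infer_instance
instance Go.instN1 : Go sN1 := by unfold sN1; infer_instance
instance Go.insta1 : Go sa1 := by unfold sa1; infer_instance
instance Go.instN2 : Go sN2 := by unfold sN2; infer_instance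
instance Go.insta2 : Go sa2 := by unfold sa2; infer_instance
instance Go.instH' : Go sH' := by unfold sH'; infer_instance
instance Go.insth0 : Go sh0 := by unfold sh0; infer_instance
instance Go.instV : Go sV := by unfold sV; infer_instance
instance Go.instN3 : Go sN3 := by unfold sN3; infer_instance
instance Go.insth1 : Go sh1 := by unfold sh1; infer_instance

/-- value at `s0` -/
noncomputable def vz (a : PowerSeries ℝ) : ℝ := ev a s0

theorem vz_add (a b : PowerSeries ℝ) [ha : Go a] [hb : Go b] : vz (a + b) = vz a + vz b := by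
  obtain ⟨ρ, h, h0, g1, g2⟩ := Go.pair ha hb
  exact g1.ev_add (by rw [abs_s0]; exact h.le) g2

theorem vz_sub (a b : PowerSeries ℝ) [ha : Go a] [hb : Go b] : vz (a - b) = vz a - vz b := by
  obtain ⟨ρ, h, h0, g1, g2⟩ := Go.pair ha hb
  exact g1.ev_sub (by rw [abs_s0]; exact h.le) g2

theorem vz_mul (a b : PowerSeries ℝ) [ha : Go a] [hb : Go b] : vz (a * b) = vz a * vz b := by
  obtain ⟨ρ, h, h0, g1, g2⟩ := Go.pair ha hb
  exact g1.ev_mul (by rw [abs_s0]; exact h.le) g2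

theorem vz_neg (a : PowerSeries ℝ) : vz (-a) = - vz a := ev_neg a s0

theorem vz_C (t : ℝ) : vz (C t) = t := ev_C t s0

theorem vz_one : vz 1 = 1 := ev_one s0

theorem vz_X : vz (X : PowerSeries ℝ) = s0 := ev_X s0

theorem dd_eq (a : PowerSeries ℝ) [ha : Go a] : (C s0 - X) * dd s0 a = a - C (vz a) := by
  obtain ⟨ρ, h, g⟩ := ha.out
  exact g.dd_spec (by rwa [abs_s0])

theorem vz_dd (a : PowerSeries ℝ) [Go a] : vz (dd s0 a) = - vz (der a) := by
  have h := congrArg der (dd_eq a)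
  rw [der_mul, der_sub, der_sub, der_C, der_C, der_X] at h
  have h1 := congrArg vz h
  rw [sub_zero, vz_add, vz_mul, vz_mul, vz_sub, vz_sub, vz_C, vz_X, vz_one] at h1
  have h2 : vz (0 : PowerSeries ℝ) = 0 := ev_zero s0
  rw [h2] at h1
  linarith

/-! ### values at the zero -/

theorem s1_eq : s1 = kap2 * s0 := Pool.Agent.PPW.Bes.kap2_mul_s0.symm

/-- `f1 = F 1 s0 > 0` -/
noncomputable def f1 : ℝ := F 1 s0
/-- `w = F 2 s1 > 0` -/
noncomputable def w : ℝ := F 2 s1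

theorem f1_pos : 0 < f1 := Pool.Agent.PPW.Bes.F1_pos s0_pos.le Pool.Agent.PPW.Bes.s0_lt_s1

theorem w_pos : 0 < w := Pool.Agent.PPW.Bes.F2_pos s1 s1_pos.le Pool.Agent.PPW.Bes.s1_le

theorem vF0 : vz (Fs 0 1) = 0 := by
  unfold vz; rw [ev_Fs, one_mul, Pool.Agent.PPW.Bes.F0_s0]
theorem vF1 : vz (Fs 1 1) = f1 := by unfold vz; rw [ev_Fs, one_mul]; rfl
theorem vF2 : vz (Fs 2 1) = f1 / s0 := by
  have h := Pool.Agent.PPW.Bes.F_rec 0 s0
  rw [Pool.Agent.PPW.Bes.F0_s0] at h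
  unfold vz f1; rw [ev_Fs, one_mul]
  have := s0_pos.ne'
  field_simp
  norm_num at h
  linarith
theorem vF3 : vz (Fs 3 1) = (2 / s0 ^ 2 - 1 / s0) * f1 := by
  have h := Pool.Agent.PPW.Bes.F_rec 1 s0
  have h2 := vF2
  unfold vz at *; rw [ev_Fs, one_mul] at *
  unfold f1 at *
  have := s0_pos.ne'
  rw [h2] at h
  field_simp at h ⊢
  norm_num at h
  linarith
theorem vF4 : vz (Fs 4 1) = (6 / s0 ^ 3 - 4 / s0 ^ 2) * f1 := by
  have h := Pool.Agent.PPW.Bes.F_rec 2 s0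
  have h2 := vF2
  have h3 := vF3
  unfold vz at *; rw [ev_Fs, one_mul] at *
  have := s0_pos.ne'
  rw [h2, h3] at h
  field_simp at h ⊢
  norm_num at h
  linarith

theorem vK1 : vz (Fs 1 kap2) = 0 := by
  unfold vz; rw [ev_Fs, Pool.Agent.PPW.Bes.kap2_mul_s0, Pool.Agent.PPW.Bes.F1_s1]
theorem vK2 : vz (Fs 2 kap2) = w := by
  unfold vz; rw [ev_Fs, Pool.Agent.PPW.Bes.kap2_mul_s0]; rfl
theorem vK0 : vz (Fs 0 kap2) = - s1 * w := by
  have h := Pool.Agent.PPW.Bes.F_rec 0 s1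
  norm_num at h
  rw [Pool.Agent.PPW.Bes.F1_s1] at h
  unfold vz w; rw [ev_Fs, Pool.Agent.PPW.Bes.kap2_mul_s0, h]; ring
theorem vK3 : vz (Fs 3 kap2) = 2 * w / s1 := by
  have h := Pool.Agent.PPW.Bes.F_rec 1 s1
  norm_num at h
  rw [Pool.Agent.PPW.Bes.F1_s1] at h
  unfold vz w; rw [ev_Fs, Pool.Agent.PPW.Bes.kap2_mul_s0]
  have := s1_pos.ne'
  field_simp
  linarith
theorem vK4 : vz (Fs 4 kap2) = (6 / s1 - 1) * w / s1 := by
  have h := Pool.Agent.PPW.Bes.F_rec 2 s1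
  have h3 := vK3
  unfold vz at *; rw [ev_Fs, Pool.Agent.PPW.Bes.kap2_mul_s0] at *
  have := s1_pos.ne'
  norm_num at h
  rw [h3] at h
  unfold w at *
  field_simp at h ⊢
  linarith
theorem vK5 : vz (Fs 5 kap2) = (24 / s1 ^ 2 - 6 / s1) * w / s1 := by
  have h := Pool.Agent.PPW.Bes.F_rec 3 s1
  have h3 := vK3
  have h4 := vK4
  unfold vz at *; rw [ev_Fs, Pool.Agent.PPW.Bes.kap2_mul_s0] at *
  have := s1_pos.ne'
  norm_num at h
  rw [h3, h4] at h
  field_simp at h ⊢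
  linarith

/-! ### the identity for `b` -/

theorem F0_mul_b : Fs 0 1 * sb = Fs 1 kap2 := by
  have h1 := sA_spec
  have h2 := sB_spec
  have h3 := sA_mul_sAi
  unfold sb
  calc Fs 0 1 * (sB * sAi) = ((C s0 - X) * sA) * (sB * sAi) := by rw [h1]
    _ = ((C s0 - X) * sB) * (sA * sAi) := by ring
    _ = Fs 1 kap2 := by rw [h3, h2, mul_one]

theorem b_d1 : -(Fs 1 1 * sb) + Fs 0 1 * der sb = C (-kap2) * Fs 2 kap2 := by
  have h := congrArg der F0_mul_b
  rw [der_mul, der_Fs, der_Fs] at h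
  simp only [map_neg, map_one, Nat.zero_add, Nat.reduceAdd] at h ⊢
  linear_combination h

theorem b_d2 : Fs 2 1 * sb - 2 * (Fs 1 1 * der sb) + Fs 0 1 * der (der sb)
    = C (kap2 ^ 2) * Fs 3 kap2 := by
  have h := congrArg der b_d1
  rw [der_add, der_neg, der_mul, der_mul, der_C_mul, der_Fs, der_Fs, der_Fs] at h
  simp only [map_neg, map_one, Nat.zero_add, Nat.reduceAdd] at h ⊢
  rw [map_pow]
  linear_combination h

theorem b_d3 : -(Fs 3 1 * sb) + 3 * (Fs 2 1 * der sb) - 3 * (Fs 1 1 * der (der sb))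
    + Fs 0 1 * der (der (der sb)) = C (-(kap2 ^ 3)) * Fs 4 kap2 := by
  have e2 : (2 : PowerSeries ℝ) = C 2 := (map_ofNat (C (R := ℝ)) 2).symm
  have h := congrArg der b_d2
  rw [e2, der_add, der_sub, der_mul, der_C_mul, der_mul, der_mul, der_C_mul, der_Fs, der_Fs, der_Fs,
    der_Fs] at h
  simp only [map_neg, map_one, Nat.zero_add, Nat.reduceAdd] at h ⊢
  rw [← e2] at h
  rw [map_pow] at h ⊢
  linear_combination h

theorem vb : vz sb = kap2 * w / f1 := by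
  have h := congrArg vz b_d1
  rw [vz_add, vz_neg, vz_mul, vz_mul, vz_mul, vz_C, vF0, vF1, vK2] at h
  have := f1_pos.ne'
  field_simp
  linarith

theorem vb1 : vz (der sb) = - vz sb / (2 * s0) := by
  have e2 : (2 : PowerSeries ℝ) = C 2 := (map_ofNat (C (R := ℝ)) 2).symm
  have h := congrArg vz b_d2
  rw [e2, vz_add, vz_sub, vz_mul, vz_mul, vz_mul, vz_mul, vz_mul, vz_C, vz_C, vF0, vF1, vF2, vK3, vb,
    s1_eq] at h
  rw [vb]
  have h1 := f1_pos.ne'
  have h2 := s0_pos.ne'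
  have h3 := kap2_pos.ne'
  field_simp at h ⊢
  linarith

theorem vb2 : vz (der (der sb)) = (kap2 * w / f1) * (5 / (6 * s0 ^ 2) + (1 - kap2) / (3 * s0)) := by
  have e3 : (3 : PowerSeries ℝ) = C 3 := (map_ofNat (C (R := ℝ)) 3).symm
  have h := congrArg vz b_d3
  rw [e3, vz_add, vz_sub, vz_add, vz_neg, vz_mul, vz_mul, vz_mul, vz_mul, vz_mul, vz_mul, vz_mul, vz_C,
    vz_C, vF0, vF1, vF2, vF3, vK4, vb1, vb, s1_eq] at h
  have h1 := f1_pos.ne'
  have h2 := s0_pos.ne'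
  have h3 := kap2_pos.ne'
  field_simp at h ⊢
  linarith

/-! ### the identities for `a1`, `a2` -/

theorem vN1 : vz sN1 = 0 := by
  unfold sN1
  rw [vz_sub, vz_sub, vz_mul, vz_mul, vz_mul, vz_C, vz_C, vz_C, vK0, vK1, vK2, s1_eq]
  have h2 := s0_pos.ne'
  field_simp
  ring

theorem F0_mul_div {N : PowerSeries ℝ} [Go N] (h : vz N = 0) : Fs 0 1 * (dd s0 N * sAi) = N := by
  have h1 := sA_spec
  have h2 := dd_eq N
  rw [h, map_zero, sub_zero] at h2
  have h3 := sA_mul_sAi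
  calc Fs 0 1 * (dd s0 N * sAi) = ((C s0 - X) * sA) * (dd s0 N * sAi) := by rw [h1]
    _ = ((C s0 - X) * dd s0 N) * (sA * sAi) := by ring
    _ = N := by rw [h3, h2, mul_one]

theorem F0_mul_a1 : Fs 0 1 * sa1 = sN1 := F0_mul_div vN1

/-- first derivative of a product identity `F0 * a = N` -/
theorem prod_d1 {a N : PowerSeries ℝ} (h : Fs 0 1 * a = N) :
    -(Fs 1 1 * a) + Fs 0 1 * der a = der N := by
  have h' := congrArg der h
  rw [der_mul, der_Fs] at h'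
  simp only [map_neg, map_one, Nat.zero_add] at h' ⊢
  linear_combination h'

theorem prod_d2 {a N : PowerSeries ℝ} (h : Fs 0 1 * a = N) :
    Fs 2 1 * a - 2 * (Fs 1 1 * der a) + Fs 0 1 * der (der a) = der (der N) := by
  have h' := congrArg der (prod_d1 h)
  rw [der_add, der_neg, der_mul, der_mul, der_Fs, der_Fs] at h'
  simp only [map_neg, map_one, Nat.zero_add, Nat.reduceAdd] at h' ⊢
  linear_combination h'

theorem prod_v0 {a N : PowerSeries ℝ} [Go a] [Go N] (h : Fs 0 1 * a = N) :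
    vz a = - vz (der N) / f1 := by
  have h' := congrArg vz (prod_d1 h)
  rw [vz_add, vz_neg, vz_mul, vz_mul, vF0, vF1] at h'
  have := f1_pos.ne'
  field_simp
  linarith

theorem prod_v1 {a N : PowerSeries ℝ} [Go a] [Go N] (h : Fs 0 1 * a = N) :
    vz (der a) = (f1 / s0 * vz a - vz (der (der N))) / (2 * f1) := by
  have e2 : (2 : PowerSeries ℝ) = C 2 := (map_ofNat (C (R := ℝ)) 2).symm
  have h' := congrArg vz (prod_d2 h)
  rw [e2, vz_add, vz_sub, vz_mul, vz_mul, vz_mul, vz_mul, vz_C, vF0, vF1, vF2] at h'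
  have h1 := f1_pos
  rw [eq_div_iff (by positivity)]
  linear_combination -h'

theorem der_N1 : der sN1 = C (-kap2 * (1 / (2 * s0) + kap2 / 2 - 1)) * Fs 2 kap2
    + C (kap2 * (1 / (2 * s0))) * Fs 1 kap2 + C (kap2 * (kap2 / 2)) * Fs 3 kap2 := by
  unfold sN1
  rw [der_sub, der_sub, der_C_mul, der_C_mul, der_C_mul, der_Fs, der_Fs, der_Fs]
  simp only [map_mul, map_neg, Nat.zero_add, Nat.reduceAdd]
  ring

theorem der_der_N1 : der (der sN1) = C (kap2 ^ 2 * (1 / (2 * s0) + kap2 / 2 - 1)) * Fs 3 kap2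
    - C (kap2 ^ 2 * (1 / (2 * s0))) * Fs 2 kap2 - C (kap2 ^ 2 * (kap2 / 2)) * Fs 4 kap2 := by
  rw [der_N1, der_add, der_add, der_C_mul, der_C_mul, der_C_mul, der_Fs, der_Fs, der_Fs]
  simp only [map_mul, map_neg, map_pow, Nat.reduceAdd]
  ring

theorem va1 : vz sa1 = kap2 * w / f1 * (kap2 / 2 - 1 - 1 / (2 * s0)) := by
  rw [prod_v0 F0_mul_a1, der_N1, vz_add, vz_add, vz_mul, vz_mul, vz_mul, vz_C, vz_C, vz_C, vK1, vK2,
    vK3, s1_eq]
  have h1 := f1_pos.ne'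
  have h2 := s0_pos.ne'
  have h3 := kap2_pos.ne'
  field_simp
  ring

theorem vN2 : vz sN2 = 0 := by
  unfold sN2
  rw [vz_sub, vz_mul, vz_mul, vz_C, vK3, vb, vF2, s1_eq]
  have h1 := f1_pos.ne'
  have h2 := s0_pos.ne'
  have h3 := kap2_pos.ne'
  field_simp
  ring

theorem F0_mul_a2 : Fs 0 1 * sa2 = sN2 := F0_mul_div vN2

theorem der_N2 : der sN2 = C (-(kap2 ^ 2 / 2) * kap2) * Fs 4 kap2 - der sb * Fs 2 1 + sb * Fs 3 1 := by
  unfold sN2
  rw [der_sub, der_C_mul, der_mul, der_Fs, der_Fs]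
  simp only [map_mul, map_neg, map_one, Nat.reduceAdd]
  ring

theorem der_der_N2 : der (der sN2) = C (kap2 ^ 2 / 2 * kap2 ^ 2) * Fs 5 kap2
    - der (der sb) * Fs 2 1 + 2 * (der sb * Fs 3 1) - sb * Fs 4 1 := by
  rw [der_N2, der_add, der_sub, der_C_mul, der_mul, der_mul, der_Fs, der_Fs, der_Fs]
  simp only [map_mul, map_neg, map_one, map_pow, Nat.reduceAdd]
  ring

theorem vder_N2 : vz (der sN2) = kap2 * w * (kap2 / (2 * s0) - 1 / s0 - 1 / (2 * s0 ^ 2)) := by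
  rw [der_N2, vz_add, vz_sub, vz_mul, vz_mul, vz_mul, vz_C, vK4, vb1, vb, vF2, vF3, s1_eq]
  have h1 := f1_pos.ne'
  have h2 := s0_pos.ne'
  have h3 := kap2_pos.ne'
  field_simp
  ring

theorem va2 : vz sa2 = - (vz sa1) / s0 := by
  rw [prod_v0 F0_mul_a2, vder_N2, va1]
  have h1 := f1_pos.ne'
  have h2 := s0_pos.ne'
  have h3 := kap2_pos.ne'
  field_simp

theorem va1' : vz (der sa1) = (f1 / s0 * vz sa1 - vz (der (der sN1))) / (2 * f1) := prod_v1 F0_mul_a1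
theorem va2' : vz (der sa2) = (f1 / s0 * vz sa2 - vz (der (der sN2))) / (2 * f1) := prod_v1 F0_mul_a2

theorem vddN1 : vz (der (der sN1)) = kap2 ^ 2 * (1 / (2 * s0) + kap2 / 2 - 1) * (2 * w / s1)
    - kap2 ^ 2 * (1 / (2 * s0)) * w - kap2 ^ 2 * (kap2 / 2) * ((6 / s1 - 1) * w / s1) := by
  rw [der_der_N1, vz_sub, vz_sub, vz_mul, vz_mul, vz_mul, vz_C, vz_C, vz_C, vK3, vK2, vK4]

theorem vddN2 : vz (der (der sN2)) = kap2 ^ 2 / 2 * kap2 ^ 2 * ((24 / s1 ^ 2 - 6 / s1) * w / s1)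
    - vz (der (der sb)) * (f1 / s0) + 2 * (vz (der sb) * ((2 / s0 ^ 2 - 1 / s0) * f1))
    - vz sb * ((6 / s0 ^ 3 - 4 / s0 ^ 2) * f1) := by
  have e2 : (2 : PowerSeries ℝ) = C 2 := (map_ofNat (C (R := ℝ)) 2).symm
  rw [der_der_N2, e2, vz_sub, vz_add, vz_sub, vz_mul, vz_mul, vz_mul, vz_mul, vz_mul, vz_C, vz_C, vK5,
    vF2, vF3, vF4]

/-! ### the identity for `h0` -/

theorem vA : vz sA = f1 := by
  unfold sA
  rw [vz_dd, der_Fs, vz_mul, vz_C, vF1]; ring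

theorem vAi : vz sAi = 1 / f1 := by
  have h := congrArg vz sA_mul_sAi
  rw [vz_mul, vA, vz_one] at h
  have := f1_pos.ne'
  field_simp
  linarith

theorem vz_der_dd (a : PowerSeries ℝ) [Go a] : vz (der (dd s0 a)) = - vz (der (der a)) / 2 := by
  have h := congrArg der (congrArg der (dd_eq a))
  rw [der_mul, der_sub, der_sub, der_C, der_C, der_X, der_add, der_mul, der_mul, der_sub, der_sub,
    der_sub, der_C, der_X, der_one] at h
  have h1 := congrArg vz h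
  have h0 : der (0 : PowerSeries ℝ) = 0 := by
    ext k; rw [coeff_der]; simp
  rw [h0, sub_zero, sub_zero, zero_mul, zero_add, vz_add, vz_mul, vz_add, vz_mul, vz_mul, vz_sub,
    vz_sub, vz_C, vz_X, vz_one] at h1
  have h2 : vz (0 : PowerSeries ℝ) = 0 := ev_zero s0
  rw [h2] at h1
  linarith

theorem vz_dd_dd (a : PowerSeries ℝ) [Go a] : vz (dd s0 (dd s0 a)) = vz (der (der a)) / 2 := by
  rw [vz_dd, vz_der_dd]; ring

theorem der_Xbb : der (X * (sb * sb)) = sb * sb + 2 * (X * (sb * der sb)) := by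
  rw [der_mul, der_X, der_mul]; ring

theorem der_der_Xbb : der (der (X * (sb * sb)))
    = 4 * (sb * der sb) + 2 * (X * (der sb * der sb + sb * der (der sb))) := by
  have e2 : (2 : PowerSeries ℝ) = C 2 := (map_ofNat (C (R := ℝ)) 2).symm
  rw [der_Xbb, e2, der_add, der_mul, der_C_mul, der_mul, der_mul, der_X, ← e2]; ring

theorem vd_Xbb : vz (der (X * (sb * sb))) = 0 := by
  have e2 : (2 : PowerSeries ℝ) = C 2 := (map_ofNat (C (R := ℝ)) 2).symm
  rw [der_Xbb, e2, vz_add, vz_mul, vz_mul, vz_mul, vz_mul, vz_C, vz_X, vb1]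
  have h2 := s0_pos.ne'
  field_simp
  ring

theorem F0_sq_mul_div {N : PowerSeries ℝ} [Go N] (h : vz (der N) = 0) :
    Fs 0 1 * Fs 0 1 * (dd s0 (dd s0 N) * (sAi * sAi)) = N - C (vz N) := by
  have h1 := sA_spec
  have h2 := dd_eq (dd s0 N)
  rw [vz_dd, h, neg_zero, map_zero, sub_zero] at h2
  have h3 := dd_eq N
  have h4 := sA_mul_sAi
  calc Fs 0 1 * Fs 0 1 * (dd s0 (dd s0 N) * (sAi * sAi))
      = ((C s0 - X) * sA) * ((C s0 - X) * sA) * (dd s0 (dd s0 N) * (sAi * sAi)) := by rw [h1]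
    _ = ((C s0 - X) * ((C s0 - X) * dd s0 (dd s0 N))) * ((sA * sAi) * (sA * sAi)) := by ring
    _ = N - C (vz N) := by rw [h4, h2, h3, mul_one, mul_one]

theorem F0_sq_mul_h0 : Fs 0 1 * Fs 0 1 * sh0 = C (s0 * vz sb ^ 2) - X * (sb * sb) := by
  have h := F0_sq_mul_div vd_Xbb
  have h2 : vz (X * (sb * sb)) = s0 * vz sb ^ 2 := by
    rw [vz_mul, vz_mul, vz_X]; ring
  rw [h2] at h
  unfold sh0 sH'
  rw [map_neg, map_one]
  linear_combination -h

theorem vh0 : vz sh0 = -(2 * (vz sb * vz (der sb)) + s0 * (vz (der sb) ^ 2 + vz sb * vz (der (der sb))))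
    / f1 ^ 2 := by
  have e2 : (2 : PowerSeries ℝ) = C 2 := (map_ofNat (C (R := ℝ)) 2).symm
  have e4 : (4 : PowerSeries ℝ) = C 4 := (map_ofNat (C (R := ℝ)) 4).symm
  unfold sh0 sH'
  rw [vz_mul, vz_C, vz_mul, vz_mul, vAi, vz_dd_dd, der_der_Xbb, e2, e4, vz_add, vz_mul, vz_mul, vz_mul,
    vz_mul, vz_C, vz_C, vz_add, vz_mul, vz_mul, vz_X]
  have h1 := f1_pos.ne'
  field_simp
  ring

/-! ### the identity for `h1` -/

theorem vV : vz sV = 0 := by
  unfold sV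
  rw [vz_mul, vz_mul, vz_add, vz_mul, vz_X, va2]
  have h2 := s0_pos.ne'
  field_simp
  ring

theorem vN3 : vz sN3 = 0 := by
  unfold sN3
  rw [vz_sub, vz_mul, vz_mul, vz_mul, vV, vF0]
  ring

theorem der_V : der sV = C (-2) * (der sb * (sa1 + X * sa2) + sb * (der sa1 + sa2 + X * der sa2)) := by
  unfold sV
  rw [der_C_mul, der_mul, der_add, der_mul, der_X]; ring

theorem vderN3 : vz (der sN3) = 0 := by
  unfold sN3
  rw [der_sub, der_V, der_C_mul, der_mul, der_mul, der_Fs, der_Fs]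
  simp only [Nat.zero_add, Nat.reduceAdd, vz_sub, vz_add, vz_mul, vz_C, vz_X, vF0, vF1, vF2, vh0,
    va1', va2', vddN1, vddN2, va2,
    va1, vb1, vb2, vb, s1_eq]
  have h1 := f1_pos.ne'
  have h2 := s0_pos.ne'
  have h3 := kap2_pos.ne'
  field_simp
  ring

theorem F0_sq_mul_h1 : Fs 0 1 * Fs 0 1 * sh1 = sV - 2 * (Fs 0 1 * Fs 2 1 * sh0) := by
  have e2 : (2 : PowerSeries ℝ) = C 2 := (map_ofNat (C (R := ℝ)) 2).symm
  have h := F0_sq_mul_div vderN3
  rw [vN3, map_zero, sub_zero] at h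
  unfold sh1
  rw [h, e2]; rfl

end Pool.Agent.PPW.TM
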