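/-
MP_eb7570_an (helper61): the radial functions as functions of the real variable `s`, `|s| ≤ 2`:
derivatives and the product identities used by `ND/Alg.lean`.
-/
import Pool.Agent.Lib.MP_eb7570_an.Bes.Ident

set_option autoImplicit false
set_option linter.dupNamespace false
set_option linter.unusedSimpArgs false

namespace Pool.Agent.PPW.TM

open PowerSeries
open Pool.Agent.PPW.Bes (F s0 s1 kap2 s0_pos s1_pos kap2_pos)

/-- series with radius larger than `2` -/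
class G2 (a : PowerSeries ℝ) : Prop where
  out : ∃ ρ : ℝ, 2 < ρ ∧ Gd ρ a

theorem G2.of_gd {ρ : ℝ} {a : PowerSeries ℝ} (h : 2 < ρ) (ha : Gd ρ a) : G2 a := ⟨ρ, h, ha⟩

theorem G2.pair {a b : PowerSeries ℝ} (ha : G2 a) (hb : G2 b) :
    ∃ ρ : ℝ, 2 < ρ ∧ 0 ≤ ρ ∧ Gd ρ a ∧ Gd ρ b := by
  obtain ⟨ρ1, h1, g1⟩ := ha.out
  obtain ⟨ρ2, h2, g2⟩ := hb.out
  have hm : 0 ≤ min ρ1 ρ2 := le_min (by linarith) (by linarith)
  exact ⟨min ρ1 ρ2, lt_min h1 h2, hm, g1.radius hm (min_le_left _ _), g2.radius hm (min_le_right _ _)⟩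

instance G2.instAdd {a b : PowerSeries ℝ} [ha : G2 a] [hb : G2 b] : G2 (a + b) := by
  obtain ⟨ρ, h, h0, g1, g2⟩ := G2.pair ha hb
  exact G2.of_gd h (g1.add h0 g2)

instance G2.instSub {a b : PowerSeries ℝ} [ha : G2 a] [hb : G2 b] : G2 (a - b) := by
  obtain ⟨ρ, h, h0, g1, g2⟩ := G2.pair ha hb
  exact G2.of_gd h (g1.sub h0 g2)

instance G2.instMul {a b : PowerSeries ℝ} [ha : G2 a] [hb : G2 b] : G2 (a * b) := by
  obtain ⟨ρ, h, h0, g1, g2⟩ := G2.pair ha hb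
  exact G2.of_gd h (g1.mul h0 g2)

instance G2.instNeg {a : PowerSeries ℝ} [ha : G2 a] : G2 (-a) := by
  obtain ⟨ρ, h, g⟩ := ha.out
  exact G2.of_gd h g.neg

private theorem two_lt : (2:ℝ) < 5 / 2 := by norm_num

instance G2.instC (t : ℝ) : G2 (C t) := G2.of_gd two_lt (Gd.C t)
instance G2.instOne : G2 (1 : PowerSeries ℝ) := G2.of_gd two_lt Gd.one
instance G2.instZero : G2 (0 : PowerSeries ℝ) := G2.of_gd two_lt ⟨0, Bd.zero⟩
instance G2.instX : G2 (X : PowerSeries ℝ) := G2.of_gd two_lt (Gd.X (by norm_num))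
instance G2.instFs (n : ℕ) (lam : ℝ) : G2 (Fs n lam) := G2.of_gd two_lt (Gd.Fs (by norm_num) n lam)

instance G2.instDd {a : PowerSeries ℝ} [ha : G2 a] : G2 (dd s0 a) := by
  obtain ⟨ρ, h, g⟩ := ha.out
  exact G2.of_gd h (g.dd (by rw [abs_s0]; have := s0_lt_two; linarith))

instance G2.instDer {a : PowerSeries ℝ} [ha : G2 a] : G2 (der a) := by
  obtain ⟨ρ, h, g⟩ := ha.out
  obtain ⟨ρ', h1, h2⟩ := exists_between h
  exact G2.of_gd h1 (g.der (by linarith) h2)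

instance G2.instAi : G2 sAi := by
  refine G2.of_gd (ρ := ((5 / 2 : ℚ) : ℝ)) ?_ (tm_Ai.gd (by norm_num))
  push_cast; norm_num

instance G2.instA : G2 sA := by unfold sA; infer_instance
instance G2.instB : G2 sB := by unfold sB; infer_instance
instance G2.instb : G2 sb := by unfold sb; infer_instance
instance G2.instN1 : G2 sN1 := by unfold sN1; infer_instance
instance G2.insta1 : G2 sa1 := by unfold sa1; infer_instance
instance G2.instN2 : G2 sN2 := by unfold sN2; infer_instance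
instance G2.insta2 : G2 sa2 := by unfold sa2; infer_instance
instance G2.instH' : G2 sH' := by unfold sH'; infer_instance
instance G2.insth0 : G2 sh0 := by unfold sh0; infer_instance
instance G2.instV : G2 sV := by unfold sV; infer_instance
instance G2.instN3 : G2 sN3 := by unfold sN3; infer_instance
instance G2.insth1 : G2 sh1 := by unfold sh1; infer_instance

section
variable {s : ℝ}

theorem e2_add (hs : |s| ≤ 2) (a b : PowerSeries ℝ) [ha : G2 a] [hb : G2 b] :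
    ev (a + b) s = ev a s + ev b s := by
  obtain ⟨ρ, h, h0, g1, g2⟩ := G2.pair ha hb
  exact g1.ev_add (hs.trans h.le) g2

theorem e2_sub (hs : |s| ≤ 2) (a b : PowerSeries ℝ) [ha : G2 a] [hb : G2 b] :
    ev (a - b) s = ev a s - ev b s := by
  obtain ⟨ρ, h, h0, g1, g2⟩ := G2.pair ha hb
  exact g1.ev_sub (hs.trans h.le) g2

theorem e2_mul (hs : |s| ≤ 2) (a b : PowerSeries ℝ) [ha : G2 a] [hb : G2 b] :
    ev (a * b) s = ev a s * ev b s := by
  obtain ⟨ρ, h, h0, g1, g2⟩ := G2.pair ha hb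
  exact g1.ev_mul (hs.trans h.le) g2

/-- All these functions are differentiable on a neighbourhood of `[-2, 2]`. -/
theorem e2_hasDerivAt (hs : |s| ≤ 2) (a : PowerSeries ℝ) [ha : G2 a] :
    HasDerivAt (ev a) (ev (der a) s) s := by
  obtain ⟨ρ, h, g⟩ := ha.out
  exact g.hasDerivAt (lt_of_le_of_lt hs h)

end

/-! ### the radial functions -/

noncomputable def fb (s : ℝ) : ℝ := ev sb s
noncomputable def fb1 (s : ℝ) : ℝ := ev (der sb) s
noncomputable def fb2 (s : ℝ) : ℝ := ev (der (der sb)) s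
noncomputable def fA (s : ℝ) : ℝ := ev sa1 s
noncomputable def fA1 (s : ℝ) : ℝ := ev (der sa1) s
noncomputable def fA2 (s : ℝ) : ℝ := ev (der (der sa1)) s
noncomputable def fC (s : ℝ) : ℝ := ev sa2 s
noncomputable def fC1 (s : ℝ) : ℝ := ev (der sa2) s
noncomputable def fC2 (s : ℝ) : ℝ := ev (der (der sa2)) s
noncomputable def fg (s : ℝ) : ℝ := ev sh0 s
noncomputable def fg1 (s : ℝ) : ℝ := ev (der sh0) s
noncomputable def fg2 (s : ℝ) : ℝ := ev (der (der sh0)) s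
noncomputable def fk (s : ℝ) : ℝ := ev sh1 s
noncomputable def fk1 (s : ℝ) : ℝ := ev (der sh1) s
noncomputable def fk2 (s : ℝ) : ℝ := ev (der (der sh1)) s
/-- `K n s = F n (κ² s)` -/
noncomputable def fK (n : ℕ) (s : ℝ) : ℝ := F n (kap2 * s)

theorem ev_F (n : ℕ) (s : ℝ) : ev (Fs n 1) s = F n s := by rw [ev_Fs, one_mul]
theorem ev_K (n : ℕ) (s : ℝ) : ev (Fs n kap2) s = fK n s := ev_Fs n kap2 s

theorem hasDerivAt_fb {s : ℝ} (hs : |s| ≤ 2) : HasDerivAt fb (fb1 s) s := e2_hasDerivAt hs sb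
theorem hasDerivAt_fb1 {s : ℝ} (hs : |s| ≤ 2) : HasDerivAt fb1 (fb2 s) s := e2_hasDerivAt hs (der sb)
theorem hasDerivAt_fA {s : ℝ} (hs : |s| ≤ 2) : HasDerivAt fA (fA1 s) s := e2_hasDerivAt hs sa1
theorem hasDerivAt_fA1 {s : ℝ} (hs : |s| ≤ 2) : HasDerivAt fA1 (fA2 s) s := e2_hasDerivAt hs (der sa1)
theorem hasDerivAt_fC {s : ℝ} (hs : |s| ≤ 2) : HasDerivAt fC (fC1 s) s := e2_hasDerivAt hs sa2
theorem hasDerivAt_fC1 {s : ℝ} (hs : |s| ≤ 2) : HasDerivAt fC1 (fC2 s) s := e2_hasDerivAt hs (der sa2)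
theorem hasDerivAt_fg {s : ℝ} (hs : |s| ≤ 2) : HasDerivAt fg (fg1 s) s := e2_hasDerivAt hs sh0
theorem hasDerivAt_fg1 {s : ℝ} (hs : |s| ≤ 2) : HasDerivAt fg1 (fg2 s) s := e2_hasDerivAt hs (der sh0)
theorem hasDerivAt_fk {s : ℝ} (hs : |s| ≤ 2) : HasDerivAt fk (fk1 s) s := e2_hasDerivAt hs sh1
theorem hasDerivAt_fk1 {s : ℝ} (hs : |s| ≤ 2) : HasDerivAt fk1 (fk2 s) s := e2_hasDerivAt hs (der sh1)

theorem K_rec (n : ℕ) (s : ℝ) : fK n s = (n + 1) * fK (n + 1) s - kap2 * s * fK (n + 2) s :=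
  Pool.Agent.PPW.Bes.F_rec n (kap2 * s)

theorem rel_r0 (s : ℝ) : F 0 s = F 1 s - s * F 2 s := by
  have h := Pool.Agent.PPW.Bes.F_rec 0 s; push_cast at h; linarith
theorem rel_r1 (s : ℝ) : F 1 s = 2 * F 2 s - s * F 3 s := by
  have h := Pool.Agent.PPW.Bes.F_rec 1 s; push_cast at h; linarith
theorem rel_r2 (s : ℝ) : F 2 s = 3 * F 3 s - s * F 4 s := by
  have h := Pool.Agent.PPW.Bes.F_rec 2 s; push_cast at h; linarith
theorem rel_r3 (s : ℝ) : F 3 s = 4 * F 4 s - s * F 5 s := by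
  have h := Pool.Agent.PPW.Bes.F_rec 3 s; push_cast at h; linarith
theorem rel_q0 (s : ℝ) : fK 0 s = fK 1 s - kap2 * s * fK 2 s := by
  have h := K_rec 0 s; push_cast at h; linarith
theorem rel_q1 (s : ℝ) : fK 1 s = 2 * fK 2 s - kap2 * s * fK 3 s := by
  have h := K_rec 1 s; push_cast at h; linarith
theorem rel_q2 (s : ℝ) : fK 2 s = 3 * fK 3 s - kap2 * s * fK 4 s := by
  have h := K_rec 2 s; push_cast at h; linarith
theorem rel_q3 (s : ℝ) : fK 3 s = 4 * fK 4 s - kap2 * s * fK 5 s := by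
  have h := K_rec 3 s; push_cast at h; linarith

section
variable {s : ℝ}

private theorem ev_two (s : ℝ) : ev (2 : PowerSeries ℝ) s = 2 := by
  rw [(map_ofNat (C (R := ℝ)) 2).symm, ev_C]
private theorem ev_three (s : ℝ) : ev (3 : PowerSeries ℝ) s = 3 := by
  rw [(map_ofNat (C (R := ℝ)) 3).symm, ev_C]
private theorem ev_four (s : ℝ) : ev (4 : PowerSeries ℝ) s = 4 := by
  rw [(map_ofNat (C (R := ℝ)) 4).symm, ev_C]
instance G2.instTwo : G2 (2 : PowerSeries ℝ) := by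
  rw [(map_ofNat (C (R := ℝ)) 2).symm]; infer_instance
instance G2.instFour : G2 (4 : PowerSeries ℝ) := by
  rw [(map_ofNat (C (R := ℝ)) 4).symm]; infer_instance

theorem rel_b (hs : |s| ≤ 2) : F 0 s * fb s = fK 1 s := by
  have h := congrArg (fun a => ev a s) F0_mul_b
  simp only [e2_mul hs, ev_F, ev_K] at h
  exact h

theorem rel_b1 (hs : |s| ≤ 2) : F 0 s * fb1 s - F 1 s * fb s = - kap2 * fK 2 s := by
  have h := congrArg (fun a => ev a s) b_d1
  simp only [e2_mul hs, e2_add hs, ev_neg, ev_F, ev_K, ev_C] at h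
  unfold fb1 fb
  linear_combination h

theorem rel_b2 (hs : |s| ≤ 2) :
    F 0 s * fb2 s - 2 * F 1 s * fb1 s + F 2 s * fb s = kap2 ^ 2 * fK 3 s := by
  have h := congrArg (fun a => ev a s) b_d2
  simp only [e2_mul hs, e2_add hs, e2_sub hs, ev_neg, ev_F, ev_K, ev_C, ev_two] at h
  unfold fb2 fb1 fb
  linear_combination h

theorem rel_A (hs : |s| ≤ 2) : F 0 s * fA s = (1 / (2 * s0) + kap2 / 2 - 1) * fK 1 s
    - fK 0 s / (2 * s0) - kap2 / 2 * fK 2 s := by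
  have h := congrArg (fun a => ev a s) F0_mul_a1
  unfold sN1 at h
  simp only [e2_mul hs, e2_add hs, e2_sub hs, ev_neg, ev_F, ev_K, ev_C, ev_two] at h
  unfold fA
  linear_combination h

theorem rel_A1 (hs : |s| ≤ 2) : F 0 s * fA1 s - F 1 s * fA s
    = - kap2 * (1 / (2 * s0) + kap2 / 2 - 1) * fK 2 s + kap2 * fK 1 s / (2 * s0)
      + kap2 ^ 2 / 2 * fK 3 s := by
  have h := congrArg (fun a => ev a s) (prod_d1 F0_mul_a1)
  simp only [der_N1, e2_mul hs, e2_add hs, e2_sub hs, ev_neg, ev_F, ev_K, ev_C, ev_two] at h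
  unfold fA1 fA
  linear_combination h

theorem rel_A2 (hs : |s| ≤ 2) : F 0 s * fA2 s - 2 * F 1 s * fA1 s + F 2 s * fA s
    = kap2 ^ 2 * (1 / (2 * s0) + kap2 / 2 - 1) * fK 3 s
      - kap2 ^ 2 * fK 2 s / (2 * s0) - kap2 ^ 3 / 2 * fK 4 s := by
  have h := congrArg (fun a => ev a s) (prod_d2 F0_mul_a1)
  simp only [der_der_N1, e2_mul hs, e2_add hs, e2_sub hs, ev_neg, ev_F, ev_K, ev_C, ev_two] at h
  unfold fA2 fA1 fA
  linear_combination h

theorem rel_C (hs : |s| ≤ 2) : F 0 s * fC s = kap2 ^ 2 / 2 * fK 3 s - fb s * F 2 s := by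
  have h := congrArg (fun a => ev a s) F0_mul_a2
  unfold sN2 at h
  simp only [e2_mul hs, e2_add hs, e2_sub hs, ev_neg, ev_F, ev_K, ev_C, ev_two] at h
  unfold fC fb
  linear_combination h

theorem rel_C1 (hs : |s| ≤ 2) : F 0 s * fC1 s - F 1 s * fC s
    = - kap2 ^ 3 / 2 * fK 4 s - fb1 s * F 2 s + fb s * F 3 s := by
  have h := congrArg (fun a => ev a s) (prod_d1 F0_mul_a2)
  simp only [der_N2, e2_mul hs, e2_add hs, e2_sub hs, ev_neg, ev_F, ev_K, ev_C, ev_two] at h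
  unfold fC1 fC fb1 fb
  linear_combination h

theorem rel_C2 (hs : |s| ≤ 2) : F 0 s * fC2 s - 2 * F 1 s * fC1 s + F 2 s * fC s
    = kap2 ^ 4 / 2 * fK 5 s - fb2 s * F 2 s + 2 * fb1 s * F 3 s - fb s * F 4 s := by
  have h := congrArg (fun a => ev a s) (prod_d2 F0_mul_a2)
  simp only [der_der_N2, e2_mul hs, e2_add hs, e2_sub hs, ev_neg, ev_F, ev_K, ev_C, ev_two] at h
  unfold fC2 fC1 fC fb2 fb1 fb
  linear_combination h

/-- derivative of `F0 * F0 * a = N` -/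
theorem sq_d1 {a N : PowerSeries ℝ} (h : Fs 0 1 * Fs 0 1 * a = N) :
    Fs 0 1 * Fs 0 1 * der a - 2 * (Fs 0 1 * Fs 1 1 * a) = der N := by
  have h' := congrArg der h
  rw [der_mul, der_mul, der_Fs] at h'
  simp only [map_neg, map_one, Nat.zero_add] at h' ⊢
  linear_combination h'

theorem sq_d2 {a N : PowerSeries ℝ} (h : Fs 0 1 * Fs 0 1 * a = N) :
    Fs 0 1 * Fs 0 1 * der (der a) - 4 * (Fs 0 1 * Fs 1 1 * der a)
      + 2 * ((Fs 1 1 * Fs 1 1 + Fs 0 1 * Fs 2 1) * a) = der (der N) := by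
  have e2 : (2 : PowerSeries ℝ) = C 2 := (map_ofNat (C (R := ℝ)) 2).symm
  have h' := congrArg der (sq_d1 h)
  rw [e2, der_sub, der_mul, der_mul, der_C_mul, der_mul, der_mul, der_Fs, der_Fs, ← e2] at h'
  simp only [map_neg, map_one, Nat.zero_add, Nat.reduceAdd] at h' ⊢
  linear_combination h'

theorem rel_g0 (hs : |s| ≤ 2) : F 0 s ^ 2 * fg s = s0 * vz sb ^ 2 - s * fb s ^ 2 := by
  have h := congrArg (fun a => ev a s) F0_sq_mul_h0
  simp only [e2_mul hs, e2_add hs, e2_sub hs, ev_neg, ev_F, ev_K, ev_C, ev_two, ev_X] at h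
  unfold fg fb
  linear_combination h

theorem rel_g1 (hs : |s| ≤ 2) : F 0 s ^ 2 * fg1 s - 2 * F 0 s * F 1 s * fg s
    = - (fb s ^ 2 + 2 * s * fb s * fb1 s) := by
  have h := congrArg (fun a => ev a s) (sq_d1 F0_sq_mul_h0)
  simp only [der_sub, der_C, der_Xbb, e2_mul hs, e2_add hs, e2_sub hs, ev_neg, ev_F, ev_K, ev_C, ev_two, ev_X,
    ev_zero] at h
  unfold fg1 fg fb1 fb
  linear_combination h

theorem rel_g2 (hs : |s| ≤ 2) : F 0 s ^ 2 * fg2 s - 4 * F 0 s * F 1 s * fg1 s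
      + 2 * (F 1 s ^ 2 + F 0 s * F 2 s) * fg s
    = - (4 * fb s * fb1 s + 2 * s * fb1 s ^ 2 + 2 * s * fb s * fb2 s) := by
  have h0 : der (0 : PowerSeries ℝ) = 0 := by
    ext k; rw [coeff_der]; simp
  have h := congrArg (fun a => ev a s) (sq_d2 F0_sq_mul_h0)
  simp only [der_sub, der_C, h0, der_der_Xbb, e2_mul hs, e2_add hs, e2_sub hs, ev_neg, ev_F, ev_K, ev_C,
    ev_two, ev_four, ev_X, ev_zero] at h
  unfold fg2 fg1 fg fb2 fb1 fb
  linear_combination h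

theorem F0_sq_mul_h1' : Fs 0 1 * Fs 0 1 * sh1 = sV - C 2 * (Fs 0 1 * Fs 2 1 * sh0) := by
  rw [F0_sq_mul_h1, (map_ofNat (C (R := ℝ)) 2).symm]

theorem der_FFh : der (Fs 0 1 * Fs 2 1 * sh0)
    = Fs 0 1 * Fs 2 1 * der sh0 - (Fs 1 1 * Fs 2 1 + Fs 0 1 * Fs 3 1) * sh0 := by
  rw [der_mul, der_mul, der_Fs, der_Fs]
  simp only [map_neg, map_one, Nat.zero_add, Nat.reduceAdd]
  ring

theorem der_der_FFh : der (der (Fs 0 1 * Fs 2 1 * sh0))
    = Fs 0 1 * Fs 2 1 * der (der sh0) - C 2 * ((Fs 1 1 * Fs 2 1 + Fs 0 1 * Fs 3 1) * der sh0)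
      + (Fs 2 1 * Fs 2 1 + C 2 * (Fs 1 1 * Fs 3 1) + Fs 0 1 * Fs 4 1) * sh0 := by
  have e2 : (2 : PowerSeries ℝ) = C 2 := (map_ofNat (C (R := ℝ)) 2).symm
  rw [der_FFh, der_sub, der_mul, der_mul, der_mul, der_add, der_mul, der_mul, der_Fs, der_Fs, der_Fs,
    der_Fs, ← e2]
  simp only [map_neg, map_one, Nat.zero_add, Nat.reduceAdd]
  ring

theorem rel_k0 (hs : |s| ≤ 2) : F 0 s ^ 2 * fk s + 2 * F 0 s * F 2 s * fg s
    = - 2 * fb s * (fA s + s * fC s) := by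
  have h := congrArg (fun a => ev a s) F0_sq_mul_h1'
  unfold sV at h
  simp only [e2_mul hs, e2_add hs, e2_sub hs, ev_neg, ev_F, ev_K, ev_C, ev_two, ev_X] at h
  unfold fk fg fb fA fC
  linear_combination h

theorem rel_k1 (hs : |s| ≤ 2) : F 0 s ^ 2 * fk1 s - 2 * F 0 s * F 1 s * fk s
      + 2 * F 0 s * F 2 s * fg1 s - 2 * (F 1 s * F 2 s + F 0 s * F 3 s) * fg s
    = - 2 * fb1 s * (fA s + s * fC s) - 2 * fb s * (fA1 s + fC s + s * fC1 s) := by
  have h := congrArg (fun a => ev a s) (sq_d1 F0_sq_mul_h1')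
  rw [der_sub, der_V, der_C_mul, der_FFh] at h
  simp only [e2_mul hs, e2_add hs, e2_sub hs, ev_neg, ev_F, ev_K,
    ev_C, ev_two, ev_X, Nat.zero_add, Nat.reduceAdd] at h
  unfold fk1 fk fg1 fg fb1 fb fA1 fA fC1 fC
  linear_combination h

theorem der_der_V : der (der sV) = C (-2) * (der (der sb) * (sa1 + X * sa2)
    + 2 * (der sb * (der sa1 + sa2 + X * der sa2))
    + sb * (der (der sa1) + 2 * der sa2 + X * der (der sa2))) := by
  rw [der_V, der_C_mul, der_add, der_mul, der_mul, der_add, der_add, der_add, der_mul, der_mul, der_X]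
  ring

theorem rel_k2 (hs : |s| ≤ 2) : F 0 s ^ 2 * fk2 s - 4 * F 0 s * F 1 s * fk1 s
      + 2 * (F 1 s ^ 2 + F 0 s * F 2 s) * fk s + 2 * F 0 s * F 2 s * fg2 s
      - 4 * (F 1 s * F 2 s + F 0 s * F 3 s) * fg1 s
      + 2 * (F 2 s ^ 2 + 2 * F 1 s * F 3 s + F 0 s * F 4 s) * fg s
    = - 2 * fb2 s * (fA s + s * fC s) - 4 * fb1 s * (fA1 s + fC s + s * fC1 s)
      - 2 * fb s * (fA2 s + 2 * fC1 s + s * fC2 s) := by
  have h := congrArg (fun a => ev a s) (sq_d2 F0_sq_mul_h1')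
  rw [der_sub, der_sub, der_der_V, der_C_mul, der_C_mul, der_der_FFh] at h
  simp only [e2_mul hs, e2_add hs, e2_sub hs, ev_neg,
    ev_F, ev_K, ev_C, ev_two, ev_four, ev_X, Nat.zero_add, Nat.reduceAdd] at h
  unfold fk2 fk1 fk fg2 fg1 fg fb2 fb1 fb fA2 fA1 fA fC2 fC1 fC
  linear_combination h

end

end Pool.Agent.PPW.TM
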