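/-
MP_eb7570_an (helper61): Taylor models at radius 2 of the 18 functions `D_ij` of ND/Expand.lean
(generated by a script, checked by the kernel).
-/
import Pool.Agent.Lib.MP_eb7570_an.Bes.Rel
import Pool.Agent.Lib.MP_eb7570_an.ND.Expand

set_option autoImplicit false
set_option linter.dupNamespace false

namespace Pool.Agent.PPW.TM

open PowerSeries
open Pool.Agent.PPW.Bes (F s0 s1 kap2 s0_pos s1_pos kap2_pos s0_gt s0_lt)

theorem h2 : (0:ℚ) ≤ 2 := by norm_num

theorem TM.pmul {ρ : ℚ} {a : PowerSeries ℝ} {p : List ℚ} {ε : ℚ} (hρ : 0 ≤ ρ) (c : List ℚ)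
    (h : TM ρ a p ε) : TM ρ (P c * a) (mulL c p) (nrm ρ c * ε) := by
  have h1 := Bd.mul (by exact_mod_cast hρ) (Bd_P hρ c) h
  unfold TM
  rw [P_mulL, ← mul_sub]
  push_cast
  exact h1

theorem mu_app : |(kap2 - 1) - (((307746793417751 / 200000000000000) : ℚ) : ℝ)| ≤ ((1 / 100000000000000 : ℚ) : ℝ) := by
  have h1 := kap2_gt'; have h2 := kap2_lt'
  rw [abs_le]; push_cast; constructor <;> norm_num at * <;> linarith

theorem al_app : |(-(2 * kap2 / s0)) - (((-3511882873356761 / 1000000000000000) : ℚ) : ℝ)| ≤ ((1 / 100000000000000 : ℚ) : ℝ) := by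
  have h1 := kap2_gt'; have h2 := kap2_lt'; have h3 := s0_gt; have h4 := s0_lt; have h5 := s0_pos
  have h6 : (35118828733567611 / 10000000000000000 : ℝ) ≤ 2 * kap2 / s0 := by
    rw [le_div_iff₀ h5]; norm_num at *; linarith
  have h7 : 2 * kap2 / s0 ≤ (35118828733567613 / 10000000000000000 : ℝ) := by
    rw [div_le_iff₀ h5]; norm_num at *; linarith
  generalize 2 * kap2 / s0 = t at *
  rw [abs_le]; push_cast; constructor <;> norm_num at * <;> linarith

def l_u_b : List ℚ := L 1000000000000000000 [1000000000000000000, -269366983544377613, 17730529426473129, -778921894487363, -6394649809142, -2650809669671, -325837343743, -42995919254, -5643957419, -740957861, -97269707, -12768889, -1676197, -220037, -28885, -3792, -498, -65]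
theorem tm_u_b : TM 2 sb l_u_b (1987 / 500000000000000) := TM.round tm_b_2 h2 (by decide +kernel)

def l_u_A : List ℚ := L 1000000000000000000 [-365316508227811193, 268840808544460092, -37086204063860286, 1684364945264828, -60863266261755, -1085483699084, -247200256774, -31242158965, -4105506280, -538647606, -70696510, -9279739, -1218127, -159903, -20991, -2755, -362, -47]
theorem tm_u_A : TM 2 sa1 l_u_A (743 / 250000000000000) := TM.round tm_a1_2 h2 (by decide +kernel)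

def l_u_C : List ℚ := L 1000000000000000000 [37097512970850742, -2439253544791802, 235394440371300, 14976555878268, 2669064667125, 388741257187, 56733340426, 8188916538, 1172286658, 166659029, 23553882, 3311993, 463654, 64656, 8985, 1245, 172, 24]
theorem tm_u_C : TM 2 sa2 l_u_C (17 / 3906250000000) := TM.round tm_a2_2 h2 (by decide +kernel)

def l_u_g : List ℚ := L 1000000000000000000 [601879888349171190, 203759776698342380, 43433687961683202, 7585795948649126, 1185692823567723, 171729496611822, 23330182057801, 2969420021536, 348694335855, 36176932804, 2883816301, 47161788, -49603466, -15570993, -3477046, -678648, -123008, -21260]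
theorem tm_u_g : TM 2 sh0 l_u_g (73 / 50000000000) := TM.round tm_h0_2 h2 (by decide +kernel)

def l_u_k : List ℚ := L 1000000000000000000 [128753128106451190, 47567942562252644, 10902068099311710, 2032197715849976, 339993058147593, 53465095035679, 8102954335882, 1201956871845, 176370869156, 25804901633, 3787410630, 560091523, 83686292, 12648385, 1933249, 298417, 46425, 7262]
theorem tm_u_k : TM 2 sh1 l_u_k (139 / 12500000000) := TM.round tm_h1_2 h2 (by decide +kernel)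

def l_u_b1 : List ℚ := L 1000000000000000000 [-269366983544377613, 35461058852946258, -2336765683462088, -25578599236567, -13254048348357, -1955024062456, -300971434777, -45151659352, -6668620753, -972697074, -140457781, -20114365, -2860480, -404384, -56876, -7964, -1111, -154]
theorem tm_u_b1 : TM 2 (der sb) l_u_b1 (4757 / 500000000000000) := TM.round tm_b' h2 (by decide +kernel)

def l_u_A1 : List ℚ := L 1000000000000000000 [268840808544460092, -74172408127720572, 5053094835794484, -243453065047019, -5427418495418, -1483201540642, -218695112754, -32844050239, -4847828453, -706965096, -102077133, -14617519, -2078739, -293868, -41332, -5787, -807, -112]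
theorem tm_u_A1 : TM 2 (der sa1) l_u_A1 (1397 / 200000000000000) := TM.round tm_a1' h2 (by decide +kernel)

def l_u_C1 : List ℚ := L 1000000000000000000 [-2439253544791802, 470788880742600, 44929667634804, 10676258668502, 1943706285933, 340400042558, 57322415766, 9378293266, 1499931261, 235538825, 36431918, 5563852, 840531, 125793, 18673, 2752, 403, 59]
theorem tm_u_C1 : TM 2 (der sa2) l_u_C1 (1179 / 125000000000000) := TM.round tm_a2' h2 (by decide +kernel)

def l_u_g1 : List ℚ := L 1000000000000000000 [203759776698342380, 86867375923366404, 22757387845947378, 4742771294270892, 858647483059111, 139981092346804, 20785940150751, 2789554686840, 325592395238, 28838163010, 518779673, -595241593, -202422910, -48678648, -10179726, -1968134, -361423, -63961]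
theorem tm_u_g1 : TM 2 (der sh0) l_u_g1 (4661 / 1000000000000) := TM.round tm_h0' h2 (by decide +kernel)

def l_u_g2 : List ℚ := L 1000000000000000000 [86867375923366404, 45514775691894755, 14228313882812675, 3434589932236444, 699905461734021, 124715640904505, 19526882807877, 2604739161907, 259543467094, 5187796733, -6547657521, -2429074915, -632822424, -142516164, -29522010, -5782774, -1087331, -198075]
theorem tm_u_g2 : TM 2 (der (der sh0)) l_u_g2 (1541 / 100000000000) := TM.round tm_h0dd h2 (by decide +kernel)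

def l_u_k1 : List ℚ := L 1000000000000000000 [47567942562252644, 21804136198623421, 6096593147549928, 1359972232590372, 267325475178396, 48617726015293, 8413698102916, 1410966953252, 232244114700, 37874106297, 6161006757, 1004235503, 164429004, 27065491, 4476249, 742806, 123461, 20516]
theorem tm_u_k1 : TM 2 (der sh1) l_u_k1 (4403 / 100000000000) := TM.round tm_h1' h2 (by decide +kernel)

def l_u_k2 : List ℚ := L 1000000000000000000 [21804136198623421, 12193186295099857, 4079916697771117, 1069301900713586, 243088630076465, 50482188617498, 9876768672762, 1857952917598, 340866956671, 61610067574, 11046590538, 1973148043, 351851383, 62667488, 11142093, 1975378, 348768, 61250]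
theorem tm_u_k2 : TM 2 (der (der sh1)) l_u_k2 (1751 / 10000000000) := TM.round tm_h1dd h2 (by decide +kernel)

def l_u_F0 : List ℚ := L 1000000000000000000 [1000000000000000000, -1000000000000000000, 250000000000000000, -27777777777777778, 1736111111111111, -69444444444444, 1929012345679, -39367598891, 615118733, -7594058, 75941, -628, 4, 0, 0, 0, 0, 0, 0, 0]
theorem tm_u_F0 : TM 2 (Fs 0 1) l_u_F0 (3283 / 1000000000000000000) := TM.radius tm_F0 (by decide +kernel)

def l_u_F1 : List ℚ := L 1000000000000000000 [1000000000000000000, -500000000000000000, 83333333333333333, -6944444444444444, 347222222222222, -11574074074074, 275573192240, -4920949861, 68346526, -759406, 6904, -52, 0, 0, 0, 0, 0, 0, 0, 0]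
theorem tm_u_F1 : TM 2 (Fs 1 1) l_u_F1 (503 / 200000000000000000) := TM.radius tm_F1 (by decide +kernel)

def l_u_F2 : List ℚ := L 1000000000000000000 [500000000000000000, -166666666666666667, 20833333333333333, -1388888888888889, 57870370370370, -1653439153439, 34446649030, -546772207, 6834653, -69037, 575, -4, 0, 0, 0, 0, 0, 0, 0, 0]
theorem tm_u_F2 : TM 2 (Fs 2 1) l_u_F2 (1647 / 2500000000000000000) := TM.radius tm_F2 (by decide +kernel)

def l_u_F3 : List ℚ := L 1000000000000000000 [166666666666666667, -41666666666666667, 4166666666666667, -231481481481481, 8267195767196, -206679894180, 3827405448, -54677221, 621332, -5753, 44, 0, 0, 0, 0, 0, 0, 0, 0, 0]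
theorem tm_u_F3 : TM 2 (Fs 3 1) l_u_F3 (9759 / 10000000000000000000) := TM.radius tm_F3 (by decide +kernel)

def l_u_F4 : List ℚ := L 1000000000000000000 [41666666666666667, -8333333333333333, 694444444444444, -33068783068783, 1033399470899, -22964432687, 382740545, -4970656, 51778, -443, 3, 0, 0, 0, 0, 0, 0, 0, 0, 0]
theorem tm_u_F4 : TM 2 (Fs 4 1) l_u_F4 (6129 / 10000000000000000000) := TM.radius tm_F4 (by decide +kernel)

def l_u_F5 : List ℚ := L 1000000000000000000 [8333333333333333, -1388888888888889, 99206349206349, -4133597883598, 114822163433, -2296443269, 34794595, -414221, 3983, -32, 0, 0, 0, 0, 0, 0, 0, 0, 0, 0]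
theorem tm_u_F5 : TM 2 (Fs 5 1) l_u_F5 (5099 / 10000000000000000000) := TM.radius tm_F5 (by decide +kernel)

def l_p_F0F0 : List ℚ := L 1000000000000000000 [1000000000000000000, -2000000000000000000, 1500000000000000000, -555555555555555556, 121527777777777778, -17499999999999999, 1782407407407406, -135109599395313, 7916578089569, -369223120775, 14030478590, -442734863, 11785766, -268224, 5278, -91, 1, 0, 0, 0]
theorem tm_p_F0F0 : TM 2 ((Fs 0 1) * (Fs 0 1)) l_p_F0F0 (7477 / 100000000000000000) := TM.mul tm_u_F0 tm_u_F0 (by decide +kernel)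

def l_p_F0F1 : List ℚ := L 1000000000000000000 [1000000000000000000, -1500000000000000000, 833333333333333333, -243055555555555555, 43749999999999999, -5347222222222221, 472883597883598, -31666312358276, 1661504043490, -70152392947, 2435041739, -70714597, 1743456, -36949, 680, -11, 0, 0, 0, 0]
theorem tm_p_F0F1 : TM 2 ((Fs 0 1) * (Fs 1 1)) l_p_F0F1 (3837 / 100000000000000000) := TM.mul tm_u_F0 tm_u_F1 (by decide +kernel)

def l_p_F1F1 : List ℚ := L 1000000000000000000 [1000000000000000000, -1000000000000000000, 416666666666666666, -97222222222222221, 14583333333333332, -1527777777777777, 118220899470900, -7036958301839, 332300808698, -12754980536, 405840291, -10879168, 249064, -4926, 85, -1, 0, 0, 0, 0]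
theorem tm_p_F1F1 : TM 2 ((Fs 1 1) * (Fs 1 1)) l_p_F1F1 (541 / 20000000000000000) := TM.mul tm_u_F1 tm_u_F1 (by decide +kernel)

def l_p_F0F4 : List ℚ := L 1000000000000000000 [41666666666666667, -50000000000000000, 19444444444444444, -3968253968253968, 511532738095237, -45974794238683, 3064986282579, -158186170091, 6522433229, -220130335, 6199589, -148016, 3035, -54, 1, 0, 0, 0, 0, 0]
theorem tm_p_F0F4 : TM 2 ((Fs 0 1) * (Fs 4 1)) l_p_F0F4 (1129 / 125000000000000000) := TM.mul tm_u_F0 tm_u_F4 (by decide +kernel)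

def l_p_F1F4 : List ℚ := L 1000000000000000000 [41666666666666667, -29166666666666666, 8333333333333333, -1364087301587301, 147776124338624, -11493698559671, 676685283167, -31307679497, 1170693144, -36164270, 939332, -20815, 398, -7, 0, 0, 0, 0, 0, 0]
theorem tm_p_F1F4 : TM 2 ((Fs 1 1) * (Fs 4 1)) l_p_F1F4 (4209 / 500000000000000000) := TM.mul tm_u_F1 tm_u_F4 (by decide +kernel)

def l_p_F1F5 : List ℚ := L 1000000000000000000 [8333333333333333, -5555555555555555, 1488095238095238, -227347883597884, 22987397119341, -1671810699589, 92275265887, -4013805063, 141512358, -4133060, 101761, -2143, 39, -1, 0, 0, 0, 0, 0, 0]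
theorem tm_p_F1F5 : TM 2 ((Fs 1 1) * (Fs 5 1)) l_p_F1F5 (287 / 50000000000000000) := TM.mul tm_u_F1 tm_u_F5 (by decide +kernel)

def l_p_F2F2 : List ℚ := L 1000000000000000000 [250000000000000000, -166666666666666667, 48611111111111111, -8333333333333333, 954861111111111, -78813932980599, 4925870811287, -241673315417, 9566235402, -312184839, 8547918, -199252, 4003, -70, 1, 0, 0, 0, 0, 0]
theorem tm_p_F2F2 : TM 2 ((Fs 2 1) * (Fs 2 1)) l_p_F2F2 (2293 / 500000000000000000) := TM.mul tm_u_F2 tm_u_F2 (by decide +kernel)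

def l_q_D20_g : List ℚ := L 1000000000000000000 [0, -3000000000000000000, 4333333333333333356, -2583333333333333292, 788888888888888852, -144394841269841236, 17587632275132252, -1530303865373300, 100024320427788, -5097659182696, 208450276324, -6995799248, 196269112, -4673548, 95656, -1716, 32, 0, 0, 0]
noncomputable def sq_D20_g : PowerSeries ℝ := ((P [0, 0, 8] * ((Fs 0 1) * (Fs 4 1))) + ((P [0, 0, 48] * ((Fs 1 1) * (Fs 4 1))) + ((P [0, 0, 0, (-24)] * ((Fs 1 1) * (Fs 5 1))) + (P [0, (-12)] * ((Fs 2 1) * (Fs 2 1))))))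
theorem tm_q_D20_g : TM 2 sq_D20_g l_q_D20_g (1559 / 500000000000000) :=
  TM.round ((TM.add' h2 (TM.pmul h2 [0, 0, 8] tm_p_F0F4) (TM.add' h2 (TM.pmul h2 [0, 0, 48] tm_p_F1F4) (TM.add' h2 (TM.pmul h2 [0, 0, 0, (-24)] tm_p_F1F5) (TM.pmul h2 [0, (-12)] tm_p_F2F2))))) h2 (by decide +kernel)

def l_p_F0F5 : List ℚ := L 1000000000000000000 [8333333333333333, -9722222222222222, 3571428571428571, -682043650793651, 82097846854791, -6896219135803, 430617907470, -20871786331, 810479868, -25831621, 688843, -15611, 305, -5, 0, 0, 0, 0, 0, 0]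
theorem tm_p_F0F5 : TM 2 ((Fs 0 1) * (Fs 5 1)) l_p_F0F5 (1509 / 200000000000000000) := TM.mul tm_u_F0 tm_u_F5 (by decide +kernel)

def l_q_D20_g1 : List ℚ := L 1000000000000000000 [0, 0, -1166666666666666676, 2000000000000000000, -1011111111111111088, 253968253968253952, -38876488095238060, 4045781893004104, -306498628257900, 17716851050192, -808781720348, 29937725524, -917539184, 23682548, -522092, 9948, -172, 0, 0, 0]
noncomputable def sq_D20_g1 : PowerSeries ℝ := ((P [0, 0, (-28)] * ((Fs 0 1) * (Fs 4 1))) + ((P [0, 0, 0, 12] * ((Fs 0 1) * (Fs 5 1))) + (P [0, 0, 0, 12] * ((Fs 1 1) * (Fs 4 1)))))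
theorem tm_q_D20_g1 : TM 2 sq_D20_g1 l_q_D20_g1 (509 / 200000000000000) :=
  TM.round ((TM.add' h2 (TM.pmul h2 [0, 0, (-28)] tm_p_F0F4) (TM.add' h2 (TM.pmul h2 [0, 0, 0, 12] tm_p_F0F5) (TM.pmul h2 [0, 0, 0, 12] tm_p_F1F4)))) h2 (by decide +kernel)

def l_q_D20_g2 : List ℚ := L 1000000000000000000 [0, 0, 0, -166666666666666668, 200000000000000000, -77777777777777776, 15873015873015872, -2046130952380948, 183899176954732, -12259945130316, 632744680364, -26089732916, 880521340, -24798356, 592064, -12140, 216, -4, 0, 0]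
noncomputable def sq_D20_g2 : PowerSeries ℝ := (P [0, 0, 0, (-4)] * ((Fs 0 1) * (Fs 4 1)))
theorem tm_q_D20_g2 : TM 2 sq_D20_g2 l_q_D20_g2 (2891 / 10000000000000000) :=
  TM.round ((TM.pmul h2 [0, 0, 0, (-4)] tm_p_F0F4)) h2 (by decide +kernel)

def l_p_F0F2 : List ℚ := L 1000000000000000000 [500000000000000000, -666666666666666667, 312500000000000000, -77777777777777778, 12152777777777777, -1309523809523809, 103443287037037, -6255074046079, 299070727829, -11595436851, 372020266, -10042309, 231275, -4598, 80, -1, 0, 0, 0, 0]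
theorem tm_p_F0F2 : TM 2 ((Fs 0 1) * (Fs 2 1)) l_p_F0F2 (2199 / 100000000000000000) := TM.mul tm_u_F0 tm_u_F2 (by decide +kernel)

def l_q_D20_k : List ℚ := L 1000000000000000000 [0, -6000000000000000000, 8000000000000000004, -3750000000000000000, 933333333333333336, -145833333333333324, 15714285714285708, -1241319444444444, 75060888552948, -3588848733948, 139145242212, -4464243192, 120507708, -2775300, 55176, -960, 12, 0, 0, 0]
noncomputable def sq_D20_k : PowerSeries ℝ := (P [0, (-12)] * ((Fs 0 1) * (Fs 2 1)))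
theorem tm_q_D20_k : TM 2 sq_D20_k l_q_D20_k (2639 / 5000000000000000) :=
  TM.round ((TM.pmul h2 [0, (-12)] tm_p_F0F2)) h2 (by decide +kernel)

def l_p_AA : List ℚ := L 1000000000000000000 [133456151183760443, -196423970893207338, 99371785482906049, -21171222813517033, 2325507311224338, -156865373351767, 6948428332618, -234607445309, 4584358016, -197214092, -7429714, -770018, -41686, 1936, 1231, 289, 55, 9, -3, 3]
theorem tm_p_AA : TM 2 (sa1 * sa1) l_p_AA (3289 / 500000000000000) := TM.mul tm_u_A tm_u_A (by decide +kernel)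

def l_p_AA1 : List ℚ := L 1000000000000000000 [-98211985446603669, 99371785482906049, -31756834220275549, 4651014622448676, -392163433379419, 20845284997855, -821126058580, 18337432063, -887463414, -37148571, -4235099, -250122, 12584, 8616, 2173, 439, 80, 14, -2, 4]
theorem tm_p_AA1 : TM 2 (sa1 * (der sa1)) l_p_AA1 (1843 / 200000000000000) := TM.mul tm_u_A tm_u_A1 (by decide +kernel)

def l_p_AC : List ℚ := L 1000000000000000000 [-13552333902447128, 10864424969737761, -2117570306538126, 210760853707815, -12045099217066, 524798633054, -10825222382, 616370855, 11026288, -1442825, -760234, -183434, -36419, -6577, -1122, -184, -29, -5, 1, -1]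
theorem tm_p_AC : TM 2 (sa1 * sa2) l_p_AC (5029 / 1000000000000000) := TM.mul tm_u_A tm_u_C (by decide +kernel)

def l_p_Ab : List ℚ := L 1000000000000000000 [-365316508227811193, 367245014404750398, -115980296814222659, 16725406758668805, -1379203523993444, 73310251005660, -2702392221171, 79153247039, -716272836, 173212631, 23456124, 3724005, 566269, 84577, 12446, 1811, 260, 38, 8, 2]
theorem tm_p_Ab : TM 2 (sa1 * sb) l_p_Ab (147 / 15625000000000) := TM.mul tm_u_A tm_u_b (by decide +kernel)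

def l_p_A1A1 : List ℚ := L 1000000000000000000 [72275380338839046, -39881140345492164, 8218502330078799, -880500662636987, 58730544467522, -2452743654892, 106855792280, 2435771518, 807118860, 129683786, 21562291, 3504011, 561227, 88758, 13884, 2151, 330, 50, 16, 0]
theorem tm_p_A1A1 : TM 2 ((der sa1) * (der sa1)) l_p_A1A1 (1621 / 250000000000000) := TM.mul tm_u_A1 tm_u_A1 (by decide +kernel)

def l_p_CC : List ℚ := L 1000000000000000000 [1376225468622439, -180980480034215, 23415054465660, -37187494295, 180378630745, 22872412740, 3793717879, 593764725, 92505494, 14276004, 2185686, 332223, 50167, 7530, 1124, 167, 25, 4, 0, 0]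
theorem tm_p_CC : TM 2 (sa2 * sa2) l_p_CC (5661 / 10000000000000000) := TM.mul tm_u_C tm_u_C (by decide +kernel)

def l_D20 : List ℚ := L 1000000000 [7087698, 17058414, -121950250, 382916605, -484424086, 339090906, -123824623, 26825700, -3845670, 389649, -29599, 1713, -83]
noncomputable def serD20 : PowerSeries ℝ := (((P [(137 / 500), (11 / 250), (2 / 125), (31 / 125)] * ((Fs 0 1) * (Fs 0 1))) + ((P [0, (-153 / 250), (-36 / 125), (-9 / 125)] * ((Fs 0 1) * (Fs 1 1))) + (P [0, (-129 / 250), (153 / 250), (18 / 125), (3 / 125)] * ((Fs 1 1) * (Fs 1 1))))) + ((sh0 * sq_D20_g) + (((der sh0) * sq_D20_g1) + (((der (der sh0)) * sq_D20_g2) + ((sh1 * sq_D20_k) + ((C (kap2 - 1) * (P [0, 4] * (sa1 * sa1))) + ((P [(-2)] * (sa1 * sa1)) + ((P [0, (-4)] * (sa1 * (der sa1))) + ((P [0, (-4)] * (sa1 * sa2)) + ((C (-(2 * kap2 / s0)) * (P [0, 2] * (sa1 * sb))) + ((P [0, 0, (-4)] * ((der sa1) * (der sa1))) + (P [0, 0, (-4)] * (sa2 * sa2)))))))))))))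
theorem tm_D20 : TM 2 serD20 l_D20 (7 / 250000) :=
  TM.round ((TM.add' h2 (TM.add' h2 (TM.pmul h2 [(137 / 500), (11 / 250), (2 / 125), (31 / 125)] tm_p_F0F0) (TM.add' h2 (TM.pmul h2 [0, (-153 / 250), (-36 / 125), (-9 / 125)] tm_p_F0F1) (TM.pmul h2 [0, (-129 / 250), (153 / 250), (18 / 125), (3 / 125)] tm_p_F1F1))) (TM.add' h2 (TM.mul' h2 tm_u_g tm_q_D20_g) (TM.add' h2 (TM.mul' h2 tm_u_g1 tm_q_D20_g1) (TM.add' h2 (TM.mul' h2 tm_u_g2 tm_q_D20_g2) (TM.add' h2 (TM.mul' h2 tm_u_k tm_q_D20_k) (TM.add' h2 (TM.cmul' h2 mu_app (TM.pmul h2 [0, 4] tm_p_AA)) (TM.add' h2 (TM.pmul h2 [(-2)] tm_p_AA) (TM.add' h2 (TM.pmul h2 [0, (-4)] tm_p_AA1) (TM.add' h2 (TM.pmul h2 [0, (-4)] tm_p_AC) (TM.add' h2 (TM.cmul' h2 al_app (TM.pmul h2 [0, 2] tm_p_Ab)) (TM.add' h2 (TM.pmul h2 [0, 0, (-4)] tm_p_A1A1) (TM.pmul h2 [0, 0, (-4)] tm_p_CC))))))))))))) h2 (by decide +kernel)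

def l_p_F2F3 : List ℚ := L 1000000000000000000 [83333333333333334, -48611111111111111, 12500000000000000, -1909722222222222, 197034832451499, -14777612433862, 845856603959, -38264941608, 1404831772, -42739591, 1095887, -24017, 455, -8, 0, 0, 0, 0, 0, 0]
theorem tm_p_F2F3 : TM 2 ((Fs 2 1) * (Fs 3 1)) l_p_F2F3 (8289 / 1000000000000000000) := TM.mul tm_u_F2 tm_u_F3 (by decide +kernel)

def l_p_F3F3 : List ℚ := L 1000000000000000000 [27777777777777778, -13888888888888889, 3125000000000000, -424382716049383, 39406966490300, -2686838624339, 140976100660, -5886914094, 200690253, -5698612, 136986, -2825, 51, -1, 0, 0, 0, 0, 0, 0]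
theorem tm_p_F3F3 : TM 2 ((Fs 3 1) * (Fs 3 1)) l_p_F3F3 (11 / 2000000000000000) := TM.mul tm_u_F3 tm_u_F3 (by decide +kernel)

def l_q_D22_g : List ℚ := L 1000000000000000000 [-1666666666666666688, 1833333333333333252, -716666666666666600, 149206349206349148, -19642857142857112, 1799584803057028, -122002376053336, 6388963647564, -266784243248, 9103675888, -258879872, 6233776, -128800, 2324, -48, 0, 0, 0, 0, 0]
noncomputable def sq_D22_g : PowerSeries ℝ := ((P [(-16)] * ((Fs 0 1) * (Fs 4 1))) + ((P [(-96)] * ((Fs 1 1) * (Fs 4 1))) + ((P [0, 48] * ((Fs 1 1) * (Fs 5 1))) + ((P [4] * ((Fs 2 1) * (Fs 2 1))) + ((P [24] * ((Fs 2 1) * (Fs 3 1))) + (P [0, (-12)] * ((Fs 3 1) * (Fs 3 1))))))))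
theorem tm_q_D22_g : TM 2 sq_D22_g l_q_D22_g (1853 / 1000000000000000) :=
  TM.round ((TM.add' h2 (TM.pmul h2 [(-16)] tm_p_F0F4) (TM.add' h2 (TM.pmul h2 [(-96)] tm_p_F1F4) (TM.add' h2 (TM.pmul h2 [0, 48] tm_p_F1F5) (TM.add' h2 (TM.pmul h2 [4] tm_p_F2F2) (TM.add' h2 (TM.pmul h2 [24] tm_p_F2F3) (TM.pmul h2 [0, (-12)] tm_p_F3F3))))))) h2 (by decide +kernel)

def l_q_D22_g1 : List ℚ := L 1000000000000000000 [-1166666666666666648, -666666666666666654, 758333333333333290, -241269841269841242, 41468253968253902, -4623750734861834, 366703715951438, -21899996437038, 1024456845772, -38646882038, 1202532424, -31424924, 699938, -13456, 234, 0, 0, 0, 0, 0]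
noncomputable def sq_D22_g1 : PowerSeries ℝ := ((P [56] * ((Fs 0 1) * (Fs 4 1))) + ((P [0, (-24)] * ((Fs 0 1) * (Fs 5 1))) + ((P [0, (-24)] * ((Fs 1 1) * (Fs 4 1))) + ((P [(-14)] * ((Fs 2 1) * (Fs 2 1))) + (P [0, 12] * ((Fs 2 1) * (Fs 3 1)))))))
theorem tm_q_D22_g1 : TM 2 sq_D22_g1 l_q_D22_g1 (3 / 1953125000000) :=
  TM.round ((TM.add' h2 (TM.pmul h2 [56] tm_p_F0F4) (TM.add' h2 (TM.pmul h2 [0, (-24)] tm_p_F0F5) (TM.add' h2 (TM.pmul h2 [0, (-24)] tm_p_F1F4) (TM.add' h2 (TM.pmul h2 [(-14)] tm_p_F2F2) (TM.pmul h2 [0, 12] tm_p_F2F3)))))) h2 (by decide +kernel)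

def l_q_D22_g2 : List ℚ := L 1000000000000000000 [0, -166666666666666664, -66666666666666666, 58333333333333330, -15079365079365078, 2182539682539674, -210170487948266, 14668148638058, -782142729894, 33046995028, -1136673002, 32500876, -785624, 16274, -292, 6, 0, 0, 0, 0]
noncomputable def sq_D22_g2 : PowerSeries ℝ := ((P [0, 8] * ((Fs 0 1) * (Fs 4 1))) + (P [0, (-2)] * ((Fs 2 1) * (Fs 2 1))))
theorem tm_q_D22_g2 : TM 2 sq_D22_g2 l_q_D22_g2 (1629 / 10000000000000000) :=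
  TM.round ((TM.add' h2 (TM.pmul h2 [0, 8] tm_p_F0F4) (TM.pmul h2 [0, (-2)] tm_p_F2F2))) h2 (by decide +kernel)

def l_p_F0F3 : List ℚ := L 1000000000000000000 [166666666666666667, -208333333333333334, 87500000000000001, -19444444444444444, 2728174603174603, -265997023809524, 19156164266118, -1063362587834, 46961519246, -1691001207, 50629977, -1280906, 27753, -521, 9, 0, 0, 0, 0, 0]
theorem tm_p_F0F3 : TM 2 ((Fs 0 1) * (Fs 3 1)) l_p_F0F3 (107 / 5000000000000000) := TM.mul tm_u_F0 tm_u_F3 (by decide +kernel)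

def l_p_F1F2 : List ℚ := L 1000000000000000000 [500000000000000000, -416666666666666667, 145833333333333333, -29166666666666666, 3819444444444444, -354662698412698, 24629354056437, -1329203234792, 57397412412, -2029201449, 59835427, -1494391, 32022, -595, 10, 0, 0, 0, 0, 0]
theorem tm_p_F1F2 : TM 2 ((Fs 1 1) * (Fs 2 1)) l_p_F1F2 (1777 / 100000000000000000) := TM.mul tm_u_F1 tm_u_F2 (by decide +kernel)

def l_p_F1F3 : List ℚ := L 1000000000000000000 [166666666666666667, -125000000000000000, 38888888888888889, -6944444444444444, 818452380952381, -68962191358025, 4378551832256, -217505983875, 8696577638, -286169435, 7890386, -185019, 3736, -66, 1, 0, 0, 0, 0, 0]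
theorem tm_p_F1F3 : TM 2 ((Fs 1 1) * (Fs 3 1)) l_p_F1F3 (4531 / 500000000000000000) := TM.mul tm_u_F1 tm_u_F3 (by decide +kernel)

def l_q_D22_k : List ℚ := L 1000000000000000000 [24000000000000000004, -26833333333333333364, 11800000000000000000, -2838888888888888864, 434126984126984092, -46078869047619032, 3599169606114044, -215737503849296, 10242554513416, -394824624768, 12605863664, -338876684, 7776484, -154120, 2692, -32, 0, 0, 0, 0]
noncomputable def sq_D22_k : PowerSeries ℝ := ((P [8] * ((Fs 0 1) * (Fs 2 1))) + ((P [12] * ((Fs 0 1) * (Fs 3 1))) + ((P [36] * ((Fs 1 1) * (Fs 2 1))) + (P [0, (-24)] * ((Fs 1 1) * (Fs 3 1))))))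
theorem tm_q_D22_k : TM 2 sq_D22_k l_q_D22_k (377 / 250000000000000) :=
  TM.round ((TM.add' h2 (TM.pmul h2 [8] tm_p_F0F2) (TM.add' h2 (TM.pmul h2 [12] tm_p_F0F3) (TM.add' h2 (TM.pmul h2 [36] tm_p_F1F2) (TM.pmul h2 [0, (-24)] tm_p_F1F3))))) h2 (by decide +kernel)

def l_q_D22_k1 : List ℚ := L 1000000000000000000 [-12000000000000000000, 24000000000000000012, -15000000000000000012, 4666666666666666680, -874999999999999968, 109999999999999980, -9930555555555552, 675547996976556, -35888487339408, 1530597664320, -53570918256, 1566600264, -38854164, 827652, -15312, 252, 0, 0, 0, 0]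
noncomputable def sq_D22_k1 : PowerSeries ℝ := ((P [(-24)] * ((Fs 0 1) * (Fs 2 1))) + ((P [0, 12] * ((Fs 0 1) * (Fs 3 1))) + (P [0, 12] * ((Fs 1 1) * (Fs 2 1)))))
theorem tm_q_D22_k1 : TM 2 sq_D22_k1 l_q_D22_k1 (367 / 250000000000000) :=
  TM.round ((TM.add' h2 (TM.pmul h2 [(-24)] tm_p_F0F2) (TM.add' h2 (TM.pmul h2 [0, 12] tm_p_F0F3) (TM.pmul h2 [0, 12] tm_p_F1F2)))) h2 (by decide +kernel)

def l_q_D22_k2 : List ℚ := L 1000000000000000000 [0, -2000000000000000000, 2666666666666666668, -1250000000000000000, 311111111111111112, -48611111111111108, 5238095238095236, -413773148148148, 25020296184316, -1196282911316, 46381747404, -1488081064, 40169236, -925100, 18392, -320, 4, 0, 0, 0]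
noncomputable def sq_D22_k2 : PowerSeries ℝ := (P [0, (-4)] * ((Fs 0 1) * (Fs 2 1)))
theorem tm_q_D22_k2 : TM 2 sq_D22_k2 l_q_D22_k2 (11 / 62500000000000) :=
  TM.round ((TM.pmul h2 [0, (-4)] tm_p_F0F2)) h2 (by decide +kernel)

def l_p_AC1 : List ℚ := L 1000000000000000000 [891099587665652, -827757845252135, 200616368782043, -13389651028816, 1435316422167, 51923885042, 13828009909, 1895590562, 275115450, 38453559, 5245015, 696441, 89762, 11165, 1325, 147, 15, 1, 3, -2]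
theorem tm_p_AC1 : TM 2 (sa1 * (der sa2)) l_p_AC1 (103 / 10000000000000) := TM.mul tm_u_A tm_u_C1 (by decide +kernel)

def l_p_A1C : List ℚ := L 1000000000000000000 [9973325382072109, -3407382767824117, 431666192341402, -34790745839448, 1188676743106, -116875219338, -9513413925, -1807380256, -288100876, -46055903, -7262790, -1133474, -175262, -26876, -4091, -618, -93, -14, -2, 0]
theorem tm_p_A1C : TM 2 ((der sa1) * sa2) l_p_A1C (311 / 125000000000000) := TM.mul tm_u_A1 tm_u_C (by decide +kernel)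

def l_p_A1C1 : List ℚ := L 1000000000000000000 [-655770895226768, 307492572803869, -35166396320239, 2510456981755, -143678520458, -8583334668, -3023796055, -631029766, -125431474, -23595734, -4273351, -751540, -129099, -21750, -3605, -589, -95, -15, -5, 0]
theorem tm_p_A1C1 : TM 2 ((der sa1) * (der sa2)) l_p_A1C1 (137 / 31250000000000) := TM.mul tm_u_A1 tm_u_C1 (by decide +kernel)

def l_p_CC1 : List ℚ := L 1000000000000000000 [-90490240017108, 23415054465660, -55781241442, 360757261491, 57181031849, 11381153636, 2078176538, 370021976, 64242019, 10928432, 1827227, 301004, 48947, 7869, 1252, 197, 31, 5, 0, 0]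
theorem tm_p_CC1 : TM 2 (sa2 * (der sa2)) l_p_CC1 (3273 / 5000000000000000) := TM.mul tm_u_C tm_u_C1 (by decide +kernel)

def l_p_Cb : List ℚ := L 1000000000000000000 [37097512970850742, -12432098710748289, 1550207355210436, -120576256306250, 4471305426149, -330768533710, -19449380273, -3799574312, -568390870, -86395926, -12968338, -1930365, -285177, -41849, -6105, -886, -128, -18, -6, 0]
theorem tm_p_Cb : TM 2 (sa2 * sb) l_p_Cb (929 / 125000000000000) := TM.mul tm_u_C tm_u_b (by decide +kernel)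

def l_p_C1C1 : List ℚ := L 1000000000000000000 [5949957855779, -2296746892400, 2452468142, -9779427729, 2588817876, 1128868100, 329507952, 80312585, 17710313, 3653205, 717786, 135835, 24943, 4468, 784, 135, 23, 4, 1, 0]
theorem tm_p_C1C1 : TM 2 ((der sa2) * (der sa2)) l_p_C1C1 (2747 / 10000000000000000) := TM.mul tm_u_C1 tm_u_C1 (by decide +kernel)

def l_D22 : List ℚ := L 1000000000 [-274486512, 2560459511, -7066545952, 8298042338, -4546634110, 1385908767, -265263150, 34641829, -3273362, 233865, -13050, 586, -21]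
noncomputable def serD22 : PowerSeries ℝ := (((P [(-41 / 500), (377 / 250), (-32 / 125)] * ((Fs 0 1) * (Fs 0 1))) + ((P [(-114 / 125), (-63 / 250), (-384 / 125)] * ((Fs 0 1) * (Fs 1 1))) + (P [0, (57 / 125), (21 / 250), (96 / 125)] * ((Fs 1 1) * (Fs 1 1))))) + ((sh0 * sq_D22_g) + (((der sh0) * sq_D22_g1) + (((der (der sh0)) * sq_D22_g2) + ((sh1 * sq_D22_k) + (((der sh1) * sq_D22_k1) + (((der (der sh1)) * sq_D22_k2) + ((C (kap2 - 1) * (P [8] * (sa1 * sa2))) + ((P [(-4)] * (sa1 * (der sa2))) + ((P [(-12)] * ((der sa1) * sa2)) + ((P [0, (-8)] * ((der sa1) * (der sa2))) + ((C (kap2 - 1) * (P [0, 4] * (sa2 * sa2))) + ((P [(-6)] * (sa2 * sa2)) + ((P [0, (-12)] * (sa2 * (der sa2))) + ((C (-(2 * kap2 / s0)) * (P [2] * (sa2 * sb))) + (P [0, 0, (-4)] * ((der sa2) * (der sa2))))))))))))))))))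
theorem tm_D22 : TM 2 serD22 l_D22 (233 / 10000000) :=
  TM.round ((TM.add' h2 (TM.add' h2 (TM.pmul h2 [(-41 / 500), (377 / 250), (-32 / 125)] tm_p_F0F0) (TM.add' h2 (TM.pmul h2 [(-114 / 125), (-63 / 250), (-384 / 125)] tm_p_F0F1) (TM.pmul h2 [0, (57 / 125), (21 / 250), (96 / 125)] tm_p_F1F1))) (TM.add' h2 (TM.mul' h2 tm_u_g tm_q_D22_g) (TM.add' h2 (TM.mul' h2 tm_u_g1 tm_q_D22_g1) (TM.add' h2 (TM.mul' h2 tm_u_g2 tm_q_D22_g2) (TM.add' h2 (TM.mul' h2 tm_u_k tm_q_D22_k) (TM.add' h2 (TM.mul' h2 tm_u_k1 tm_q_D22_k1) (TM.add' h2 (TM.mul' h2 tm_u_k2 tm_q_D22_k2) (TM.add' h2 (TM.cmul' h2 mu_app (TM.pmul h2 [8] tm_p_AC)) (TM.add' h2 (TM.pmul h2 [(-4)] tm_p_AC1) (TM.add' h2 (TM.pmul h2 [(-12)] tm_p_A1C) (TM.add' h2 (TM.pmul h2 [0, (-8)] tm_p_A1C1) (TM.add' h2 (TM.cmul' h2 mu_app (TM.pmul h2 [0, 4] tm_p_CC)) (TM.add' h2 (TM.pmul h2 [(-6)] tm_p_CC) (TM.add' h2 (TM.pmul h2 [0, (-12)] tm_p_CC1) (TM.add' h2 (TM.cmul' h2 al_app (TM.pmul h2 [2]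 tm_p_Cb)) (TM.pmul h2 [0, 0, (-4)] tm_p_C1C1))))))))))))))))) h2 (by decide +kernel)

def l_p_F2F4 : List ℚ := L 1000000000000000000 [20833333333333334, -11111111111111111, 2604166666666666, -363756613756614, 34481095679012, -2388300999412, 126878490594, -5351740085, 183966066, -5260258, 127201, -2637, 47, -1, 0, 0, 0, 0, 0, 0]
theorem tm_p_F2F4 : TM 2 ((Fs 2 1) * (Fs 4 1)) l_p_F2F4 (1331 / 250000000000000000) := TM.mul tm_u_F2 tm_u_F4 (by decide +kernel)

def l_p_F2F5 : List ℚ := L 1000000000000000000 [4166666666666667, -2083333333333333, 454695767195767, -59110449735450, 5224408436214, -338342641584, 16857981268, -668967510, 21698562, -587082, 13468, -266, 5, 0, 0, 0, 0, 0, 0, 0]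
theorem tm_p_F2F5 : TM 2 ((Fs 2 1) * (Fs 5 1)) l_p_F2F5 (1171 / 250000000000000000) := TM.mul tm_u_F2 tm_u_F5 (by decide +kernel)

def l_p_F3F4 : List ℚ := L 1000000000000000000 [6944444444444445, -3125000000000000, 636574074074074, -78813932980600, 6717096560846, -422928301979, 20604199327, -802761013, 25643755, -684929, 15540, -303, 5, 0, 0, 0, 0, 0, 0, 0]
theorem tm_p_F3F4 : TM 2 ((Fs 3 1) * (Fs 4 1)) l_p_F3F4 (3241 / 1000000000000000000) := TM.mul tm_u_F3 tm_u_F4 (by decide +kernel)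

def l_p_F3F5 : List ℚ := L 1000000000000000000 [1388888888888889, -578703703703704, 109126984126984, -12538580246914, 995125416422, -58559303351, 2675870043, -98115235, 2958895, -74824, 1612, -30, 0, 0, 0, 0, 0, 0, 0, 0]
theorem tm_p_F3F5 : TM 2 ((Fs 3 1) * (Fs 5 1)) l_p_F3F5 (603 / 200000000000000000) := TM.mul tm_u_F3 tm_u_F5 (by decide +kernel)

def l_q_D31_g : List ℚ := L 1000000000000000000 [0, 1000000000000000032, 66666666666666712, -197222222222222248, 58730158730158712, -9075727513227552, 909942680776000, -65320032333920, 3557160799224, -152792179408, 5325667512, -153956456, 3755960, -78456, 1408, -8, 0, 0, 0, 0]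
noncomputable def sq_D31_g : PowerSeries ℝ := ((P [0, 48, 8] * ((Fs 2 1) * (Fs 4 1))) + ((P [0, 0, 24] * ((Fs 2 1) * (Fs 5 1))) + ((P [0, 0, 48] * ((Fs 3 1) * (Fs 4 1))) + (P [0, 0, 0, (-24)] * ((Fs 3 1) * (Fs 5 1))))))
theorem tm_q_D31_g : TM 2 sq_D31_g l_q_D31_g (2333 / 1000000000000000) :=
  TM.round ((TM.add' h2 (TM.pmul h2 [0, 48, 8] tm_p_F2F4) (TM.add' h2 (TM.pmul h2 [0, 0, 24] tm_p_F2F5) (TM.add' h2 (TM.pmul h2 [0, 0, 48] tm_p_F3F4) (TM.pmul h2 [0, 0, 0, (-24)] tm_p_F3F5))))) h2 (by decide +kernel)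

def l_q_D31_g1 : List ℚ := L 1000000000000000000 [0, 0, -833333333333333360, 577777777777777784, -166666666666666636, 27645502645502652, -3034336419753080, 238830099941200, -14210390946516, 663615770540, -25019384916, 778518124, -20352172, 453576, -8708, 160, 0, 0, 0, 0]
noncomputable def sq_D31_g1 : PowerSeries ℝ := ((P [0, 0, (-40)] * ((Fs 2 1) * (Fs 4 1))) + ((P [0, 0, 0, 12] * ((Fs 2 1) * (Fs 5 1))) + (P [0, 0, 0, 12] * ((Fs 3 1) * (Fs 4 1)))))
theorem tm_q_D31_g1 : TM 2 sq_D31_g1 l_q_D31_g1 (1613 / 1000000000000000) :=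
  TM.round ((TM.add' h2 (TM.pmul h2 [0, 0, (-40)] tm_p_F2F4) (TM.add' h2 (TM.pmul h2 [0, 0, 0, 12] tm_p_F2F5) (TM.pmul h2 [0, 0, 0, 12] tm_p_F3F4)))) h2 (by decide +kernel)

def l_q_D31_g2 : List ℚ := L 1000000000000000000 [0, 0, 0, -83333333333333336, 44444444444444444, -10416666666666664, 1455026455026456, -137924382716048, 9553203997648, -507513962376, 21406960340, -735864264, 21041032, -508804, 10548, -188, 4, 0, 0, 0]
noncomputable def sq_D31_g2 : PowerSeries ℝ := (P [0, 0, 0, (-4)] * ((Fs 2 1) * (Fs 4 1)))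
theorem tm_q_D31_g2 : TM 2 sq_D31_g2 l_q_D31_g2 (213 / 1250000000000000) :=
  TM.round ((TM.pmul h2 [0, 0, 0, (-4)] tm_p_F2F4)) h2 (by decide +kernel)

def l_q_D31_k : List ℚ := L 1000000000000000000 [0, -4999999999999999992, 5733333333333333360, -3166666666666666624, 936507936507936464, -168129960317460304, 20188492063492028, -1736533656672536, 112415570418252, -5682069199960, 230687442496, -7693534820, 214645852, -5085856, 103636, -1848, 32, 0, 0, 0]
noncomputable def sq_D31_k : PowerSeries ℝ := ((P [0, 24, 8] * ((Fs 0 1) * (Fs 4 1))) + ((P [0, 0, 12] * ((Fs 0 1) * (Fs 5 1))) + ((P [0, 0, 60] * ((Fs 1 1) * (Fs 4 1))) + ((P [0, 0, 0, (-24)] * ((Fs 1 1) * (Fs 5 1))) + (P [0, (-24)] * ((Fs 2 1) * (Fs 2 1)))))))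
theorem tm_q_D31_k : TM 2 sq_D31_k l_q_D31_k (1107 / 250000000000000) :=
  TM.round ((TM.add' h2 (TM.pmul h2 [0, 24, 8] tm_p_F0F4) (TM.add' h2 (TM.pmul h2 [0, 0, 12] tm_p_F0F5) (TM.add' h2 (TM.pmul h2 [0, 0, 60] tm_p_F1F4) (TM.add' h2 (TM.pmul h2 [0, 0, 0, (-24)] tm_p_F1F5) (TM.pmul h2 [0, (-24)] tm_p_F2F2)))))) h2 (by decide +kernel)

def l_q_D31_k1 : List ℚ := L 1000000000000000000 [0, 0, -1500000000000000012, 2400000000000000000, -1166666666666666640, 285714285714285696, -42968749999999956, 4413580246913568, -331018518518532, 18982340410920, -860961186180, 31698768204, -967135896, 24866676, -546372, 10380, -180, 0, 0, 0]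
noncomputable def sq_D31_k1 : PowerSeries ℝ := ((P [0, 0, (-36)] * ((Fs 0 1) * (Fs 4 1))) + ((P [0, 0, 0, 12] * ((Fs 0 1) * (Fs 5 1))) + (P [0, 0, 0, 12] * ((Fs 1 1) * (Fs 4 1)))))
theorem tm_q_D31_k1 : TM 2 sq_D31_k1 l_q_D31_k1 (1417 / 500000000000000) :=
  TM.round ((TM.add' h2 (TM.pmul h2 [0, 0, (-36)] tm_p_F0F4) (TM.add' h2 (TM.pmul h2 [0, 0, 0, 12] tm_p_F0F5) (TM.pmul h2 [0, 0, 0, 12] tm_p_F1F4)))) h2 (by decide +kernel)

def l_q_D31_k2 : List ℚ := L 1000000000000000000 [0, 0, 0, -166666666666666668, 200000000000000000, -77777777777777776, 15873015873015872, -2046130952380948, 183899176954732, -12259945130316, 632744680364, -26089732916, 880521340, -24798356, 592064, -12140, 216, -4, 0, 0]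
noncomputable def sq_D31_k2 : PowerSeries ℝ := (P [0, 0, 0, (-4)] * ((Fs 0 1) * (Fs 4 1)))
theorem tm_q_D31_k2 : TM 2 sq_D31_k2 l_q_D31_k2 (2891 / 10000000000000000) :=
  TM.round ((TM.pmul h2 [0, 0, 0, (-4)] tm_p_F0F4)) h2 (by decide +kernel)

def l_D31 : List ℚ := L 1000000000 [-70682372, 1113787312, -5489379651, 9779393215, -7083710030, 2594358924, -565408458, 81342007, -8285131, 628428, -36831, 1722, -65]
noncomputable def serD31 : PowerSeries ℝ := (((P [(-103 / 500), (39 / 125), (-103 / 50)] * ((Fs 0 1) * (Fs 0 1))) + ((P [(-123 / 250), (21 / 125), (-252 / 125)] * ((Fs 0 1) * (Fs 1 1))) + ((P [(29 / 25), (161 / 125), (34 / 125), (254 / 125)] * ((Fs 0 1) * (Fs 2 1))) + ((P [0, (-153 / 250), (-36 / 125), (-9 / 125)] * ((Fs 0 1) * (Fs 3 1))) + ((P [0, (123 / 250), (-21 / 250), (84 / 125)] * ((Fs 1 1) * (Fs 1 1))) + ((P [(129 / 125), (-459 / 250), (-72 / 125), (-3 / 25)] * ((Fs 1 1) * (Fs 2 1))) + (P [0, (-129 / 125), (153 / 125),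 (36 / 125), (6 / 125)] * ((Fs 1 1) * (Fs 3 1))))))))) + ((sh0 * sq_D31_g) + (((der sh0) * sq_D31_g1) + (((der (der sh0)) * sq_D31_g2) + ((sh1 * sq_D31_k) + (((der sh1) * sq_D31_k1) + (((der (der sh1)) * sq_D31_k2) + ((C (-(2 * kap2 / s0)) * (P [1] * (sa1 * sa1))) + (C (-(2 * kap2 / s0)) * (P [0, 2] * (sa1 * sa2)))))))))))
theorem tm_D31 : TM 2 serD31 l_D31 (247 / 10000000) :=
  TM.round ((TM.add' h2 (TM.add' h2 (TM.pmul h2 [(-103 / 500), (39 / 125), (-103 / 50)] tm_p_F0F0) (TM.add' h2 (TM.pmul h2 [(-123 / 250), (21 / 125), (-252 / 125)] tm_p_F0F1) (TM.add' h2 (TM.pmul h2 [(29 / 25), (161 / 125), (34 / 125), (254 / 125)] tm_p_F0F2) (TM.add' h2 (TM.pmul h2 [0, (-153 / 250), (-36 / 125), (-9 / 125)] tm_p_F0F3) (TM.add' h2 (TM.pmul h2 [0, (123 / 250), (-21 / 250), (84 / 125)] tm_p_F1F1) (TM.add' h2 (TM.pmul h2 [(129 / 125), (-459 / 250), (-72 / 125), (-3 / 25)] tm_p_F1F2) (TM.pmul h2 [0, (-129 / 125), (153 / 125), (36 / 125), (6 /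 125)] tm_p_F1F3))))))) (TM.add' h2 (TM.mul' h2 tm_u_g tm_q_D31_g) (TM.add' h2 (TM.mul' h2 tm_u_g1 tm_q_D31_g1) (TM.add' h2 (TM.mul' h2 tm_u_g2 tm_q_D31_g2) (TM.add' h2 (TM.mul' h2 tm_u_k tm_q_D31_k) (TM.add' h2 (TM.mul' h2 tm_u_k1 tm_q_D31_k1) (TM.add' h2 (TM.mul' h2 tm_u_k2 tm_q_D31_k2) (TM.add' h2 (TM.cmul' h2 al_app (TM.pmul h2 [1] tm_p_AA)) (TM.cmul' h2 al_app (TM.pmul h2 [0, 2] tm_p_AC))))))))))) h2 (by decide +kernel)

def l_q_D33_g : List ℚ := L 1000000000000000000 [-1200000000000000080, 644444444444444432, -152380952380952368, 21461640211640256, -2049162257495552, 142820399764864, -7628088646608, 323245101152, -11156319792, 320124208, -7765072, 161424, -2912, 16, 0, 0, 0, 0, 0, 0]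
noncomputable def sq_D33_g : PowerSeries ℝ := ((P [(-16)] * ((Fs 2 1) * (Fs 4 1))) + ((P [(-48)] * ((Fs 2 1) * (Fs 5 1))) + ((P [(-96)] * ((Fs 3 1) * (Fs 4 1))) + (P [0, 48] * ((Fs 3 1) * (Fs 5 1))))))
theorem tm_q_D33_g : TM 2 sq_D33_g l_q_D33_g (4553 / 5000000000000000) :=
  TM.round ((TM.add' h2 (TM.pmul h2 [(-16)] tm_p_F2F4) (TM.add' h2 (TM.pmul h2 [(-48)] tm_p_F2F5) (TM.add' h2 (TM.pmul h2 [(-96)] tm_p_F3F4) (TM.pmul h2 [0, 48] tm_p_F3F5))))) h2 (by decide +kernel)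

def l_q_D33_g1 : List ℚ := L 1000000000000000000 [1666666666666666720, -1155555555555555568, 333333333333333272, -55291005291005304, 6068672839506160, -477660199882400, 28420781893032, -1327231541080, 50038769832, -1557036248, 40704344, -907152, 17416, -320, 0, 0, 0, 0, 0, 0]
noncomputable def sq_D33_g1 : PowerSeries ℝ := ((P [80] * ((Fs 2 1) * (Fs 4 1))) + ((P [0, (-24)] * ((Fs 2 1) * (Fs 5 1))) + (P [0, (-24)] * ((Fs 3 1) * (Fs 4 1)))))
theorem tm_q_D33_g1 : TM 2 sq_D33_g1 l_q_D33_g1 (63 / 78125000000000) :=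
  TM.round ((TM.add' h2 (TM.pmul h2 [80] tm_p_F2F4) (TM.add' h2 (TM.pmul h2 [0, (-24)] tm_p_F2F5) (TM.pmul h2 [0, (-24)] tm_p_F3F4)))) h2 (by decide +kernel)

def l_q_D33_g2 : List ℚ := L 1000000000000000000 [0, 166666666666666672, -88888888888888888, 20833333333333328, -2910052910052912, 275848765432096, -19106407995296, 1015027924752, -42813920680, 1471728528, -42082064, 1017608, -21096, 376, -8, 0, 0, 0, 0, 0]
noncomputable def sq_D33_g2 : PowerSeries ℝ := (P [0, 8] * ((Fs 2 1) * (Fs 4 1)))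
theorem tm_q_D33_g2 : TM 2 sq_D33_g2 l_q_D33_g2 (8519 / 100000000000000000) :=
  TM.round ((TM.pmul h2 [0, 8] tm_p_F2F4)) h2 (by decide +kernel)

def l_q_D33_k : List ℚ := L 1000000000000000000 [-1866666666666666680, 2183333333333333232, -852380952380952296, 175396825396825332, -22795414462081084, 2063611478542060, -138427373381116, 7182091528140, -297474414272, 10078702180, -284805428, 6819796, -140212, 2516, -48, 0, 0, 0, 0, 0]
noncomputable def sq_D33_k : PowerSeries ℝ := ((P [(-16)] * ((Fs 0 1) * (Fs 4 1))) + ((P [(-24)] * ((Fs 0 1) * (Fs 5 1))) + ((P [(-120)] * ((Fs 1 1) * (Fs 4 1))) + ((P [0, 48] * ((Fs 1 1) * (Fs 5 1))) + ((P [4] * ((Fs 2 1) * (Fs 2 1))) + ((P [36] * ((Fs 2 1) * (Fs 3 1))) + (P [0, (-12)] * ((Fs 3 1) * (Fs 3 1)))))))))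
theorem tm_q_D33_k : TM 2 sq_D33_k l_q_D33_k (73 / 31250000000000) :=
  TM.round ((TM.add' h2 (TM.pmul h2 [(-16)] tm_p_F0F4) (TM.add' h2 (TM.pmul h2 [(-24)] tm_p_F0F5) (TM.add' h2 (TM.pmul h2 [(-120)] tm_p_F1F4) (TM.add' h2 (TM.pmul h2 [0, 48] tm_p_F1F5) (TM.add' h2 (TM.pmul h2 [4] tm_p_F2F2) (TM.add' h2 (TM.pmul h2 [36] tm_p_F2F3) (TM.pmul h2 [0, (-12)] tm_p_F3F3)))))))) h2 (by decide +kernel)

def l_q_D33_k1 : List ℚ := L 1000000000000000000 [-1499999999999999976, -799999999999999986, 874999999999999950, -271428571428571398, 45833333333333250, -5044091710758366, 396040013227554, -23464281896826, 1090550835828, -40920228042, 1267534176, -32996172, 732486, -14040, 246, 0, 0, 0, 0, 0]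
noncomputable def sq_D33_k1 : PowerSeries ℝ := ((P [72] * ((Fs 0 1) * (Fs 4 1))) + ((P [0, (-24)] * ((Fs 0 1) * (Fs 5 1))) + ((P [0, (-24)] * ((Fs 1 1) * (Fs 4 1))) + ((P [(-18)] * ((Fs 2 1) * (Fs 2 1))) + (P [0, 12] * ((Fs 2 1) * (Fs 3 1)))))))
theorem tm_q_D33_k1 : TM 2 sq_D33_k1 l_q_D33_k1 (1699 / 1000000000000000) :=
  TM.round ((TM.add' h2 (TM.pmul h2 [72] tm_p_F0F4) (TM.add' h2 (TM.pmul h2 [0, (-24)] tm_p_F0F5) (TM.add' h2 (TM.pmul h2 [0, (-24)] tm_p_F1F4) (TM.add' h2 (TM.pmul h2 [(-18)] tm_p_F2F2) (TM.pmul h2 [0, 12] tm_p_F2F3)))))) h2 (by decide +kernel)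

def l_q_D33_k2 : List ℚ := L 1000000000000000000 [0, -166666666666666664, -66666666666666666, 58333333333333330, -15079365079365078, 2182539682539674, -210170487948266, 14668148638058, -782142729894, 33046995028, -1136673002, 32500876, -785624, 16274, -292, 6, 0, 0, 0, 0]
noncomputable def sq_D33_k2 : PowerSeries ℝ := ((P [0, 8] * ((Fs 0 1) * (Fs 4 1))) + (P [0, (-2)] * ((Fs 2 1) * (Fs 2 1))))
theorem tm_q_D33_k2 : TM 2 sq_D33_k2 l_q_D33_k2 (1629 / 10000000000000000) :=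
  TM.round ((TM.add' h2 (TM.pmul h2 [0, 8] tm_p_F0F4) (TM.pmul h2 [0, (-2)] tm_p_F2F2))) h2 (by decide +kernel)

def l_D33 : List ℚ := L 1000000000 [-1905180467, 11831059370, -21198932042, 13838835909, -4625700234, 936635254, -127017900, 12330926, -898824, 50967, -2314, 86]
noncomputable def serD33 : PowerSeries ℝ := (((P [(-969 / 500), (153 / 250)] * ((Fs 0 1) * (Fs 0 1))) + ((P [(459 / 250), (918 / 125)] * ((Fs 0 1) * (Fs 1 1))) + ((P [(-2 / 25), (569 / 125), (-64 / 125)] * ((Fs 0 1) * (Fs 2 1))) + ((P [(-114 / 125), (-63 / 250), (-384 / 125)] * ((Fs 0 1) * (Fs 3 1))) + ((P [0, (-153 / 250), (-459 / 250)] * ((Fs 1 1) * (Fs 1 1))) + ((P [(-228 / 125), (-21 / 50), (-576 / 125)] * ((Fs 1 1) * (Fs 2 1))) + (P [0, (114 / 125), (21 / 125), (192 / 125)] * ((Fs 1 1) * (Fs 3 1))))))))) + ((sh0 * sq_D33_g) + (((der sh0) * sq_D33_g1) + (((der (der sh0)) * sq_D33_g2) + ((sh1 * sq_D33_k) + (((der sh1) * sq_D33_k1) + (((der (der sh1)) * sq_D33_k2)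 + (C (-(2 * kap2 / s0)) * (P [1] * (sa2 * sa2))))))))))
theorem tm_D33 : TM 2 serD33 l_D33 (69 / 5000000) :=
  TM.round ((TM.add' h2 (TM.add' h2 (TM.pmul h2 [(-969 / 500), (153 / 250)] tm_p_F0F0) (TM.add' h2 (TM.pmul h2 [(459 / 250), (918 / 125)] tm_p_F0F1) (TM.add' h2 (TM.pmul h2 [(-2 / 25), (569 / 125), (-64 / 125)] tm_p_F0F2) (TM.add' h2 (TM.pmul h2 [(-114 / 125), (-63 / 250), (-384 / 125)] tm_p_F0F3) (TM.add' h2 (TM.pmul h2 [0, (-153 / 250), (-459 / 250)] tm_p_F1F1) (TM.add' h2 (TM.pmul h2 [(-228 / 125), (-21 / 50), (-576 / 125)] tm_p_F1F2) (TM.pmul h2 [0, (114 / 125), (21 / 125), (192 / 125)] tm_p_F1F3))))))) (TM.add' h2 (TM.mul' h2 tm_u_g tm_q_D33_g) (TM.add' h2 (TM.mul' h2 tm_u_g1 tm_q_D33_g1) (TM.add' h2 (TM.mul' h2 tm_u_g2 tm_q_D33_g2) (TM.add' h2 (TM.mul' h2 tm_u_k tm_q_D33_k) (TM.add' h2 (TM.mul' h2 tm_u_k1 tm_q_D33_k1) (TM.add' h2 (TM.mul' h2 tm_u_k2 tm_q_D33_k2) (TM.cmul' h2 al_app (TM.pmul h2 [1] tm_p_CC))))))))))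 h2 (by decide +kernel)

def l_p_F4F4 : List ℚ := L 1000000000000000000 [1736111111111111, -694444444444444, 127314814814815, -14329805996473, 1119516093474, -65065892612, 2943457047, -107034802, 3205469, -80580, 1727, -32, 1, 0, 0, 0, 0, 0, 0, 0]
theorem tm_p_F4F4 : TM 2 ((Fs 4 1) * (Fs 4 1)) l_p_F4F4 (1361 / 500000000000000000) := TM.mul tm_u_F4 tm_u_F4 (by decide +kernel)

def l_p_F4F5 : List ℚ := L 1000000000000000000 [347222222222222, -127314814814815, 21494708994709, -2239032186949, 162664731530, -8830371140, 374621806, -12821877, 362610, -8634, 176, -3, 0, 0, 0, 0, 0, 0, 0, 0]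
theorem tm_p_F4F5 : TM 2 ((Fs 4 1) * (Fs 5 1)) l_p_F4F5 (1097 / 1000000000000000000) := TM.mul tm_u_F4 tm_u_F5 (by decide +kernel)

def l_p_F5F5 : List ℚ := L 1000000000000000000 [69444444444444, -23148148148148, 3582451499118, -344466490300, 23237818790, -1177382819, 46827726, -1508456, 40290, -909, 18, 0, 0, 0, 0, 0, 0, 0, 0, 0]
theorem tm_p_F5F5 : TM 2 ((Fs 5 1) * (Fs 5 1)) l_p_F5F5 (247 / 200000000000000000) := TM.mul tm_u_F5 tm_u_F5 (by decide +kernel)

def l_q_D40_g : List ℚ := L 1000000000000000000 [0, 0, 0, -83333333333333328, 56944444444444412, -15833333333333344, 2506613756613772, -261518959435612, 19542732216312, -1104261148904, 49021939200, -1759384528, 52196468, -1303128, 27800, -536, 4, 0, 0, 0]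
noncomputable def sq_D40_g : PowerSeries ℝ := ((P [0, 0, 0, (-48), 4] * ((Fs 4 1) * (Fs 4 1))) + ((P [0, 0, 0, 0, 48] * ((Fs 4 1) * (Fs 5 1))) + (P [0, 0, 0, 0, 0, (-12)] * ((Fs 5 1) * (Fs 5 1)))))
theorem tm_q_D40_g : TM 2 sq_D40_g l_q_D40_g (2537 / 1000000000000000) :=
  TM.round ((TM.add' h2 (TM.pmul h2 [0, 0, 0, (-48), 4] tm_p_F4F4) (TM.add' h2 (TM.pmul h2 [0, 0, 0, 0, 48] tm_p_F4F5) (TM.pmul h2 [0, 0, 0, 0, 0, (-12)] tm_p_F5F5)))) h2 (by decide +kernel)

def l_q_D40_g1 : List ℚ := L 1000000000000000000 [0, 0, 0, 0, -45138888888888886, 22222222222222208, -4837962962962970, 630511463844806, -55975804673712, 3643689986272, -182494336902, 7278366524, -237204718, 6446400, -148510, 2944, -62, 0, 0, 0]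
noncomputable def sq_D40_g1 : PowerSeries ℝ := ((P [0, 0, 0, 0, (-26)] * ((Fs 4 1) * (Fs 4 1))) + (P [0, 0, 0, 0, 0, 12] * ((Fs 4 1) * (Fs 5 1))))
theorem tm_q_D40_g1 : TM 2 sq_D40_g1 l_q_D40_g1 (777 / 500000000000000) :=
  TM.round ((TM.add' h2 (TM.pmul h2 [0, 0, 0, 0, (-26)] tm_p_F4F4) (TM.pmul h2 [0, 0, 0, 0, 0, 12] tm_p_F4F5))) h2 (by decide +kernel)

def l_q_D40_g2 : List ℚ := L 1000000000000000000 [0, 0, 0, 0, 0, -3472222222222222, 1388888888888888, -254629629629630, 28659611992946, -2239032186948, 130131785224, -5886914094, 214069604, -6410938, 161160, -3454, 64, -2, 0, 0]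
noncomputable def sq_D40_g2 : PowerSeries ℝ := (P [0, 0, 0, 0, 0, (-2)] * ((Fs 4 1) * (Fs 4 1)))
theorem tm_q_D40_g2 : TM 2 sq_D40_g2 l_q_D40_g2 (1743 / 10000000000000000) :=
  TM.round ((TM.pmul h2 [0, 0, 0, 0, 0, (-2)] tm_p_F4F4)) h2 (by decide +kernel)

def l_q_D40_k : List ℚ := L 1000000000000000000 [0, 0, 0, -250000000000000008, 133333333333333332, -31249999999999992, 4365079365079368, -413773148148144, 28659611992944, -1522541887128, 64220881020, -2207592792, 63123096, -1526412, 31644, -564, 12, 0, 0, 0]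
noncomputable def sq_D40_k : PowerSeries ℝ := (P [0, 0, 0, (-12)] * ((Fs 2 1) * (Fs 4 1)))
theorem tm_q_D40_k : TM 2 sq_D40_k l_q_D40_k (639 / 1250000000000000) :=
  TM.round ((TM.pmul h2 [0, 0, 0, (-12)] tm_p_F2F4)) h2 (by decide +kernel)

def l_D40 : List ℚ := L 1000000000 [0, 117000000, 28833333, 109988394, -384573102, 219981282, -73297638, 16460091, -2577686, 288494, -23933, 1522]
noncomputable def serD40 : PowerSeries ℝ := (((P [0, (123 / 250), (-21 / 250), (84 / 125)] * ((Fs 0 1) * (Fs 2 1))) + ((P [0, 0, (443 / 250), (83 / 125), (22 / 125), (62 / 125)] * ((Fs 0 1) * (Fs 4 1))) + ((P [0, 0, 0, (-153 / 250), (-36 / 125), (-9 / 125)] * ((Fs 0 1) * (Fs 5 1))) + ((P [0, 0, (258 / 125), (-153 / 50), (-108 / 125), (-21 / 125)] * ((Fs 1 1) * (Fs 4 1))) + ((P [0, 0, 0, (-129 / 125), (153 / 125), (36 / 125), (6 / 125)] * ((Fs 1 1) * (Fs 5 1))) + (P [0, (-129 / 250), (153 / 250), (18 / 125), (3 / 125)] * ((Fs 2 1) * (Fs 2 1))))))))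 + ((sh0 * sq_D40_g) + (((der sh0) * sq_D40_g1) + (((der (der sh0)) * sq_D40_g2) + (sh1 * sq_D40_k)))))
theorem tm_D40 : TM 2 serD40 l_D40 (337 / 1000000) :=
  TM.round ((TM.add' h2 (TM.add' h2 (TM.pmul h2 [0, (123 / 250), (-21 / 250), (84 / 125)] tm_p_F0F2) (TM.add' h2 (TM.pmul h2 [0, 0, (443 / 250), (83 / 125), (22 / 125), (62 / 125)] tm_p_F0F4) (TM.add' h2 (TM.pmul h2 [0, 0, 0, (-153 / 250), (-36 / 125), (-9 / 125)] tm_p_F0F5) (TM.add' h2 (TM.pmul h2 [0, 0, (258 / 125), (-153 / 50), (-108 / 125), (-21 / 125)] tm_p_F1F4) (TM.add' h2 (TM.pmul h2 [0, 0, 0, (-129 / 125), (153 / 125), (36 / 125), (6 / 125)] tm_p_F1F5) (TM.pmul h2 [0, (-129 / 250), (153 / 250), (18 / 125), (3 / 125)] tm_p_F2F2)))))) (TM.add' h2 (TM.mul' h2 tm_u_g tm_q_D40_g) (TM.add' h2 (TM.mul' h2 tm_u_g1 tm_q_D40_g1) (TM.add' h2 (TM.mul' h2 tm_u_g2 tm_q_D40_g2) (TM.mul' h2 tm_u_k tm_q_D40_k)))))) h2 (by decide +kernel)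

def l_q_D42_g : List ℚ := L 1000000000000000000 [0, 0, -94444444444444400, 38888888888888896, -7275132275132272, 831128747795440, -65678277483744, 3851900842592, -175537074816, 6422088064, -193314512, 4880928, -105056, 1952, -16, 0, 0, 0, 0, 0]
noncomputable def sq_D42_g : PowerSeries ℝ := ((P [0, 0, (-16)] * ((Fs 4 1) * (Fs 4 1))) + ((P [0, 0, (-192)] * ((Fs 4 1) * (Fs 5 1))) + (P [0, 0, 0, 48] * ((Fs 5 1) * (Fs 5 1)))))
theorem tm_q_D42_g : TM 2 sq_D42_g l_q_D42_g (1491 / 1000000000000000) :=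
  TM.round ((TM.add' h2 (TM.pmul h2 [0, 0, (-16)] tm_p_F4F4) (TM.add' h2 (TM.pmul h2 [0, 0, (-192)] tm_p_F4F5) (TM.pmul h2 [0, 0, 0, 48] tm_p_F5F5)))) h2 (by decide +kernel)

def l_q_D42_g1 : List ℚ := L 1000000000000000000 [0, 0, 180555555555555544, -88888888888888832, 19351851851851880, -2522045855379224, 223903218694848, -14574759945088, 729977347608, -29113466096, 948818872, -25785600, 594040, -11776, 248, 0, 0, 0, 0, 0]
noncomputable def sq_D42_g1 : PowerSeries ℝ := ((P [0, 0, 104] * ((Fs 4 1) * (Fs 4 1))) + (P [0, 0, 0, (-48)] * ((Fs 4 1) * (Fs 5 1))))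
theorem tm_q_D42_g1 : TM 2 sq_D42_g1 l_q_D42_g1 (777 / 500000000000000) :=
  TM.round ((TM.add' h2 (TM.pmul h2 [0, 0, 104] tm_p_F4F4) (TM.pmul h2 [0, 0, 0, (-48)] tm_p_F4F5))) h2 (by decide +kernel)

def l_q_D42_g2 : List ℚ := L 1000000000000000000 [0, 0, 0, 13888888888888888, -5555555555555552, 1018518518518520, -114638447971784, 8956128747792, -520527140896, 23547656376, -856278416, 25643752, -644640, 13816, -256, 8, 0, 0, 0, 0]
noncomputable def sq_D42_g2 : PowerSeries ℝ := (P [0, 0, 0, 8] * ((Fs 4 1) * (Fs 4 1)))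
theorem tm_q_D42_g2 : TM 2 sq_D42_g2 l_q_D42_g2 (1743 / 10000000000000000) :=
  TM.round ((TM.pmul h2 [0, 0, 0, 8] tm_p_F4F4)) h2 (by decide +kernel)

def l_q_D42_k : List ℚ := L 1000000000000000000 [0, 2000000000000000064, -333333333333333272, -134722222222222276, 54365079365079332, -9075727513227576, 938602292768944, -68365116108164, 3749823442284, -161622550516, 5641282932, -163114940, 3977480, -83028, 1480, -8, 0, 0, 0, 0]
noncomputable def sq_D42_k : PowerSeries ℝ := ((P [0, 96, 8] * ((Fs 2 1) * (Fs 4 1))) + ((P [0, 0, 36] * ((Fs 2 1) * (Fs 5 1))) + ((P [0, 0, 60] * ((Fs 3 1) * (Fs 4 1))) + (P [0, 0, 0, (-24)] * ((Fs 3 1) * (Fs 5 1))))))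
theorem tm_q_D42_k : TM 2 sq_D42_k l_q_D42_k (403 / 125000000000000) :=
  TM.round ((TM.add' h2 (TM.pmul h2 [0, 96, 8] tm_p_F2F4) (TM.add' h2 (TM.pmul h2 [0, 0, 36] tm_p_F2F5) (TM.add' h2 (TM.pmul h2 [0, 0, 60] tm_p_F3F4) (TM.pmul h2 [0, 0, 0, (-24)] tm_p_F3F5))))) h2 (by decide +kernel)

def l_q_D42_k1 : List ℚ := L 1000000000000000000 [0, 0, -1000000000000000032, 666666666666666672, -187499999999999964, 30555555555555564, -3310185185185176, 257936507936496, -15225418871268, 706429691220, -26491113444, 820600188, -21369780, 474672, -9084, 168, 0, 0, 0, 0]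
noncomputable def sq_D42_k1 : PowerSeries ℝ := ((P [0, 0, (-48)] * ((Fs 2 1) * (Fs 4 1))) + ((P [0, 0, 0, 12] * ((Fs 2 1) * (Fs 5 1))) + (P [0, 0, 0, 12] * ((Fs 3 1) * (Fs 4 1)))))
theorem tm_q_D42_k1 : TM 2 sq_D42_k1 l_q_D42_k1 (223 / 125000000000000) :=
  TM.round ((TM.add' h2 (TM.pmul h2 [0, 0, (-48)] tm_p_F2F4) (TM.add' h2 (TM.pmul h2 [0, 0, 0, 12] tm_p_F2F5) (TM.pmul h2 [0, 0, 0, 12] tm_p_F3F4)))) h2 (by decide +kernel)

def l_q_D42_k2 : List ℚ := L 1000000000000000000 [0, 0, 0, -83333333333333336, 44444444444444444, -10416666666666664, 1455026455026456, -137924382716048, 9553203997648, -507513962376, 21406960340, -735864264, 21041032, -508804, 10548, -188, 4, 0, 0, 0]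
noncomputable def sq_D42_k2 : PowerSeries ℝ := (P [0, 0, 0, (-4)] * ((Fs 2 1) * (Fs 4 1)))
theorem tm_q_D42_k2 : TM 2 sq_D42_k2 l_q_D42_k2 (213 / 1250000000000000) :=
  TM.round ((TM.pmul h2 [0, 0, 0, (-4)] tm_p_F2F4)) h2 (by decide +kernel)

def l_D42 : List ℚ := L 1000000000 [-1080166667, 2240172923, -7990929019, 9534316168, -4734534432, 1355750073, -254973039, 33698123, -3272926, 241909, -14001, 649]
noncomputable def serD42 : PowerSeries ℝ := (((P [(-62 / 125), (33 / 250), (-2407 / 250)] * ((Fs 0 1) * (Fs 2 1))) + ((P [(-123 / 250), (21 / 125), (-252 / 125)] * ((Fs 0 1) * (Fs 3 1))) + ((P [(-443 / 125), (-394 / 125), (-171 / 250), (253 / 125), (-64 / 125)] * ((Fs 0 1) * (Fs 4 1))) + ((P [0, (153 / 125), (-42 / 125), (-27 / 250), (-384 / 125)] * ((Fs 0 1) * (Fs 5 1))) + ((P [(-369 / 250), (42 / 125), (-84 / 25)] * ((Fs 1 1) * (Fs 2 1))) + ((P [0, (123 / 125), (-21 / 125), (168 / 125)] * ((Fs 1 1) * (Fs 3 1))) + ((P [(-516 /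 125), (153 / 25), (-126 / 125), (-63 / 250), (-768 / 125)] * ((Fs 1 1) * (Fs 4 1))) + ((P [0, (258 / 125), (-306 / 125), (42 / 125), (9 / 125), (192 / 125)] * ((Fs 1 1) * (Fs 5 1))) + ((P [(443 / 500), (17 / 10), (17 / 50), (319 / 125)] * ((Fs 2 1) * (Fs 2 1))) + ((P [(129 / 125), (-459 / 250), (-72 / 125), (-3 / 25)] * ((Fs 2 1) * (Fs 3 1))) + (P [0, (-129 / 250), (153 / 250), (18 / 125), (3 / 125)] * ((Fs 3 1) * (Fs 3 1))))))))))))) + ((sh0 * sq_D42_g) + (((der sh0) * sq_D42_g1) + (((der (der sh0)) * sq_D42_g2) + ((sh1 * sq_D42_k) + (((der sh1) * sq_D42_k1) + ((der (der sh1)) * sq_D42_k2)))))))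
theorem tm_D42 : TM 2 serD42 l_D42 (111 / 1000000) :=
  TM.round ((TM.add' h2 (TM.add' h2 (TM.pmul h2 [(-62 / 125), (33 / 250), (-2407 / 250)] tm_p_F0F2) (TM.add' h2 (TM.pmul h2 [(-123 / 250), (21 / 125), (-252 / 125)] tm_p_F0F3) (TM.add' h2 (TM.pmul h2 [(-443 / 125), (-394 / 125), (-171 / 250), (253 / 125), (-64 / 125)] tm_p_F0F4) (TM.add' h2 (TM.pmul h2 [0, (153 / 125), (-42 / 125), (-27 / 250), (-384 / 125)] tm_p_F0F5) (TM.add' h2 (TM.pmul h2 [(-369 / 250), (42 / 125), (-84 / 25)] tm_p_F1F2) (TM.add' h2 (TM.pmul h2 [0, (123 / 125), (-21 / 125), (168 / 125)] tm_p_F1F3) (TM.add' h2 (TM.pmul h2 [(-516 / 125), (153 / 25), (-126 / 125), (-63 / 250), (-768 / 125)] tm_p_F1F4) (TM.add' h2 (TM.pmul h2 [0, (258 / 125), (-306 / 125), (42 / 125), (9 / 125), (192 / 125)] tm_p_F1F5) (TM.add' h2 (TM.pmul h2 [(443 / 500), (17 / 10), (17 / 50), (319 / 125)] tm_p_F2F2) (TM.add' h2 (TM.pmul h2 [(129 / 125), (-459 / 250), (-72 / 125), (-3 / 25)]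 tm_p_F2F3) (TM.pmul h2 [0, (-129 / 250), (153 / 250), (18 / 125), (3 / 125)] tm_p_F3F3))))))))))) (TM.add' h2 (TM.mul' h2 tm_u_g tm_q_D42_g) (TM.add' h2 (TM.mul' h2 tm_u_g1 tm_q_D42_g1) (TM.add' h2 (TM.mul' h2 tm_u_g2 tm_q_D42_g2) (TM.add' h2 (TM.mul' h2 tm_u_k tm_q_D42_k) (TM.add' h2 (TM.mul' h2 tm_u_k1 tm_q_D42_k1) (TM.mul' h2 tm_u_k2 tm_q_D42_k2)))))))) h2 (by decide +kernel)

def l_q_D44_g : List ℚ := L 1000000000000000000 [94444444444444400, -38888888888888896, 7275132275132272, -831128747795440, 65678277483744, -3851900842592, 175537074816, -6422088064, 193314512, -4880928, 105056, -1952, 16, 0, 0, 0, 0, 0, 0, 0]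
noncomputable def sq_D44_g : PowerSeries ℝ := ((P [16] * ((Fs 4 1) * (Fs 4 1))) + ((P [192] * ((Fs 4 1) * (Fs 5 1))) + (P [0, (-48)] * ((Fs 5 1) * (Fs 5 1)))))
theorem tm_q_D44_g : TM 2 sq_D44_g l_q_D44_g (233 / 625000000000000) :=
  TM.round ((TM.add' h2 (TM.pmul h2 [16] tm_p_F4F4) (TM.add' h2 (TM.pmul h2 [192] tm_p_F4F5) (TM.pmul h2 [0, (-48)] tm_p_F5F5)))) h2 (by decide +kernel)

def l_q_D44_g1 : List ℚ := L 1000000000000000000 [-180555555555555544, 88888888888888832, -19351851851851880, 2522045855379224, -223903218694848, 14574759945088, -729977347608, 29113466096, -948818872, 25785600, -594040, 11776, -248, 0, 0, 0, 0, 0, 0, 0]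
noncomputable def sq_D44_g1 : PowerSeries ℝ := ((P [(-104)] * ((Fs 4 1) * (Fs 4 1))) + (P [0, 48] * ((Fs 4 1) * (Fs 5 1))))
theorem tm_q_D44_g1 : TM 2 sq_D44_g1 l_q_D44_g1 (971 / 2500000000000000) :=
  TM.round ((TM.add' h2 (TM.pmul h2 [(-104)] tm_p_F4F4) (TM.pmul h2 [0, 48] tm_p_F4F5))) h2 (by decide +kernel)

def l_q_D44_g2 : List ℚ := L 1000000000000000000 [0, -13888888888888888, 5555555555555552, -1018518518518520, 114638447971784, -8956128747792, 520527140896, -23547656376, 856278416, -25643752, 644640, -13816, 256, -8, 0, 0, 0, 0, 0, 0]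
noncomputable def sq_D44_g2 : PowerSeries ℝ := (P [0, (-8)] * ((Fs 4 1) * (Fs 4 1)))
theorem tm_q_D44_g2 : TM 2 sq_D44_g2 l_q_D44_g2 (1089 / 25000000000000000) :=
  TM.round ((TM.pmul h2 [0, (-8)] tm_p_F4F4)) h2 (by decide +kernel)

def l_q_D44_k : List ℚ := L 1000000000000000000 [-1466666666666666768, 769444444444444424, -178571428571428552, 24771825396825456, -2335758377424992, 161090902410376, -8527180980888, 358566585704, -12292535400, 350652472, -8461264, 175080, -3152, 16, 0, 0, 0, 0, 0, 0]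
noncomputable def sq_D44_k : PowerSeries ℝ := ((P [(-16)] * ((Fs 2 1) * (Fs 4 1))) + ((P [(-72)] * ((Fs 2 1) * (Fs 5 1))) + ((P [(-120)] * ((Fs 3 1) * (Fs 4 1))) + (P [0, 48] * ((Fs 3 1) * (Fs 5 1))))))
theorem tm_q_D44_k : TM 2 sq_D44_k l_q_D44_k (1101 / 1000000000000000) :=
  TM.round ((TM.add' h2 (TM.pmul h2 [(-16)] tm_p_F2F4) (TM.add' h2 (TM.pmul h2 [(-72)] tm_p_F2F5) (TM.add' h2 (TM.pmul h2 [(-120)] tm_p_F3F4) (TM.pmul h2 [0, 48] tm_p_F3F5))))) h2 (by decide +kernel)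

def l_q_D44_k1 : List ℚ := L 1000000000000000000 [2000000000000000064, -1333333333333333344, 374999999999999928, -61111111111111128, 6620370370370352, -515873015872992, 30450837742536, -1412859382440, 52982226888, -1641200376, 42739560, -949344, 18168, -336, 0, 0, 0, 0, 0, 0]
noncomputable def sq_D44_k1 : PowerSeries ℝ := ((P [96] * ((Fs 2 1) * (Fs 4 1))) + ((P [0, (-24)] * ((Fs 2 1) * (Fs 5 1))) + (P [0, (-24)] * ((Fs 3 1) * (Fs 4 1)))))
theorem tm_q_D44_k1 : TM 2 sq_D44_k1 l_q_D44_k1 (2229 / 2500000000000000) :=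
  TM.round ((TM.add' h2 (TM.pmul h2 [96] tm_p_F2F4) (TM.add' h2 (TM.pmul h2 [0, (-24)] tm_p_F2F5) (TM.pmul h2 [0, (-24)] tm_p_F3F4)))) h2 (by decide +kernel)

def l_q_D44_k2 : List ℚ := L 1000000000000000000 [0, 166666666666666672, -88888888888888888, 20833333333333328, -2910052910052912, 275848765432096, -19106407995296, 1015027924752, -42813920680, 1471728528, -42082064, 1017608, -21096, 376, -8, 0, 0, 0, 0, 0]
noncomputable def sq_D44_k2 : PowerSeries ℝ := (P [0, 8] * ((Fs 2 1) * (Fs 4 1)))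
theorem tm_q_D44_k2 : TM 2 sq_D44_k2 l_q_D44_k2 (8519 / 100000000000000000) :=
  TM.round ((TM.pmul h2 [0, 8] tm_p_F2F4)) h2 (by decide +kernel)

def l_D44 : List ℚ := L 1000000000 [-1002281117, 9481412409, -8301211395, 3067140771, -643335620, 87914156, -8491104, 611841, -34203, 1528, -56]
noncomputable def serD44 : PowerSeries ℝ := (((P [(-714 / 125), (153 / 125)] * ((Fs 0 1) * (Fs 2 1))) + ((P [(459 / 250), (918 / 125)] * ((Fs 0 1) * (Fs 3 1))) + ((P [(-1 / 125), (-1522 / 125), (128 / 125)] * ((Fs 0 1) * (Fs 4 1))) + ((P [(228 / 125), (63 / 125), (768 / 125)] * ((Fs 0 1) * (Fs 5 1))) + ((P [(153 / 50), (1377 / 125)] * ((Fs 1 1) * (Fs 2 1))) + ((P [0, (-153 / 125), (-459 / 125)] * ((Fs 1 1) * (Fs 3 1))) + ((P [(684 / 125), (147 / 125), (1536 / 125)] * ((Fs 1 1) * (Fs 4 1))) + ((P [0, (-228 / 125), (-42 / 125), (-384 / 125)] * ((Fs 1 1) * (Fs 5 1))) + ((P [(1 / 500), (761 / 250), (-32 / 125)] * ((Fs 2 1) * (Fs 2 1))) + ((P [(-228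 / 125), (-21 / 50), (-576 / 125)] * ((Fs 2 1) * (Fs 3 1))) + (P [0, (57 / 125), (21 / 250), (96 / 125)] * ((Fs 3 1) * (Fs 3 1))))))))))))) + ((sh0 * sq_D44_g) + (((der sh0) * sq_D44_g1) + (((der (der sh0)) * sq_D44_g2) + ((sh1 * sq_D44_k) + (((der sh1) * sq_D44_k1) + ((der (der sh1)) * sq_D44_k2)))))))
theorem tm_D44 : TM 2 serD44 l_D44 (481 / 100000000) :=
  TM.round ((TM.add' h2 (TM.add' h2 (TM.pmul h2 [(-714 / 125), (153 / 125)] tm_p_F0F2) (TM.add' h2 (TM.pmul h2 [(459 / 250), (918 / 125)] tm_p_F0F3) (TM.add' h2 (TM.pmul h2 [(-1 / 125), (-1522 / 125), (128 / 125)] tm_p_F0F4) (TM.add' h2 (TM.pmul h2 [(228 / 125), (63 / 125), (768 / 125)] tm_p_F0F5) (TM.add' h2 (TM.pmul h2 [(153 / 50), (1377 / 125)] tm_p_F1F2) (TM.add' h2 (TM.pmul h2 [0, (-153 / 125), (-459 / 125)] tm_p_F1F3) (TM.add' h2 (TM.pmul h2 [(684 / 125), (147 / 125), (1536 / 125)] tm_p_F1F4) (TM.add' h2 (TM.pmul h2 [0, (-228 / 125), (-42 / 125), (-384 / 125)] tm_p_F1F5)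 (TM.add' h2 (TM.pmul h2 [(1 / 500), (761 / 250), (-32 / 125)] tm_p_F2F2) (TM.add' h2 (TM.pmul h2 [(-228 / 125), (-21 / 50), (-576 / 125)] tm_p_F2F3) (TM.pmul h2 [0, (57 / 125), (21 / 250), (96 / 125)] tm_p_F3F3))))))))))) (TM.add' h2 (TM.mul' h2 tm_u_g tm_q_D44_g) (TM.add' h2 (TM.mul' h2 tm_u_g1 tm_q_D44_g1) (TM.add' h2 (TM.mul' h2 tm_u_g2 tm_q_D44_g2) (TM.add' h2 (TM.mul' h2 tm_u_k tm_q_D44_k) (TM.add' h2 (TM.mul' h2 tm_u_k1 tm_q_D44_k1) (TM.mul' h2 tm_u_k2 tm_q_D44_k2)))))))) h2 (by decide +kernel)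

def l_q_D51_k : List ℚ := L 1000000000000000000 [0, 0, 0, -41666666666666664, 44444444444444420, -14305555555555564, 2420634920634928, -261518959435624, 19933127571984, -1139582633456, 50948565624, -1836315796, 54613868, -1365288, 29144, -548, 4, 0, 0, 0]
noncomputable def sq_D51_k : PowerSeries ℝ := ((P [0, 0, 0, (-24), 4] * ((Fs 4 1) * (Fs 4 1))) + ((P [0, 0, 0, 0, 60] * ((Fs 4 1) * (Fs 5 1))) + (P [0, 0, 0, 0, 0, (-12)] * ((Fs 5 1) * (Fs 5 1)))))
theorem tm_q_D51_k : TM 2 sq_D51_k l_q_D51_k (89 / 40000000000000) :=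
  TM.round ((TM.add' h2 (TM.pmul h2 [0, 0, 0, (-24), 4] tm_p_F4F4) (TM.add' h2 (TM.pmul h2 [0, 0, 0, 0, 60] tm_p_F4F5) (TM.pmul h2 [0, 0, 0, 0, 0, (-12)] tm_p_F5F5)))) h2 (by decide +kernel)

def l_q_D51_k1 : List ℚ := L 1000000000000000000 [0, 0, 0, 0, -52083333333333330, 24999999999999984, -5347222222222230, 687830687830698, -60453869047608, 3903953556720, -194268165090, 7706505732, -250026594, 6768720, -155418, 3072, -66, 0, 0, 0]
noncomputable def sq_D51_k1 : PowerSeries ℝ := ((P [0, 0, 0, 0, (-30)] * ((Fs 4 1) * (Fs 4 1))) + (P [0, 0, 0, 0, 0, 12] * ((Fs 4 1) * (Fs 5 1))))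
theorem tm_q_D51_k1 : TM 2 sq_D51_k1 l_q_D51_k1 (27 / 15625000000000) :=
  TM.round ((TM.add' h2 (TM.pmul h2 [0, 0, 0, 0, (-30)] tm_p_F4F4) (TM.pmul h2 [0, 0, 0, 0, 0, 12] tm_p_F4F5))) h2 (by decide +kernel)

def l_q_D51_k2 : List ℚ := L 1000000000000000000 [0, 0, 0, 0, 0, -3472222222222222, 1388888888888888, -254629629629630, 28659611992946, -2239032186948, 130131785224, -5886914094, 214069604, -6410938, 161160, -3454, 64, -2, 0, 0]
noncomputable def sq_D51_k2 : PowerSeries ℝ := (P [0, 0, 0, 0, 0, (-2)] * ((Fs 4 1) * (Fs 4 1)))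
theorem tm_q_D51_k2 : TM 2 sq_D51_k2 l_q_D51_k2 (1743 / 10000000000000000) :=
  TM.round ((TM.pmul h2 [0, 0, 0, 0, 0, (-2)] tm_p_F4F4)) h2 (by decide +kernel)

def l_D51 : List ℚ := L 1000000000 [0, 248000000, -286200000, 591054731, -771028006, 532788208, -176919836, 33758897, -4202043, 369585, -24326, 1239]
noncomputable def serD51 : PowerSeries ℝ := (((P [0, (-123 / 125), (-103 / 250), (246 / 125), (-103 / 25)] * ((Fs 0 1) * (Fs 4 1))) + ((P [0, 0, (-123 / 250), (21 / 125), (-252 / 125)] * ((Fs 0 1) * (Fs 5 1))) + ((P [0, 0, (-123 / 50), (63 / 125), (-588 / 125)] * ((Fs 1 1) * (Fs 4 1))) + ((P [0, 0, 0, (123 / 125), (-21 / 125), (168 / 125)] * ((Fs 1 1) * (Fs 5 1))) + ((P [0, (123 / 125), (-21 / 125), (168 / 125)] * ((Fs 2 1) * (Fs 2 1))) + ((P [0, (258 / 125), (-8 / 125), (161 / 125), (8 / 25), (254 / 125)] * ((Fs 2 1) * (Fs 4 1))) + ((P [0, 0, (129 / 125), (-459 / 250), (-72 / 125), (-3 / 25)] * ((Fs 2 1) * (Fs 5 1))) + ((P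 [0, 0, (258 / 125), (-153 / 50), (-108 / 125), (-21 / 125)] * ((Fs 3 1) * (Fs 4 1))) + (P [0, 0, 0, (-129 / 125), (153 / 125), (36 / 125), (6 / 125)] * ((Fs 3 1) * (Fs 5 1))))))))))) + ((sh1 * sq_D51_k) + (((der sh1) * sq_D51_k1) + ((der (der sh1)) * sq_D51_k2))))
theorem tm_D51 : TM 2 serD51 l_D51 (227 / 1000000) :=
  TM.round ((TM.add' h2 (TM.add' h2 (TM.pmul h2 [0, (-123 / 125), (-103 / 250), (246 / 125), (-103 / 25)] tm_p_F0F4) (TM.add' h2 (TM.pmul h2 [0, 0, (-123 / 250), (21 / 125), (-252 / 125)] tm_p_F0F5) (TM.add' h2 (TM.pmul h2 [0, 0, (-123 / 50), (63 / 125), (-588 / 125)] tm_p_F1F4) (TM.add' h2 (TM.pmul h2 [0, 0, 0, (123 / 125), (-21 / 125), (168 / 125)] tm_p_F1F5) (TM.add' h2 (TM.pmul h2 [0, (123 / 125), (-21 / 125), (168 / 125)] tm_p_F2F2) (TM.add' h2 (TM.pmul h2 [0, (258 / 125), (-8 / 125), (161 / 125), (8 / 25), (254 / 125)] tm_p_F2F4) (TM.add' h2 (TM.pmul h2 [0, 0, (129 / 125), (-459 / 250), (-72 / 125), (-3 / 25)]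 tm_p_F2F5) (TM.add' h2 (TM.pmul h2 [0, 0, (258 / 125), (-153 / 50), (-108 / 125), (-21 / 125)] tm_p_F3F4) (TM.pmul h2 [0, 0, 0, (-129 / 125), (153 / 125), (36 / 125), (6 / 125)] tm_p_F3F5))))))))) (TM.add' h2 (TM.mul' h2 tm_u_k tm_q_D51_k) (TM.add' h2 (TM.mul' h2 tm_u_k1 tm_q_D51_k1) (TM.mul' h2 tm_u_k2 tm_q_D51_k2))))) h2 (by decide +kernel)

def l_q_D53_k : List ℚ := L 1000000000000000000 [0, -83333333333333328, -77777777777777744, 38888888888888896, -7619047619047600, 884865520282240, -70363021751808, 4134472719056, -188381251008, 6883675648, -206851952, 5212464, -111968, 2048, -16, 0, 0, 0, 0, 0]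
noncomputable def sq_D53_k : PowerSeries ℝ := ((P [0, (-48), (-16)] * ((Fs 4 1) * (Fs 4 1))) + ((P [0, 0, (-240)] * ((Fs 4 1) * (Fs 5 1))) + (P [0, 0, 0, 48] * ((Fs 5 1) * (Fs 5 1)))))
theorem tm_q_D53_k : TM 2 sq_D53_k l_q_D53_k (1963 / 1000000000000000) :=
  TM.round ((TM.add' h2 (TM.pmul h2 [0, (-48), (-16)] tm_p_F4F4) (TM.add' h2 (TM.pmul h2 [0, 0, (-240)] tm_p_F4F5) (TM.pmul h2 [0, 0, 0, 48] tm_p_F5F5)))) h2 (by decide +kernel)

def l_q_D53_k1 : List ℚ := L 1000000000000000000 [0, 0, 208333333333333320, -99999999999999936, 21388888888888920, -2751322751322792, 241815476190432, -15615814226880, 777072660360, -30826022928, 1000106376, -27074880, 621672, -12288, 264, 0, 0, 0, 0, 0]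
noncomputable def sq_D53_k1 : PowerSeries ℝ := ((P [0, 0, 120] * ((Fs 4 1) * (Fs 4 1))) + (P [0, 0, 0, (-48)] * ((Fs 4 1) * (Fs 5 1))))
theorem tm_q_D53_k1 : TM 2 sq_D53_k1 l_q_D53_k1 (27 / 15625000000000) :=
  TM.round ((TM.add' h2 (TM.pmul h2 [0, 0, 120] tm_p_F4F4) (TM.pmul h2 [0, 0, 0, (-48)] tm_p_F4F5))) h2 (by decide +kernel)

def l_q_D53_k2 : List ℚ := L 1000000000000000000 [0, 0, 0, 13888888888888888, -5555555555555552, 1018518518518520, -114638447971784, 8956128747792, -520527140896, 23547656376, -856278416, 25643752, -644640, 13816, -256, 8, 0, 0, 0, 0]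
noncomputable def sq_D53_k2 : PowerSeries ℝ := (P [0, 0, 0, 8] * ((Fs 4 1) * (Fs 4 1)))
theorem tm_q_D53_k2 : TM 2 sq_D53_k2 l_q_D53_k2 (1743 / 10000000000000000) :=
  TM.round ((TM.pmul h2 [0, 0, 0, 8] tm_p_F4F4)) h2 (by decide +kernel)

def l_D53 : List ℚ := L 1000000000 [-70566667, -465068316, -1197509012, 1244076918, -740933997, 232377576, -42992479, 5233499, -452169, 29285, -1473]
noncomputable def serD53 : PowerSeries ℝ := (((P [(29 / 25), (-369 / 125), (2927 / 250), (153 / 125)] * ((Fs 0 1) * (Fs 4 1))) + ((P [(123 / 125), (-42 / 125), (1467 / 250), (918 / 125)] * ((Fs 0 1) * (Fs 5 1))) + ((P [(123 / 25), (-126 / 125), (3423 / 250), (1836 / 125)] * ((Fs 1 1) * (Fs 4 1))) + ((P [0, (-246 / 125), (42 / 125), (-489 / 125), (-459 / 125)] * ((Fs 1 1) * (Fs 5 1))) + ((P [(-29 / 100), (-99 / 125), (-2351 / 250)] * ((Fs 2 1) * (Fs 2 1))) + ((P [(-369 / 250), (42 / 125), (-84 / 25)] * ((Fs 2 1) * (Fs 3 1))) + ((P [(-596 / 125), (-922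 / 125), (-177 / 125), (-323 / 125), (-64 / 125)] * ((Fs 2 1) * (Fs 4 1))) + ((P [(-258 / 125), (459 / 125), (-84 / 125), (-9 / 50), (-576 / 125)] * ((Fs 2 1) * (Fs 5 1))) + ((P [0, (123 / 250), (-21 / 250), (84 / 125)] * ((Fs 3 1) * (Fs 3 1))) + ((P [(-516 / 125), (153 / 25), (-126 / 125), (-63 / 250), (-768 / 125)] * ((Fs 3 1) * (Fs 4 1))) + (P [0, (258 / 125), (-306 / 125), (42 / 125), (9 / 125), (192 / 125)] * ((Fs 3 1) * (Fs 5 1))))))))))))) + ((sh1 * sq_D53_k) + (((der sh1) * sq_D53_k1) + ((der (der sh1)) * sq_D53_k2))))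
theorem tm_D53 : TM 2 serD53 l_D53 (133 / 1000000) :=
  TM.round ((TM.add' h2 (TM.add' h2 (TM.pmul h2 [(29 / 25), (-369 / 125), (2927 / 250), (153 / 125)] tm_p_F0F4) (TM.add' h2 (TM.pmul h2 [(123 / 125), (-42 / 125), (1467 / 250), (918 / 125)] tm_p_F0F5) (TM.add' h2 (TM.pmul h2 [(123 / 25), (-126 / 125), (3423 / 250), (1836 / 125)] tm_p_F1F4) (TM.add' h2 (TM.pmul h2 [0, (-246 / 125), (42 / 125), (-489 / 125), (-459 / 125)] tm_p_F1F5) (TM.add' h2 (TM.pmul h2 [(-29 / 100), (-99 / 125), (-2351 / 250)] tm_p_F2F2) (TM.add' h2 (TM.pmul h2 [(-369 / 250), (42 / 125), (-84 / 25)] tm_p_F2F3) (TM.add' h2 (TM.pmul h2 [(-596 / 125), (-922 / 125), (-177 / 125), (-323 / 125), (-64 / 125)] tm_p_F2F4) (TM.add' h2 (TM.pmul h2 [(-258 / 125), (459 / 125), (-84 / 125), (-9 / 50), (-576 / 125)] tm_p_F2F5) (TM.add' h2 (TM.pmul h2 [0, (123 / 250), (-21 / 250), (84 / 125)] tm_p_F3F3) (TM.add' h2 (TM.pmul h2 [(-516 / 125), (153 / 25), (-126 / 125), (-63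 / 250), (-768 / 125)] tm_p_F3F4) (TM.pmul h2 [0, (258 / 125), (-306 / 125), (42 / 125), (9 / 125), (192 / 125)] tm_p_F3F5))))))))))) (TM.add' h2 (TM.mul' h2 tm_u_k tm_q_D53_k) (TM.add' h2 (TM.mul' h2 tm_u_k1 tm_q_D53_k1) (TM.mul' h2 tm_u_k2 tm_q_D53_k2))))) h2 (by decide +kernel)

def l_q_D55_k : List ℚ := L 1000000000000000000 [111111111111111056, -45000000000000016, 8306878306878304, -938602292768992, 73486184597184, -4275758657312, 193518921504, -7037538160, 210719792, -5295360, 113504, -2096, 16, 0, 0, 0, 0, 0, 0, 0]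
noncomputable def sq_D55_k : PowerSeries ℝ := ((P [16] * ((Fs 4 1) * (Fs 4 1))) + ((P [240] * ((Fs 4 1) * (Fs 5 1))) + (P [0, (-48)] * ((Fs 5 1) * (Fs 5 1)))))
theorem tm_q_D55_k : TM 2 sq_D55_k l_q_D55_k (2127 / 5000000000000000) :=
  TM.round ((TM.add' h2 (TM.pmul h2 [16] tm_p_F4F4) (TM.add' h2 (TM.pmul h2 [240] tm_p_F4F5) (TM.pmul h2 [0, (-48)] tm_p_F5F5)))) h2 (by decide +kernel)

def l_q_D55_k1 : List ℚ := L 1000000000000000000 [-208333333333333320, 99999999999999936, -21388888888888920, 2751322751322792, -241815476190432, 15615814226880, -777072660360, 30826022928, -1000106376, 27074880, -621672, 12288, -264, 0, 0, 0, 0, 0, 0, 0]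
noncomputable def sq_D55_k1 : PowerSeries ℝ := ((P [(-120)] * ((Fs 4 1) * (Fs 4 1))) + (P [0, 48] * ((Fs 4 1) * (Fs 5 1))))
theorem tm_q_D55_k1 : TM 2 sq_D55_k1 l_q_D55_k1 (27 / 62500000000000) :=
  TM.round ((TM.add' h2 (TM.pmul h2 [(-120)] tm_p_F4F4) (TM.pmul h2 [0, 48] tm_p_F4F5))) h2 (by decide +kernel)

def l_q_D55_k2 : List ℚ := L 1000000000000000000 [0, -13888888888888888, 5555555555555552, -1018518518518520, 114638447971784, -8956128747792, 520527140896, -23547656376, 856278416, -25643752, 644640, -13816, 256, -8, 0, 0, 0, 0, 0, 0]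
noncomputable def sq_D55_k2 : PowerSeries ℝ := (P [0, (-8)] * ((Fs 4 1) * (Fs 4 1)))
theorem tm_q_D55_k2 : TM 2 sq_D55_k2 l_q_D55_k2 (1089 / 25000000000000000) :=
  TM.round ((TM.pmul h2 [0, (-8)] tm_p_F4F4)) h2 (by decide +kernel)

def l_D55 : List ℚ := L 1000000000 [-393170752, -694824911, 867732191, -323503836, 63609395, -7956134, 697361, -45546, 2306]
noncomputable def serD55 : PowerSeries ℝ := (((P [(1887 / 125), (-306 / 125)] * ((Fs 0 1) * (Fs 4 1))) + ((P [(-459 / 125), (-1836 / 125)] * ((Fs 0 1) * (Fs 5 1))) + ((P [(-1071 / 125), (-3672 / 125)] * ((Fs 1 1) * (Fs 4 1))) + ((P [0, (306 / 125), (918 / 125)] * ((Fs 1 1) * (Fs 5 1))) + ((P [(-1887 / 500), (153 / 250)] * ((Fs 2 1) * (Fs 2 1))) + ((P [(153 / 50), (1377 / 125)] * ((Fs 2 1) * (Fs 3 1))) + ((P [(-22 / 125), (-1906 / 125), (128 / 125)] * ((Fs 2 1) * (Fs 4 1))) + ((P [(456 / 125), (21 / 25), (1152 / 125)] * ((Fs 2 1) * (Fs 5 1))) + ((P [0, (-153 / 250), (-459 / 250)]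 * ((Fs 3 1) * (Fs 3 1))) + ((P [(684 / 125), (147 / 125), (1536 / 125)] * ((Fs 3 1) * (Fs 4 1))) + (P [0, (-228 / 125), (-42 / 125), (-384 / 125)] * ((Fs 3 1) * (Fs 5 1))))))))))))) + ((sh1 * sq_D55_k) + (((der sh1) * sq_D55_k1) + ((der (der sh1)) * sq_D55_k2))))
theorem tm_D55 : TM 2 serD55 l_D55 (259 / 5000000) :=
  TM.round ((TM.add' h2 (TM.add' h2 (TM.pmul h2 [(1887 / 125), (-306 / 125)] tm_p_F0F4) (TM.add' h2 (TM.pmul h2 [(-459 / 125), (-1836 / 125)] tm_p_F0F5) (TM.add' h2 (TM.pmul h2 [(-1071 / 125), (-3672 / 125)] tm_p_F1F4) (TM.add' h2 (TM.pmul h2 [0, (306 / 125), (918 / 125)] tm_p_F1F5) (TM.add' h2 (TM.pmul h2 [(-1887 / 500), (153 / 250)] tm_p_F2F2) (TM.add' h2 (TM.pmul h2 [(153 / 50), (1377 / 125)] tm_p_F2F3) (TM.add' h2 (TM.pmul h2 [(-22 / 125), (-1906 / 125), (128 / 125)] tm_p_F2F4) (TM.add' h2 (TM.pmul h2 [(456 / 125), (21 / 25), (1152 / 125)] tm_p_F2F5) (TM.add' h2 (TM.pmul h2 [0, (-153 / 250), (-459 / 250)] tm_p_F3F3)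 (TM.add' h2 (TM.pmul h2 [(684 / 125), (147 / 125), (1536 / 125)] tm_p_F3F4) (TM.pmul h2 [0, (-228 / 125), (-42 / 125), (-384 / 125)] tm_p_F3F5))))))))))) (TM.add' h2 (TM.mul' h2 tm_u_k tm_q_D55_k) (TM.add' h2 (TM.mul' h2 tm_u_k1 tm_q_D55_k1) (TM.mul' h2 tm_u_k2 tm_q_D55_k2))))) h2 (by decide +kernel)

def l_D60 : List ℚ := L 1000000000 [0, 0, 0, 6666667, 1784028, 13926806, -7530142, 2118967, -390024, 49961]
noncomputable def serD60 : PowerSeries ℝ := ((P [0, 0, 0, (123 / 250), (-21 / 250), (84 / 125)] * ((Fs 2 1) * (Fs 4 1))) + ((P [0, 0, 0, (-258 / 125), (1973 / 500), (299 / 250), (32 / 125), (31 / 125)] * ((Fs 4 1) * (Fs 4 1))) + ((P [0, 0, 0, 0, (258 / 125), (-153 / 50), (-108 / 125), (-21 / 125)] * ((Fs 4 1) * (Fs 5 1))) + (P [0, 0, 0, 0, 0, (-129 / 250), (153 / 250), (18 / 125), (3 / 125)] * ((Fs 5 1) * (Fs 5 1))))))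
theorem tm_D60 : TM 2 serD60 l_D60 (549 / 100000) :=
  TM.round ((TM.add' h2 (TM.pmul h2 [0, 0, 0, (123 / 250), (-21 / 250), (84 / 125)] tm_p_F2F4) (TM.add' h2 (TM.pmul h2 [0, 0, 0, (-258 / 125), (1973 / 500), (299 / 250), (32 / 125), (31 / 125)] tm_p_F4F4) (TM.add' h2 (TM.pmul h2 [0, 0, 0, 0, (258 / 125), (-153 / 50), (-108 / 125), (-21 / 125)] tm_p_F4F5) (TM.pmul h2 [0, 0, 0, 0, 0, (-129 / 250), (153 / 250), (18 / 125), (3 / 125)] tm_p_F5F5))))) h2 (by decide +kernel)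

def l_D62 : List ℚ := L 1000000000 [0, -82000000, 7397222, -41259722, -224418327, 131367731, -34690619, 5618069, -627057, 51404, -3228]
noncomputable def serD62 : PowerSeries ℝ := ((P [0, (-492 / 125), (1 / 125), (-639 / 250), (-2407 / 250)] * ((Fs 2 1) * (Fs 4 1))) + ((P [0, 0, (-369 / 250), (42 / 125), (-84 / 25)] * ((Fs 2 1) * (Fs 5 1))) + ((P [0, 0, (-123 / 50), (63 / 125), (-588 / 125)] * ((Fs 3 1) * (Fs 4 1))) + ((P [0, 0, 0, (123 / 125), (-21 / 125), (168 / 125)] * ((Fs 3 1) * (Fs 5 1))) + ((P [0, 0, (-749 / 125), (-62 / 25), (-277 / 500), (897 / 250), (-32 / 125)] * ((Fs 4 1) * (Fs 4 1))) + ((P [0, 0, (-1032 / 125), (306 / 25), (18 / 25), (21 / 250), (-768 / 125)] * ((Fs 4 1) * (Fs 5 1))) + (P [0, 0, 0, (258 / 125), (-306 / 125), (-3 / 25), (-3 / 250), (96 / 125)] * ((Fs 5 1) * (Fs 5 1)))))))))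
theorem tm_D62 : TM 2 serD62 l_D62 (357 / 1000000) :=
  TM.round ((TM.add' h2 (TM.pmul h2 [0, (-492 / 125), (1 / 125), (-639 / 250), (-2407 / 250)] tm_p_F2F4) (TM.add' h2 (TM.pmul h2 [0, 0, (-369 / 250), (42 / 125), (-84 / 25)] tm_p_F2F5) (TM.add' h2 (TM.pmul h2 [0, 0, (-123 / 50), (63 / 125), (-588 / 125)] tm_p_F3F4) (TM.add' h2 (TM.pmul h2 [0, 0, 0, (123 / 125), (-21 / 125), (168 / 125)] tm_p_F3F5) (TM.add' h2 (TM.pmul h2 [0, 0, (-749 / 125), (-62 / 25), (-277 / 500), (897 / 250), (-32 / 125)] tm_p_F4F4) (TM.add' h2 (TM.pmul h2 [0, 0, (-1032 / 125), (306 / 25), (18 / 25), (21 / 250), (-768 / 125)] tm_p_F4F5) (TM.pmul h2 [0, 0, 0, (258 / 125), (-306 / 125), (-3 / 25), (-3 / 250), (96 / 125)] tm_p_F5F5)))))))) h2 (by decide +kernel)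

def l_D64 : List ℚ := L 1000000000 [87402778, -37780556, 735496204, -230233354, 19615215, 1844425, -600970, 71012, -5342]
noncomputable def serD64 : PowerSeries ℝ := ((P [(166 / 125), (12 / 25), (3529 / 125), (153 / 125)] * ((Fs 2 1) * (Fs 4 1))) + ((P [(369 / 125), (-84 / 125), (489 / 50), (1377 / 125)] * ((Fs 2 1) * (Fs 5 1))) + ((P [(123 / 25), (-126 / 125), (3423 / 250), (1836 / 125)] * ((Fs 3 1) * (Fs 4 1))) + ((P [0, (-246 / 125), (42 / 125), (-489 / 125), (-459 / 125)] * ((Fs 3 1) * (Fs 5 1))) + ((P [(749 / 125), (766 / 125), (121 / 125), (-1398 / 125), (128 / 125)] * ((Fs 4 1) * (Fs 4 1))) + ((P [(1032 / 125), (-306 / 25), (936 / 125), (42 / 25), (3072 / 125)] * ((Fs 4 1) * (Fs 5 1))) + (P [0, (-258 / 125), (306 / 125), (-156 / 125), (-6 / 25), (-384 / 125)] * ((Fs 5 1) * (Fs 5 1)))))))))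
theorem tm_D64 : TM 2 serD64 l_D64 (41 / 250000) :=
  TM.round ((TM.add' h2 (TM.pmul h2 [(166 / 125), (12 / 25), (3529 / 125), (153 / 125)] tm_p_F2F4) (TM.add' h2 (TM.pmul h2 [(369 / 125), (-84 / 125), (489 / 50), (1377 / 125)] tm_p_F2F5) (TM.add' h2 (TM.pmul h2 [(123 / 25), (-126 / 125), (3423 / 250), (1836 / 125)] tm_p_F3F4) (TM.add' h2 (TM.pmul h2 [0, (-246 / 125), (42 / 125), (-489 / 125), (-459 / 125)] tm_p_F3F5) (TM.add' h2 (TM.pmul h2 [(749 / 125), (766 / 125), (121 / 125), (-1398 / 125), (128 / 125)] tm_p_F4F4) (TM.add' h2 (TM.pmul h2 [(1032 / 125), (-306 / 25), (936 / 125), (42 / 25), (3072 / 125)] tm_p_F4F5) (TM.pmul h2 [0, (-258 / 125), (306 / 125), (-156 / 125), (-6 / 25), (-384 / 125)] tm_p_F5F5)))))))) h2 (by decide +kernel)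

def l_D66 : List ℚ := L 1000000000 [302797222, -480138333, 191377209, -38512148, 4848575, -424779, 27620, -1392]
noncomputable def serD66 : PowerSeries ℝ := ((P [(2346 / 125), (-306 / 125)] * ((Fs 2 1) * (Fs 4 1))) + ((P [(-153 / 25), (-2754 / 125)] * ((Fs 2 1) * (Fs 5 1))) + ((P [(-1071 / 125), (-3672 / 125)] * ((Fs 3 1) * (Fs 4 1))) + ((P [0, (306 / 125), (918 / 125)] * ((Fs 3 1) * (Fs 5 1))) + ((P [(43 / 125), (458 / 25), (-128 / 125)] * ((Fs 4 1) * (Fs 4 1))) + ((P [(-1368 / 125), (-294 / 125), (-3072 / 125)] * ((Fs 4 1) * (Fs 5 1))) + (P [0, (228 / 125), (42 / 125), (384 / 125)] * ((Fs 5 1) * (Fs 5 1)))))))))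
theorem tm_D66 : TM 2 serD66 l_D66 (31 / 2000000) :=
  TM.round ((TM.add' h2 (TM.pmul h2 [(2346 / 125), (-306 / 125)] tm_p_F2F4) (TM.add' h2 (TM.pmul h2 [(-153 / 25), (-2754 / 125)] tm_p_F2F5) (TM.add' h2 (TM.pmul h2 [(-1071 / 125), (-3672 / 125)] tm_p_F3F4) (TM.add' h2 (TM.pmul h2 [0, (306 / 125), (918 / 125)] tm_p_F3F5) (TM.add' h2 (TM.pmul h2 [(43 / 125), (458 / 25), (-128 / 125)] tm_p_F4F4) (TM.add' h2 (TM.pmul h2 [(-1368 / 125), (-294 / 125), (-3072 / 125)] tm_p_F4F5) (TM.pmul h2 [0, (228 / 125), (42 / 125), (384 / 125)] tm_p_F5F5)))))))) h2 (by decide +kernel)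

def l_D71 : List ℚ := L 1000000000 [0, 0, 0, 1708333, -2478472, 8565694, -8443760, 2658083, -443854, 47505]
noncomputable def serD71 : PowerSeries ℝ := ((P [0, 0, 0, (123 / 125), (-271 / 500), (543 / 125), (-103 / 50)] * ((Fs 4 1) * (Fs 4 1))) + ((P [0, 0, 0, 0, (-123 / 50), (63 / 125), (-588 / 125)] * ((Fs 4 1) * (Fs 5 1))) + (P [0, 0, 0, 0, 0, (123 / 250), (-21 / 250), (84 / 125)] * ((Fs 5 1) * (Fs 5 1)))))
theorem tm_D71 : TM 2 serD71 l_D71 (83 / 20000) :=
  TM.round ((TM.add' h2 (TM.pmul h2 [0, 0, 0, (123 / 125), (-271 / 500), (543 / 125), (-103 / 50)] tm_p_F4F4) (TM.add' h2 (TM.pmul h2 [0, 0, 0, 0, (-123 / 50), (63 / 125), (-588 / 125)] tm_p_F4F5) (TM.pmul h2 [0, 0, 0, 0, 0, (123 / 250), (-21 / 250), (84 / 125)] tm_p_F5F5)))) h2 (by decide +kernel)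

def l_D73 : List ℚ := L 1000000000 [0, 3416667, 4063889, -16686111, 25235020, -2508363, -922179, 272580, -35724]
noncomputable def serD73 : PowerSeries ℝ := ((P [0, (246 / 125), (29 / 25), (-1011 / 125), (3151 / 500), (153 / 250)] * ((Fs 4 1) * (Fs 4 1))) + ((P [0, 0, (246 / 25), (-252 / 125), (231 / 10), (1836 / 125)] * ((Fs 4 1) * (Fs 5 1))) + (P [0, 0, 0, (-246 / 125), (42 / 125), (-33 / 10), (-459 / 250)] * ((Fs 5 1) * (Fs 5 1)))))
theorem tm_D73 : TM 2 serD73 l_D73 (87 / 50000) :=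
  TM.round ((TM.add' h2 (TM.pmul h2 [0, (246 / 125), (29 / 25), (-1011 / 125), (3151 / 500), (153 / 250)] tm_p_F4F4) (TM.add' h2 (TM.pmul h2 [0, 0, (246 / 25), (-252 / 125), (231 / 10), (1836 / 125)] tm_p_F4F5) (TM.pmul h2 [0, 0, 0, (-246 / 125), (42 / 125), (-33 / 10), (-459 / 250)] tm_p_F5F5)))) h2 (by decide +kernel)

def l_D75 : List ℚ := L 1000000000 [-6013889, 11211667, -30041415, -13582814, 7724813, -1527510, 176212, -13866]
noncomputable def serD75 : PowerSeries ℝ := ((P [(-187 / 125), (582 / 125), (-979 / 125), (-306 / 125)] * ((Fs 4 1) * (Fs 4 1))) + ((P [(-246 / 25), (252 / 125), (-4494 / 125), (-7344 / 125)] * ((Fs 4 1) * (Fs 5 1))) + (P [0, (246 / 125), (-42 / 125), (642 / 125), (918 / 125)] * ((Fs 5 1) * (Fs 5 1)))))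
theorem tm_D75 : TM 2 serD75 l_D75 (227 / 1000000) :=
  TM.round ((TM.add' h2 (TM.pmul h2 [(-187 / 125), (582 / 125), (-979 / 125), (-306 / 125)] tm_p_F4F4) (TM.add' h2 (TM.pmul h2 [(-246 / 25), (252 / 125), (-4494 / 125), (-7344 / 125)] tm_p_F4F5) (TM.pmul h2 [0, (246 / 125), (-42 / 125), (642 / 125), (918 / 125)] tm_p_F5F5)))) h2 (by decide +kernel)

def l_D77 : List ℚ := L 1000000000 [-33008333, 37881667, -12121944, 2018947, -214428, 16079]
noncomputable def serD77 : PowerSeries ℝ := ((P [(-561 / 25), (306 / 125)] * ((Fs 4 1) * (Fs 4 1))) + ((P [(2142 / 125), (7344 / 125)] * ((Fs 4 1) * (Fs 5 1))) + (P [0, (-306 / 125), (-918 / 125)] * ((Fs 5 1) * (Fs 5 1)))))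
theorem tm_D77 : TM 2 serD77 l_D77 (127 / 2000000) :=
  TM.round ((TM.add' h2 (TM.pmul h2 [(-561 / 25), (306 / 125)] tm_p_F4F4) (TM.add' h2 (TM.pmul h2 [(2142 / 125), (7344 / 125)] tm_p_F4F5) (TM.pmul h2 [0, (-306 / 125), (-918 / 125)] tm_p_F5F5)))) h2 (by decide +kernel)


end Pool.Agent.PPW.TM
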