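/-
MP_eb7570_an (helper61): the 18 functions `D_ij` of ND/Expand.lean as values of power series, with
polynomial approximations (generated by a script).
-/
import Pool.Agent.Lib.MP_eb7570_an.Bes.DData

set_option autoImplicit false
set_option linter.dupNamespace false
set_option linter.unusedSimpArgs false
set_option synthInstance.maxSize 4000

namespace Pool.Agent.PPW.TM

open PowerSeries
open Pool.Agent.PPW.Bes (F s0 s1 kap2)
open Pool.Agent.Lib.MPeb.ND

instance G2.instP (c : List ℚ) : G2 (P c) :=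
  G2.of_gd (ρ := ((5 / 2 : ℚ) : ℝ)) (by push_cast; norm_num) ⟨_, Bd_P (by norm_num) c⟩

instance G2.instsq_D20_g : G2 sq_D20_g := by unfold sq_D20_g; infer_instance
instance G2.instsq_D20_g1 : G2 sq_D20_g1 := by unfold sq_D20_g1; infer_instance
instance G2.instsq_D20_g2 : G2 sq_D20_g2 := by unfold sq_D20_g2; infer_instance
instance G2.instsq_D20_k : G2 sq_D20_k := by unfold sq_D20_k; infer_instance
theorem ev_serD20 {s : ℝ} (hs : |s| ≤ 2) :
    D20 s (ev sb s) (ev sa1 s) (ev (der sa1) s) (ev sa2 s) (ev sh0 s) (ev (der sh0) s) (ev (der (der sh0)) s) (ev sh1 s) (F 0 s) (F 1 s) (F 2 s) (F 4 s) (F 5 s) (kap2 - 1) (-(2 * kap2 / s0))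
      = ev serD20 s := by
  unfold serD20
  simp only [sq_D20_g, sq_D20_g1, sq_D20_g2, sq_D20_k, e2_add hs, e2_mul hs, ev_P, ev_C, evL, ev_F]
  unfold D20
  push_cast
  ring

theorem app_D20 {s : ℝ} (hs : |s| ≤ 2) :
    |D20 s (ev sb s) (ev sa1 s) (ev (der sa1) s) (ev sa2 s) (ev sh0 s) (ev (der sh0) s) (ev (der (der sh0)) s) (ev sh1 s) (F 0 s) (F 1 s) (F 2 s) (F 4 s) (F 5 s) (kap2 - 1) (-(2 * kap2 / s0))
      - evL l_D20 s| ≤ (7 / 250000) := by
  rw [ev_serD20 hs]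
  have h := tm_D20.abs_ev_sub_le h2 (s := s) (by push_cast; exact hs)
  push_cast at h
  exact h

instance G2.instsq_D22_g : G2 sq_D22_g := by unfold sq_D22_g; infer_instance
instance G2.instsq_D22_g1 : G2 sq_D22_g1 := by unfold sq_D22_g1; infer_instance
instance G2.instsq_D22_g2 : G2 sq_D22_g2 := by unfold sq_D22_g2; infer_instance
instance G2.instsq_D22_k : G2 sq_D22_k := by unfold sq_D22_k; infer_instance
instance G2.instsq_D22_k1 : G2 sq_D22_k1 := by unfold sq_D22_k1; infer_instance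
instance G2.instsq_D22_k2 : G2 sq_D22_k2 := by unfold sq_D22_k2; infer_instance
theorem ev_serD22 {s : ℝ} (hs : |s| ≤ 2) :
    D22 s (ev sb s) (ev sa1 s) (ev (der sa1) s) (ev sa2 s) (ev (der sa2) s) (ev sh0 s) (ev (der sh0) s) (ev (der (der sh0)) s) (ev sh1 s) (ev (der sh1) s) (ev (der (der sh1)) s) (F 0 s) (F 1 s) (F 2 s) (F 3 s) (F 4 s) (F 5 s) (kap2 - 1) (-(2 * kap2 / s0))
      = ev serD22 s := by
  unfold serD22
  simp only [sq_D22_g, sq_D22_g1, sq_D22_g2, sq_D22_k, sq_D22_k1, sq_D22_k2, e2_add hs, e2_mul hs, ev_P, ev_C, evL, ev_F]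
  unfold D22
  push_cast
  ring

theorem app_D22 {s : ℝ} (hs : |s| ≤ 2) :
    |D22 s (ev sb s) (ev sa1 s) (ev (der sa1) s) (ev sa2 s) (ev (der sa2) s) (ev sh0 s) (ev (der sh0) s) (ev (der (der sh0)) s) (ev sh1 s) (ev (der sh1) s) (ev (der (der sh1)) s) (F 0 s) (F 1 s) (F 2 s) (F 3 s) (F 4 s) (F 5 s) (kap2 - 1) (-(2 * kap2 / s0))
      - evL l_D22 s| ≤ (233 / 10000000) := by
  rw [ev_serD22 hs]
  have h := tm_D22.abs_ev_sub_le h2 (s := s) (by push_cast; exact hs)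
  push_cast at h
  exact h

instance G2.instsq_D31_g : G2 sq_D31_g := by unfold sq_D31_g; infer_instance
instance G2.instsq_D31_g1 : G2 sq_D31_g1 := by unfold sq_D31_g1; infer_instance
instance G2.instsq_D31_g2 : G2 sq_D31_g2 := by unfold sq_D31_g2; infer_instance
instance G2.instsq_D31_k : G2 sq_D31_k := by unfold sq_D31_k; infer_instance
instance G2.instsq_D31_k1 : G2 sq_D31_k1 := by unfold sq_D31_k1; infer_instance
instance G2.instsq_D31_k2 : G2 sq_D31_k2 := by unfold sq_D31_k2; infer_instance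
theorem ev_serD31 {s : ℝ} (hs : |s| ≤ 2) :
    D31 s (ev sa1 s) (ev sa2 s) (ev sh0 s) (ev (der sh0) s) (ev (der (der sh0)) s) (ev sh1 s) (ev (der sh1) s) (ev (der (der sh1)) s) (F 0 s) (F 1 s) (F 2 s) (F 3 s) (F 4 s) (F 5 s) (-(2 * kap2 / s0))
      = ev serD31 s := by
  unfold serD31
  simp only [sq_D31_g, sq_D31_g1, sq_D31_g2, sq_D31_k, sq_D31_k1, sq_D31_k2, e2_add hs, e2_mul hs, ev_P, ev_C, evL, ev_F]
  unfold D31
  push_cast
  ring

theorem app_D31 {s : ℝ} (hs : |s| ≤ 2) :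
    |D31 s (ev sa1 s) (ev sa2 s) (ev sh0 s) (ev (der sh0) s) (ev (der (der sh0)) s) (ev sh1 s) (ev (der sh1) s) (ev (der (der sh1)) s) (F 0 s) (F 1 s) (F 2 s) (F 3 s) (F 4 s) (F 5 s) (-(2 * kap2 / s0))
      - evL l_D31 s| ≤ (247 / 10000000) := by
  rw [ev_serD31 hs]
  have h := tm_D31.abs_ev_sub_le h2 (s := s) (by push_cast; exact hs)
  push_cast at h
  exact h

instance G2.instsq_D33_g : G2 sq_D33_g := by unfold sq_D33_g; infer_instance
instance G2.instsq_D33_g1 : G2 sq_D33_g1 := by unfold sq_D33_g1; infer_instance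
instance G2.instsq_D33_g2 : G2 sq_D33_g2 := by unfold sq_D33_g2; infer_instance
instance G2.instsq_D33_k : G2 sq_D33_k := by unfold sq_D33_k; infer_instance
instance G2.instsq_D33_k1 : G2 sq_D33_k1 := by unfold sq_D33_k1; infer_instance
instance G2.instsq_D33_k2 : G2 sq_D33_k2 := by unfold sq_D33_k2; infer_instance
theorem ev_serD33 {s : ℝ} (hs : |s| ≤ 2) :
    D33 s (ev sa2 s) (ev sh0 s) (ev (der sh0) s) (ev (der (der sh0)) s) (ev sh1 s) (ev (der sh1) s) (ev (der (der sh1)) s) (F 0 s) (F 1 s) (F 2 s) (F 3 s) (F 4 s) (F 5 s) (-(2 * kap2 / s0))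
      = ev serD33 s := by
  unfold serD33
  simp only [sq_D33_g, sq_D33_g1, sq_D33_g2, sq_D33_k, sq_D33_k1, sq_D33_k2, e2_add hs, e2_mul hs, ev_P, ev_C, evL, ev_F]
  unfold D33
  push_cast
  ring

theorem app_D33 {s : ℝ} (hs : |s| ≤ 2) :
    |D33 s (ev sa2 s) (ev sh0 s) (ev (der sh0) s) (ev (der (der sh0)) s) (ev sh1 s) (ev (der sh1) s) (ev (der (der sh1)) s) (F 0 s) (F 1 s) (F 2 s) (F 3 s) (F 4 s) (F 5 s) (-(2 * kap2 / s0))
      - evL l_D33 s| ≤ (69 / 5000000) := by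
  rw [ev_serD33 hs]
  have h := tm_D33.abs_ev_sub_le h2 (s := s) (by push_cast; exact hs)
  push_cast at h
  exact h

instance G2.instsq_D40_g : G2 sq_D40_g := by unfold sq_D40_g; infer_instance
instance G2.instsq_D40_g1 : G2 sq_D40_g1 := by unfold sq_D40_g1; infer_instance
instance G2.instsq_D40_g2 : G2 sq_D40_g2 := by unfold sq_D40_g2; infer_instance
instance G2.instsq_D40_k : G2 sq_D40_k := by unfold sq_D40_k; infer_instance
theorem ev_serD40 {s : ℝ} (hs : |s| ≤ 2) :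
    D40 s (ev sh0 s) (ev (der sh0) s) (ev (der (der sh0)) s) (ev sh1 s) (F 0 s) (F 1 s) (F 2 s) (F 4 s) (F 5 s)
      = ev serD40 s := by
  unfold serD40
  simp only [sq_D40_g, sq_D40_g1, sq_D40_g2, sq_D40_k, e2_add hs, e2_mul hs, ev_P, ev_C, evL, ev_F]
  unfold D40
  push_cast
  ring

theorem app_D40 {s : ℝ} (hs : |s| ≤ 2) :
    |D40 s (ev sh0 s) (ev (der sh0) s) (ev (der (der sh0)) s) (ev sh1 s) (F 0 s) (F 1 s) (F 2 s) (F 4 s) (F 5 s)
      - evL l_D40 s| ≤ (337 / 1000000) := by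
  rw [ev_serD40 hs]
  have h := tm_D40.abs_ev_sub_le h2 (s := s) (by push_cast; exact hs)
  push_cast at h
  exact h

instance G2.instsq_D42_g : G2 sq_D42_g := by unfold sq_D42_g; infer_instance
instance G2.instsq_D42_g1 : G2 sq_D42_g1 := by unfold sq_D42_g1; infer_instance
instance G2.instsq_D42_g2 : G2 sq_D42_g2 := by unfold sq_D42_g2; infer_instance
instance G2.instsq_D42_k : G2 sq_D42_k := by unfold sq_D42_k; infer_instance
instance G2.instsq_D42_k1 : G2 sq_D42_k1 := by unfold sq_D42_k1; infer_instance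
instance G2.instsq_D42_k2 : G2 sq_D42_k2 := by unfold sq_D42_k2; infer_instance
theorem ev_serD42 {s : ℝ} (hs : |s| ≤ 2) :
    D42 s (ev sh0 s) (ev (der sh0) s) (ev (der (der sh0)) s) (ev sh1 s) (ev (der sh1) s) (ev (der (der sh1)) s) (F 0 s) (F 1 s) (F 2 s) (F 3 s) (F 4 s) (F 5 s)
      = ev serD42 s := by
  unfold serD42
  simp only [sq_D42_g, sq_D42_g1, sq_D42_g2, sq_D42_k, sq_D42_k1, sq_D42_k2, e2_add hs, e2_mul hs, ev_P, ev_C, evL, ev_F]
  unfold D42
  push_cast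
  ring

theorem app_D42 {s : ℝ} (hs : |s| ≤ 2) :
    |D42 s (ev sh0 s) (ev (der sh0) s) (ev (der (der sh0)) s) (ev sh1 s) (ev (der sh1) s) (ev (der (der sh1)) s) (F 0 s) (F 1 s) (F 2 s) (F 3 s) (F 4 s) (F 5 s)
      - evL l_D42 s| ≤ (111 / 1000000) := by
  rw [ev_serD42 hs]
  have h := tm_D42.abs_ev_sub_le h2 (s := s) (by push_cast; exact hs)
  push_cast at h
  exact h

instance G2.instsq_D44_g : G2 sq_D44_g := by unfold sq_D44_g; infer_instance
instance G2.instsq_D44_g1 : G2 sq_D44_g1 := by unfold sq_D44_g1; infer_instance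
instance G2.instsq_D44_g2 : G2 sq_D44_g2 := by unfold sq_D44_g2; infer_instance
instance G2.instsq_D44_k : G2 sq_D44_k := by unfold sq_D44_k; infer_instance
instance G2.instsq_D44_k1 : G2 sq_D44_k1 := by unfold sq_D44_k1; infer_instance
instance G2.instsq_D44_k2 : G2 sq_D44_k2 := by unfold sq_D44_k2; infer_instance
theorem ev_serD44 {s : ℝ} (hs : |s| ≤ 2) :
    D44 s (ev sh0 s) (ev (der sh0) s) (ev (der (der sh0)) s) (ev sh1 s) (ev (der sh1) s) (ev (der (der sh1)) s) (F 0 s) (F 1 s) (F 2 s) (F 3 s) (F 4 s) (F 5 s)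
      = ev serD44 s := by
  unfold serD44
  simp only [sq_D44_g, sq_D44_g1, sq_D44_g2, sq_D44_k, sq_D44_k1, sq_D44_k2, e2_add hs, e2_mul hs, ev_P, ev_C, evL, ev_F]
  unfold D44
  push_cast
  ring

theorem app_D44 {s : ℝ} (hs : |s| ≤ 2) :
    |D44 s (ev sh0 s) (ev (der sh0) s) (ev (der (der sh0)) s) (ev sh1 s) (ev (der sh1) s) (ev (der (der sh1)) s) (F 0 s) (F 1 s) (F 2 s) (F 3 s) (F 4 s) (F 5 s)
      - evL l_D44 s| ≤ (481 / 100000000) := by
  rw [ev_serD44 hs]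
  have h := tm_D44.abs_ev_sub_le h2 (s := s) (by push_cast; exact hs)
  push_cast at h
  exact h

instance G2.instsq_D51_k : G2 sq_D51_k := by unfold sq_D51_k; infer_instance
instance G2.instsq_D51_k1 : G2 sq_D51_k1 := by unfold sq_D51_k1; infer_instance
instance G2.instsq_D51_k2 : G2 sq_D51_k2 := by unfold sq_D51_k2; infer_instance
theorem ev_serD51 {s : ℝ} (hs : |s| ≤ 2) :
    D51 s (ev sh1 s) (ev (der sh1) s) (ev (der (der sh1)) s) (F 0 s) (F 1 s) (F 2 s) (F 3 s) (F 4 s) (F 5 s)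
      = ev serD51 s := by
  unfold serD51
  simp only [sq_D51_k, sq_D51_k1, sq_D51_k2, e2_add hs, e2_mul hs, ev_P, ev_C, evL, ev_F]
  unfold D51
  push_cast
  ring

theorem app_D51 {s : ℝ} (hs : |s| ≤ 2) :
    |D51 s (ev sh1 s) (ev (der sh1) s) (ev (der (der sh1)) s) (F 0 s) (F 1 s) (F 2 s) (F 3 s) (F 4 s) (F 5 s)
      - evL l_D51 s| ≤ (227 / 1000000) := by
  rw [ev_serD51 hs]
  have h := tm_D51.abs_ev_sub_le h2 (s := s) (by push_cast; exact hs)
  push_cast at h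
  exact h

instance G2.instsq_D53_k : G2 sq_D53_k := by unfold sq_D53_k; infer_instance
instance G2.instsq_D53_k1 : G2 sq_D53_k1 := by unfold sq_D53_k1; infer_instance
instance G2.instsq_D53_k2 : G2 sq_D53_k2 := by unfold sq_D53_k2; infer_instance
theorem ev_serD53 {s : ℝ} (hs : |s| ≤ 2) :
    D53 s (ev sh1 s) (ev (der sh1) s) (ev (der (der sh1)) s) (F 0 s) (F 1 s) (F 2 s) (F 3 s) (F 4 s) (F 5 s)
      = ev serD53 s := by
  unfold serD53
  simp only [sq_D53_k, sq_D53_k1, sq_D53_k2, e2_add hs, e2_mul hs, ev_P, ev_C, evL, ev_F]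
  unfold D53
  push_cast
  ring

theorem app_D53 {s : ℝ} (hs : |s| ≤ 2) :
    |D53 s (ev sh1 s) (ev (der sh1) s) (ev (der (der sh1)) s) (F 0 s) (F 1 s) (F 2 s) (F 3 s) (F 4 s) (F 5 s)
      - evL l_D53 s| ≤ (133 / 1000000) := by
  rw [ev_serD53 hs]
  have h := tm_D53.abs_ev_sub_le h2 (s := s) (by push_cast; exact hs)
  push_cast at h
  exact h

instance G2.instsq_D55_k : G2 sq_D55_k := by unfold sq_D55_k; infer_instance
instance G2.instsq_D55_k1 : G2 sq_D55_k1 := by unfold sq_D55_k1; infer_instance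
instance G2.instsq_D55_k2 : G2 sq_D55_k2 := by unfold sq_D55_k2; infer_instance
theorem ev_serD55 {s : ℝ} (hs : |s| ≤ 2) :
    D55 s (ev sh1 s) (ev (der sh1) s) (ev (der (der sh1)) s) (F 0 s) (F 1 s) (F 2 s) (F 3 s) (F 4 s) (F 5 s)
      = ev serD55 s := by
  unfold serD55
  simp only [sq_D55_k, sq_D55_k1, sq_D55_k2, e2_add hs, e2_mul hs, ev_P, ev_C, evL, ev_F]
  unfold D55
  push_cast
  ring

theorem app_D55 {s : ℝ} (hs : |s| ≤ 2) :
    |D55 s (ev sh1 s) (ev (der sh1) s) (ev (der (der sh1)) s) (F 0 s) (F 1 s) (F 2 s) (F 3 s) (F 4 s) (F 5 s)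
      - evL l_D55 s| ≤ (259 / 5000000) := by
  rw [ev_serD55 hs]
  have h := tm_D55.abs_ev_sub_le h2 (s := s) (by push_cast; exact hs)
  push_cast at h
  exact h

theorem ev_serD60 {s : ℝ} (hs : |s| ≤ 2) :
    D60 s (F 2 s) (F 4 s) (F 5 s)
      = ev serD60 s := by
  unfold serD60
  simp only [e2_add hs, e2_mul hs, ev_P, ev_C, evL, ev_F]
  unfold D60
  push_cast
  ring

theorem app_D60 {s : ℝ} (hs : |s| ≤ 2) :
    |D60 s (F 2 s) (F 4 s) (F 5 s)
      - evL l_D60 s| ≤ (549 / 100000) := by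
  rw [ev_serD60 hs]
  have h := tm_D60.abs_ev_sub_le h2 (s := s) (by push_cast; exact hs)
  push_cast at h
  exact h

theorem ev_serD62 {s : ℝ} (hs : |s| ≤ 2) :
    D62 s (F 2 s) (F 3 s) (F 4 s) (F 5 s)
      = ev serD62 s := by
  unfold serD62
  simp only [e2_add hs, e2_mul hs, ev_P, ev_C, evL, ev_F]
  unfold D62
  push_cast
  ring

theorem app_D62 {s : ℝ} (hs : |s| ≤ 2) :
    |D62 s (F 2 s) (F 3 s) (F 4 s) (F 5 s)
      - evL l_D62 s| ≤ (357 / 1000000) := by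
  rw [ev_serD62 hs]
  have h := tm_D62.abs_ev_sub_le h2 (s := s) (by push_cast; exact hs)
  push_cast at h
  exact h

theorem ev_serD64 {s : ℝ} (hs : |s| ≤ 2) :
    D64 s (F 2 s) (F 3 s) (F 4 s) (F 5 s)
      = ev serD64 s := by
  unfold serD64
  simp only [e2_add hs, e2_mul hs, ev_P, ev_C, evL, ev_F]
  unfold D64
  push_cast
  ring

theorem app_D64 {s : ℝ} (hs : |s| ≤ 2) :
    |D64 s (F 2 s) (F 3 s) (F 4 s) (F 5 s)
      - evL l_D64 s| ≤ (41 / 250000) := by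
  rw [ev_serD64 hs]
  have h := tm_D64.abs_ev_sub_le h2 (s := s) (by push_cast; exact hs)
  push_cast at h
  exact h

theorem ev_serD66 {s : ℝ} (hs : |s| ≤ 2) :
    D66 s (F 2 s) (F 3 s) (F 4 s) (F 5 s)
      = ev serD66 s := by
  unfold serD66
  simp only [e2_add hs, e2_mul hs, ev_P, ev_C, evL, ev_F]
  unfold D66
  push_cast
  ring

theorem app_D66 {s : ℝ} (hs : |s| ≤ 2) :
    |D66 s (F 2 s) (F 3 s) (F 4 s) (F 5 s)
      - evL l_D66 s| ≤ (31 / 2000000) := by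
  rw [ev_serD66 hs]
  have h := tm_D66.abs_ev_sub_le h2 (s := s) (by push_cast; exact hs)
  push_cast at h
  exact h

theorem ev_serD71 {s : ℝ} (hs : |s| ≤ 2) :
    D71 s (F 4 s) (F 5 s)
      = ev serD71 s := by
  unfold serD71
  simp only [e2_add hs, e2_mul hs, ev_P, ev_C, evL, ev_F]
  unfold D71
  push_cast
  ring

theorem app_D71 {s : ℝ} (hs : |s| ≤ 2) :
    |D71 s (F 4 s) (F 5 s)
      - evL l_D71 s| ≤ (83 / 20000) := by
  rw [ev_serD71 hs]
  have h := tm_D71.abs_ev_sub_le h2 (s := s) (by push_cast; exact hs)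
  push_cast at h
  exact h

theorem ev_serD73 {s : ℝ} (hs : |s| ≤ 2) :
    D73 s (F 4 s) (F 5 s)
      = ev serD73 s := by
  unfold serD73
  simp only [e2_add hs, e2_mul hs, ev_P, ev_C, evL, ev_F]
  unfold D73
  push_cast
  ring

theorem app_D73 {s : ℝ} (hs : |s| ≤ 2) :
    |D73 s (F 4 s) (F 5 s)
      - evL l_D73 s| ≤ (87 / 50000) := by
  rw [ev_serD73 hs]
  have h := tm_D73.abs_ev_sub_le h2 (s := s) (by push_cast; exact hs)
  push_cast at h
  exact h

theorem ev_serD75 {s : ℝ} (hs : |s| ≤ 2) :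
    D75 s (F 4 s) (F 5 s)
      = ev serD75 s := by
  unfold serD75
  simp only [e2_add hs, e2_mul hs, ev_P, ev_C, evL, ev_F]
  unfold D75
  push_cast
  ring

theorem app_D75 {s : ℝ} (hs : |s| ≤ 2) :
    |D75 s (F 4 s) (F 5 s)
      - evL l_D75 s| ≤ (227 / 1000000) := by
  rw [ev_serD75 hs]
  have h := tm_D75.abs_ev_sub_le h2 (s := s) (by push_cast; exact hs)
  push_cast at h
  exact h

theorem ev_serD77 {s : ℝ} (hs : |s| ≤ 2) :
    D77 s (F 4 s) (F 5 s)
      = ev serD77 s := by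
  unfold serD77
  simp only [e2_add hs, e2_mul hs, ev_P, ev_C, evL, ev_F]
  unfold D77
  push_cast
  ring

theorem app_D77 {s : ℝ} (hs : |s| ≤ 2) :
    |D77 s (F 4 s) (F 5 s)
      - evL l_D77 s| ≤ (127 / 2000000) := by
  rw [ev_serD77 hs]
  have h := tm_D77.abs_ev_sub_le h2 (s := s) (by push_cast; exact hs)
  push_cast at h
  exact h

end Pool.Agent.PPW.TM
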