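/-
MP_eb7570_an, Bessel part (helper61): rigorous evaluation of `F n` at rational points.
-/
import Pool.Agent.Lib.MP_eb7570_an.Bes.Basic

set_option autoImplicit false

namespace Pool.Agent.PPW.Bes

open scoped Nat

/-- rational terms -/
def tQ (n : ℕ) (q : ℚ) : ℕ → ℚ
  | 0 => 1 / (n ! : ℚ)
  | k + 1 => tQ n q k * ((-q) / (((k : ℚ) + 1) * (k + 1 + n)))

/-- rational partial sums -/
def pQ (n : ℕ) (q : ℚ) : ℕ → ℚ
  | 0 => 0
  | k + 1 => pQ n q k + tQ n q k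

theorem tQ_cast (n : ℕ) (q : ℚ) (k : ℕ) : ((tQ n q k : ℚ) : ℝ) = trm n q k := by
  induction k with
  | zero => simp [tQ, trm]
  | succ k ih => rw [tQ, trm_ratio]; push_cast; rw [ih]

theorem pQ_cast (n : ℕ) (q : ℚ) (k : ℕ) : ((pQ n q k : ℚ) : ℝ) = part n k q := by
  induction k with
  | zero => simp [pQ, part]
  | succ k ih =>
    rw [pQ]
    push_cast
    rw [ih, tQ_cast]
    unfold part
    rw [Finset.sum_range_succ]

/-- error bound -/
def eQ (n K : ℕ) (q : ℚ) : ℚ := 2 * (|q| ^ K / ((K ! : ℚ) * ((K + n)! : ℚ)))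

theorem abs_F_sub_pQ_le (n K : ℕ) (q : ℚ) (h : 2 * |q| ≤ ((K : ℚ) + 1) * (K + 1 + n)) :
    |F n q - ((pQ n q K : ℚ) : ℝ)| ≤ ((eQ n K q : ℚ) : ℝ) := by
  rw [pQ_cast]
  have h' : 2 * |(q : ℝ)| ≤ ((K : ℝ) + 1) * (K + 1 + n) := by exact_mod_cast h
  refine (abs_F_sub_part_le n K q h').trans ?_
  unfold eQ
  push_cast
  exact le_refl _

/-- Boolean check that `lo < F n q < hi`. -/
def chk (n K : ℕ) (q lo hi : ℚ) : Bool :=
  decide (2 * |q| ≤ ((K : ℚ) + 1) * (K + 1 + n)) &&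
    (decide (lo + eQ n K q < pQ n q K) && decide (pQ n q K + eQ n K q < hi))

theorem of_chk {n K : ℕ} {q lo hi : ℚ} (h : chk n K q lo hi = true) :
    (lo : ℝ) < F n q ∧ F n q < hi := by
  unfold chk at h
  rw [Bool.and_eq_true, Bool.and_eq_true, decide_eq_true_iff, decide_eq_true_iff,
    decide_eq_true_iff] at h
  obtain ⟨h1, h2, h3⟩ := h
  have h4 := abs_le.1 (abs_F_sub_pQ_le n K q h1)
  have h2' : (lo : ℝ) + ((eQ n K q : ℚ) : ℝ) < ((pQ n q K : ℚ) : ℝ) := by exact_mod_cast h2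
  have h3' : ((pQ n q K : ℚ) : ℝ) + ((eQ n K q : ℚ) : ℝ) < (hi : ℝ) := by exact_mod_cast h3
  constructor <;> linarith [h4.1, h4.2]

end Pool.Agent.PPW.Bes
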