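/-
MP_eb7570_an, Bessel part (helper61): the first zeros of `F 0` (`s0 = j_{0,1}^2/4`) and of
`F 1` (`s1 = j_{1,1}^2/4`), with 20 digit enclosures, signs and monotonicity.
-/
import Pool.Agent.Lib.MP_eb7570_an.Bes.Eval

set_option autoImplicit false

namespace Pool.Agent.PPW.Bes

open Set

private theorem antitoneOn_of_succ {n : ℕ} {c : ℝ} (h : ∀ s, 0 ≤ s → s ≤ c → 0 < F (n + 1) s) :
    StrictAntiOn (F n) (Icc 0 c) := by
  refine strictAntiOn_of_deriv_neg (convex_Icc 0 c) (continuous_F n).continuousOn ?_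
  intro x hx
  rw [interior_Icc] at hx
  rw [deriv_F]
  have := h x hx.1.le hx.2.le
  simp only
  linarith

private theorem pos_of_succ {n : ℕ} {c : ℝ} (hc : 0 ≤ c)
    (h : ∀ s, 0 ≤ s → s ≤ c → 0 < F (n + 1) s) (h0 : 0 < F n c) :
    ∀ s, 0 ≤ s → s ≤ c → 0 < F n s := by
  intro s hs hsc
  have h1 := (antitoneOn_of_succ h).antitoneOn ⟨hs, hsc⟩ ⟨hc, le_refl c⟩ hsc
  linarith

private theorem pos_large {n : ℕ} {c : ℝ} (hn : 2 * c < n + 1) (s : ℝ) (hs : 0 ≤ s) (hsc : s ≤ c) :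
    0 < F n s := by
  have h1 := abs_F_sub_part_le n 1 s (by
    rw [abs_of_nonneg hs]
    have : (0:ℝ) ≤ n := by positivity
    push_cast
    nlinarith)
  rw [abs_of_nonneg hs] at h1
  have h2 := (abs_le.1 h1).1
  have h3 : part n 1 s = 1 / (n.factorial : ℝ) := by simp [part, trm]
  rw [h3] at h2
  have h4 : ((1 + n).factorial : ℝ) = ((n : ℝ) + 1) * (n.factorial : ℝ) := by
    rw [show 1 + n = n + 1 by ring, Nat.factorial_succ]; push_cast; ring
  rw [h4] at h2
  have h5 : (0:ℝ) < (n.factorial : ℝ) := by exact_mod_cast Nat.factorial_pos n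
  have h6 : (0:ℝ) < (n:ℝ) + 1 := by positivity
  have h7 : 2 * (s ^ 1 / (((Nat.factorial 1 : ℕ) : ℝ) * (((n : ℝ) + 1) * (n.factorial : ℝ))))
      < 1 / (n.factorial : ℝ) := by
    simp only [Nat.factorial_one, Nat.cast_one, one_mul, pow_one]
    rw [mul_div_assoc', div_lt_div_iff₀ (by positivity) h5]
    nlinarith
  linarith

private theorem pos13 : ∀ s, 0 ≤ s → s ≤ (13/2 : ℝ) → 0 < F 13 s :=
  fun s hs hsc => pos_large (by norm_num) s hs hsc

private theorem ev (n : ℕ) (h : chk n 30 (13/2) 0 2 = true) : 0 < F n (13/2 : ℝ) := by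
  have := (of_chk h).1
  push_cast at this
  exact this

private theorem pos12 : ∀ s, 0 ≤ s → s ≤ (13/2 : ℝ) → 0 < F 12 s :=
  pos_of_succ (by norm_num) pos13 (ev 12 (by decide +kernel))
private theorem pos11 : ∀ s, 0 ≤ s → s ≤ (13/2 : ℝ) → 0 < F 11 s :=
  pos_of_succ (by norm_num) pos12 (ev 11 (by decide +kernel))
private theorem pos10 : ∀ s, 0 ≤ s → s ≤ (13/2 : ℝ) → 0 < F 10 s :=
  pos_of_succ (by norm_num) pos11 (ev 10 (by decide +kernel))
private theorem pos9 : ∀ s, 0 ≤ s → s ≤ (13/2 : ℝ) → 0 < F 9 s :=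
  pos_of_succ (by norm_num) pos10 (ev 9 (by decide +kernel))
private theorem pos8 : ∀ s, 0 ≤ s → s ≤ (13/2 : ℝ) → 0 < F 8 s :=
  pos_of_succ (by norm_num) pos9 (ev 8 (by decide +kernel))
private theorem pos7 : ∀ s, 0 ≤ s → s ≤ (13/2 : ℝ) → 0 < F 7 s :=
  pos_of_succ (by norm_num) pos8 (ev 7 (by decide +kernel))
private theorem pos6 : ∀ s, 0 ≤ s → s ≤ (13/2 : ℝ) → 0 < F 6 s :=
  pos_of_succ (by norm_num) pos7 (ev 6 (by decide +kernel))

theorem F5_pos : ∀ s, 0 ≤ s → s ≤ (13/2 : ℝ) → 0 < F 5 s :=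
  pos_of_succ (by norm_num) pos6 (ev 5 (by decide +kernel))
theorem F4_pos : ∀ s, 0 ≤ s → s ≤ (13/2 : ℝ) → 0 < F 4 s :=
  pos_of_succ (by norm_num) F5_pos (ev 4 (by decide +kernel))
theorem F3_pos : ∀ s, 0 ≤ s → s ≤ (13/2 : ℝ) → 0 < F 3 s :=
  pos_of_succ (by norm_num) F4_pos (ev 3 (by decide +kernel))
theorem F2_pos : ∀ s, 0 ≤ s → s ≤ (13/2 : ℝ) → 0 < F 2 s :=
  pos_of_succ (by norm_num) F3_pos (ev 2 (by decide +kernel))

theorem F2_strictAnti : StrictAntiOn (F 2) (Icc 0 (13/2)) := antitoneOn_of_succ F3_pos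
theorem F1_strictAnti : StrictAntiOn (F 1) (Icc 0 (13/2)) := antitoneOn_of_succ F2_pos

/-! ### the zero of `F 1` -/

theorem exists_s1 : ∃ s : ℝ, (367049266053097331430 / 10 ^ 20 : ℝ) < s ∧
    s < (367049266053097331431 / 10 ^ 20 : ℝ) ∧ F 1 s = 0 := by
  have ha : 0 < F 1 (367049266053097331430 / 10 ^ 20 : ℝ) := by
    have := (of_chk (n := 1) (K := 24) (q := 367049266053097331430 / 10 ^ 20) (lo := 0) (hi := 1)
      (by decide +kernel)).1
    push_cast at this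
    exact this
  have hb : F 1 (367049266053097331431 / 10 ^ 20 : ℝ) < 0 := by
    have := (of_chk (n := 1) (K := 24) (q := 367049266053097331431 / 10 ^ 20) (lo := -1) (hi := 0)
      (by decide +kernel)).2
    push_cast at this
    exact this
  obtain ⟨s, hs, h0⟩ := intermediate_value_Ioo' (by norm_num) (continuous_F 1).continuousOn
    (show (0:ℝ) ∈ Ioo (F 1 (367049266053097331431 / 10 ^ 20 : ℝ))
      (F 1 (367049266053097331430 / 10 ^ 20 : ℝ)) from ⟨hb, ha⟩)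
  exact ⟨s, hs.1, hs.2, h0⟩

/-- `s1 = j_{1,1}^2/4`, the first positive zero of `F 1`. -/
noncomputable def s1 : ℝ := Classical.choose exists_s1

theorem s1_gt : (367049266053097331430 / 10 ^ 20 : ℝ) < s1 := (Classical.choose_spec exists_s1).1
theorem s1_lt : s1 < (367049266053097331431 / 10 ^ 20 : ℝ) := (Classical.choose_spec exists_s1).2.1
theorem F1_s1 : F 1 s1 = 0 := (Classical.choose_spec exists_s1).2.2
theorem s1_pos : 0 < s1 := by have := s1_gt; norm_num at this; linarith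

theorem s1_le : s1 ≤ (13/2 : ℝ) := by have := s1_lt; norm_num at this; linarith

theorem F1_pos {s : ℝ} (hs : 0 ≤ s) (h : s < s1) : 0 < F 1 s := by
  have := F1_strictAnti ⟨hs, h.le.trans s1_le⟩ ⟨s1_pos.le, s1_le⟩ h
  rw [F1_s1] at this; exact this

theorem F1_neg {s : ℝ} (hs : s1 < s) (h : s ≤ 13/2) : F 1 s < 0 := by
  have := F1_strictAnti ⟨s1_pos.le, s1_le⟩ ⟨s1_pos.le.trans hs.le, h⟩ hs
  rw [F1_s1] at this; exact this

theorem F1_nonneg {s : ℝ} (hs : 0 ≤ s) (h : s ≤ s1) : 0 ≤ F 1 s := by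
  rcases eq_or_lt_of_le h with h | h
  · rw [h, F1_s1]
  · exact (F1_pos hs h).le

/-- `F 0` is strictly decreasing on `[0, s1]`. -/
theorem F0_strictAnti : StrictAntiOn (F 0) (Icc 0 s1) := by
  refine strictAntiOn_of_deriv_neg (convex_Icc 0 s1) (continuous_F 0).continuousOn ?_
  intro x hx
  rw [interior_Icc] at hx
  rw [deriv_F]
  have := F1_pos hx.1.le hx.2
  simp only [Nat.zero_add] at *
  linarith

/-! ### the zero of `F 0` -/

theorem exists_s0 : ∃ s : ℝ, (144579649073669613029 / 10 ^ 20 : ℝ) < s ∧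
    s < (144579649073669613030 / 10 ^ 20 : ℝ) ∧ F 0 s = 0 := by
  have ha : 0 < F 0 (144579649073669613029 / 10 ^ 20 : ℝ) := by
    have := (of_chk (n := 0) (K := 24) (q := 144579649073669613029 / 10 ^ 20) (lo := 0) (hi := 1)
      (by decide +kernel)).1
    push_cast at this
    exact this
  have hb : F 0 (144579649073669613030 / 10 ^ 20 : ℝ) < 0 := by
    have := (of_chk (n := 0) (K := 24) (q := 144579649073669613030 / 10 ^ 20) (lo := -1) (hi := 0)
      (by decide +kernel)).2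
    push_cast at this
    exact this
  obtain ⟨s, hs, h0⟩ := intermediate_value_Ioo' (by norm_num) (continuous_F 0).continuousOn
    (show (0:ℝ) ∈ Ioo (F 0 (144579649073669613030 / 10 ^ 20 : ℝ))
      (F 0 (144579649073669613029 / 10 ^ 20 : ℝ)) from ⟨hb, ha⟩)
  exact ⟨s, hs.1, hs.2, h0⟩

/-- `s0 = j_{0,1}^2/4`, the first positive zero of `F 0`. -/
noncomputable def s0 : ℝ := Classical.choose exists_s0

theorem s0_gt : (144579649073669613029 / 10 ^ 20 : ℝ) < s0 := (Classical.choose_spec exists_s0).1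
theorem s0_lt : s0 < (144579649073669613030 / 10 ^ 20 : ℝ) := (Classical.choose_spec exists_s0).2.1
theorem F0_s0 : F 0 s0 = 0 := (Classical.choose_spec exists_s0).2.2
theorem s0_pos : 0 < s0 := by have := s0_gt; norm_num at this; linarith
theorem s0_lt_s1 : s0 < s1 := by
  have := s0_lt; have := s1_gt; norm_num at *; linarith

theorem F0_pos {s : ℝ} (hs : 0 ≤ s) (h : s < s0) : 0 < F 0 s := by
  have := F0_strictAnti ⟨hs, (h.trans s0_lt_s1).le⟩ ⟨s0_pos.le, s0_lt_s1.le⟩ h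
  rw [F0_s0] at this; exact this

theorem F0_neg {s : ℝ} (hs : s0 < s) (h : s ≤ s1) : F 0 s < 0 := by
  have := F0_strictAnti ⟨s0_pos.le, s0_lt_s1.le⟩ ⟨s0_pos.le.trans hs.le, h⟩ hs
  rw [F0_s0] at this; exact this

theorem F0_nonneg {s : ℝ} (hs : 0 ≤ s) (h : s ≤ s0) : 0 ≤ F 0 s := by
  rcases eq_or_lt_of_le h with h | h
  · rw [h, F0_s0]
  · exact (F0_pos hs h).le

/-! ### `κ² = s1/s0` and `C0 = 2 (κ² - 1)` -/

/-- `κ² = (j_{1,1}/j_{0,1})²`. -/
noncomputable def kap2 : ℝ := s1 / s0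

theorem kap2_mul_s0 : kap2 * s0 = s1 := div_mul_cancel₀ _ s0_pos.ne'

theorem kap2_pos : 0 < kap2 := div_pos s1_pos s0_pos

theorem kap2_gt : (25387339670887552 / 10 ^ 16 : ℝ) < kap2 := by
  unfold kap2
  rw [lt_div_iff₀ s0_pos]
  have h1 := s0_lt; have h2 := s1_gt
  norm_num at *
  linarith

theorem kap2_lt : kap2 < (25387339670887553 / 10 ^ 16 : ℝ) := by
  unfold kap2
  rw [div_lt_iff₀ s0_pos]
  have h1 := s0_gt; have h2 := s1_lt
  norm_num at *
  linarith

/-- `C0 = 2(κ²-1) = 3.0774679341775...`. -/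
noncomputable def C0 : ℝ := 2 * (kap2 - 1)

theorem C0_gt : (3077467934177510 / 10 ^ 15 : ℝ) < C0 := by
  unfold C0; have := kap2_gt; norm_num at *; linarith

theorem C0_lt : C0 < (3077467934177511 / 10 ^ 15 : ℝ) := by
  unfold C0; have := kap2_lt; norm_num at *; linarith

end Pool.Agent.PPW.Bes
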