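/-
MP_eb7570_an (helper61): the radial functions of the near-disk certificate as power series in
`s` (half coordinates, `s = |x|^2`, `s0 = j_{0,1}^2/4`).
  `F0 = (s0 - X) A`, `K1 = (s0 - X) B`, `b = B/A`, ...
-/
import Pool.Agent.Lib.MP_eb7570_an.TM.Extra

set_option autoImplicit false
set_option linter.dupNamespace false

namespace Pool.Agent.PPW.TM

open PowerSeries
open Pool.Agent.PPW.Bes (s0 s1 kap2 C0 s0_gt s0_lt s1_gt s1_lt s0_pos s1_pos kap2_pos)

/-! ### constants -/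

theorem one_app : |(1:ℝ) - ((1:ℚ):ℝ)| ≤ ((0:ℚ):ℝ) := by norm_num
theorem m1_app : |(-1:ℝ) - ((-1:ℚ):ℝ)| ≤ ((0:ℚ):ℝ) := by norm_num
theorem m2_app : |(-2:ℝ) - ((-2:ℚ):ℝ)| ≤ ((0:ℚ):ℝ) := by norm_num
theorem p2_app : |(2:ℝ) - ((2:ℚ):ℝ)| ≤ ((0:ℚ):ℝ) := by norm_num

theorem kap2_gt' : (3173417458860944033 / 1250000000000000000 : ℝ) < kap2 := by
  unfold Pool.Agent.PPW.Bes.kap2
  rw [lt_div_iff₀ s0_pos]
  have h1 := s0_lt; have h2 := s1_gt
  norm_num at *
  linarith

theorem kap2_lt' : kap2 < (12693669835443776133 / 5000000000000000000 : ℝ) := by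
  unfold Pool.Agent.PPW.Bes.kap2
  rw [div_lt_iff₀ s0_pos]
  have h1 := s0_gt; have h2 := s1_lt
  norm_num at *
  linarith

theorem s0_app : |s0 - (((14457964907366961303 / 10000000000000000000) : ℚ) : ℝ)| ≤ ((1 / 10000000000000000000 : ℚ) : ℝ) := by
  have h1 := s0_gt; have h2 := s0_lt
  rw [abs_le]; push_cast; constructor <;> norm_num at * <;> linarith

theorem kap2_app : |kap2 - (((1269366983544377613 / 500000000000000000) : ℚ) : ℝ)| ≤ ((1 / 500000000000000000 : ℚ) : ℝ) := by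
  have h1 := kap2_gt'; have h2 := kap2_lt'
  rw [abs_le]; push_cast; constructor <;> norm_num at * <;> linarith

theorem i2_gt : (3458301380612898537 / 10000000000000000000 : ℝ) < 1 / (2 * s0) := by
  have h1 := s0_gt; have h2 := s0_lt; have h3 := s0_pos
  rw [lt_div_iff₀ (by positivity)]
  norm_num at *
  linarith

theorem i2_lt : 1 / (2 * s0) < (3458301380612898539 / 10000000000000000000 : ℝ) := by
  have h1 := s0_gt; have h2 := s0_lt; have h3 := s0_pos
  rw [div_lt_iff₀ (by positivity)]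
  norm_num at *
  linarith

theorem i2_app : |1 / (2 * s0) - (((172915069030644926918867 / 500000000000000000000000) : ℚ) : ℝ)| ≤ ((1 / 1000000000000000000 : ℚ) : ℝ) := by
  have h1 := i2_gt; have h2 := i2_lt
  rw [abs_le]; push_cast
  generalize 1 / (2 * s0) = t at *
  constructor <;> norm_num at * <;> linarith

theorem c1_app : |(1 / (2 * s0) + kap2 / 2 - 1) - (((153799280401416866768637 / 250000000000000000000000) : ℚ) : ℝ)|
    ≤ ((1 / 1000000000000000000 : ℚ) : ℝ) := by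
  have h1 := i2_gt; have h2 := i2_lt; have h3 := kap2_gt'; have h4 := kap2_lt'
  rw [abs_le]; push_cast
  generalize 1 / (2 * s0) = t at *
  constructor <;> norm_num at * <;> linarith

theorem k22_app : |kap2 / 2 - (((634683491772188806618407 / 500000000000000000000000) : ℚ) : ℝ)| ≤ ((1 / 1000000000000000000 : ℚ) : ℝ) := by
  have h3 := kap2_gt'; have h4 := kap2_lt'
  rw [abs_le]; push_cast; constructor <;> norm_num at * <;> linarith

theorem kk2_app : |kap2 ^ 2 / 2 - (((644517015565020890540263 / 200000000000000000000000) : ℚ) : ℝ)| ≤ ((1 / 1000000000000000000 : ℚ) : ℝ) := by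
  have h3 := kap2_gt'; have h4 := kap2_lt'; have h5 := kap2_pos
  have h6 : (3173417458860944033 / 1250000000000000000 : ℝ) ^ 2 ≤ kap2 ^ 2 := pow_le_pow_left₀ (by norm_num) h3.le 2
  have h7 : kap2 ^ 2 ≤ (12693669835443776133 / 5000000000000000000 : ℝ) ^ 2 := pow_le_pow_left₀ h5.le h4.le 2
  rw [abs_le]; push_cast
  generalize kap2 ^ 2 = t at *
  constructor <;> norm_num at * <;> linarith

/-! ### the series -/

/-- `F0 = (s0 - X) A` -/
noncomputable def sA : PowerSeries ℝ := dd s0 (Fs 0 1)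
noncomputable def sAi : PowerSeries ℝ := sA⁻¹
/-- `K1 = (s0 - X) B` -/
noncomputable def sB : PowerSeries ℝ := dd s0 (Fs 1 kap2)
/-- `b = K1/F0` -/
noncomputable def sb : PowerSeries ℝ := sB * sAi
noncomputable def sN1 : PowerSeries ℝ :=
  C (1 / (2 * s0) + kap2 / 2 - 1) * Fs 1 kap2 - C (1 / (2 * s0)) * Fs 0 kap2 - C (kap2 / 2) * Fs 2 kap2
/-- `a1 = N1/F0` -/
noncomputable def sa1 : PowerSeries ℝ := dd s0 sN1 * sAi
noncomputable def sN2 : PowerSeries ℝ := C (kap2 ^ 2 / 2) * Fs 3 kap2 - sb * Fs 2 1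
/-- `a2 = N2/F0` -/
noncomputable def sa2 : PowerSeries ℝ := dd s0 sN2 * sAi
noncomputable def sH' : PowerSeries ℝ := dd s0 (dd s0 (X * (sb * sb)))
/-- `h0 = (s0 b(s0)^2 - s b^2)/F0^2` -/
noncomputable def sh0 : PowerSeries ℝ := C (-1) * (sH' * (sAi * sAi))
noncomputable def sV : PowerSeries ℝ := C (-2) * (sb * (sa1 + X * sa2))
noncomputable def sN3 : PowerSeries ℝ := sV - C 2 * (Fs 0 1 * Fs 2 1 * sh0)
/-- `h1 = (V - 2 F0 F2 h0)/F0^2` -/
noncomputable def sh1 : PowerSeries ℝ := dd s0 (dd s0 sN3) * (sAi * sAi)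

theorem abs_s0 : |s0| = s0 := abs_of_pos s0_pos

theorem s0_lt_two : s0 < 2 := by have := s0_lt; norm_num at this ⊢; linarith

theorem sA_spec : (C s0 - X) * sA = Fs 0 1 := by
  unfold sA
  rw [(Gd.Fs (ρ := 2) (by norm_num) 0 1).dd_spec (by rw [abs_s0]; exact s0_lt_two), ev_Fs, one_mul,
    Pool.Agent.PPW.Bes.F0_s0, map_zero, sub_zero]

theorem sB_spec : (C s0 - X) * sB = Fs 1 kap2 := by
  unfold sB
  rw [(Gd.Fs (ρ := 2) (by norm_num) 1 kap2).dd_spec (by rw [abs_s0]; exact s0_lt_two), ev_Fs,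
    Pool.Agent.PPW.Bes.kap2_mul_s0, Pool.Agent.PPW.Bes.F1_s1, map_zero, sub_zero]

theorem sA_mul_sAi : sA * sAi = 1 := by
  unfold sAi
  refine PowerSeries.mul_inv_cancel _ ?_
  intro h
  have h1 := congrArg (PowerSeries.constantCoeff (R := ℝ)) sA_spec
  rw [map_mul, h, mul_zero, ← coeff_zero_eq_constantCoeff_apply, coeff_Fs] at h1
  norm_num at h1

end Pool.Agent.PPW.TM
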